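import Pool.Agent.FBN.Push
import Pool.Agent.FBR.VP
import Pool.Agent.FBR.Ops

/-!
# FBN/Asc: vertical positivity is open; a function which makes the form positive on all fibres

PROOF PLAN.  `vpos_chart`: `PC.vert_iff`, `PC.dvec_ne`, `(0, I r) = I • (0, r)`, `Hol.smul_I`, `tpb_apply`.  `vpos_open`: every point is in a product chart
(`exists_PC`); in it, by homogeneity, it is enough to test `r` in the unit sphere `S` of `Fin m → ℂ` (compact); the function
`(q, r) ↦ tpb c.val P.Ψ q (0, r) (0, I r)` is continuous on `P.O × S`; so the set of the `q` with all values positive is open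
(`IsCompact` tube lemma, `isCompact.eventually_forall...`); `PC.isOpen_im`.
`ascend`: adapt `Pool/Agent/FBR/Asc.lean` (proved there for fibres of dimension one; only `vpos_open`, `h.hol` are used).
-/

set_option autoImplicit false

noncomputable section

open scoped Manifold ContDiff Classical

namespace Pool.Agent.FBN

open Pool.Agent.FBR

variable {E X : Type*} [NormedAddCommGroup E] [NormedSpace ℂ E] [FiniteDimensional ℂ E]
  [TopologicalSpace X] [ChartedSpace E X] [IsManifold 𝓘(ℂ, E) ω X]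
  {F B : Type*} [NormedAddCommGroup F] [NormedSpace ℂ F] [FiniteDimensional ℂ F] [TopologicalSpace B]
  [ChartedSpace F B] [IsManifold 𝓘(ℂ, F) ω B] {π : X → B} {m : ℕ}

private theorem Asc_key (P : PC E F π m) (c : Form E X) {q : F × (Fin m → ℂ)} (hq : q ∈ P.O)
    (r : Fin m → ℂ) : tpb c.val P.Ψ q (0, r) (0, Complex.I • r) =
      c.val (P.Ψ q) (dvec E P.Ψ q (0, r)) (Complex.I • dvec E P.Ψ q (0, r)) := by
  have h1 : ((0 : F), Complex.I • r) = Complex.I • ((0 : F), r) := by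
    rw [Prod.smul_mk, smul_zero]
  rw [h1, tpb_apply, (P.hol q hq).smul_I]

theorem vpos_chart (hπ : ContMDiff 𝓘(ℂ, E) 𝓘(ℂ, F) ω π) (P : PC E F π m) (c : Form E X)
    {q : F × (Fin m → ℂ)} (hq : q ∈ P.O) :
    VPos F π c.val (P.Ψ q) ↔ ∀ r : Fin m → ℂ, r ≠ 0 → 0 < tpb c.val P.Ψ q (0, r) (0, Complex.I • r) := by
  constructor
  · intro h r hr
    rw [Asc_key P c hq]
    exact h _ (P.dvec_ne hq hr) ((P.vert_iff hπ hq _).2 ⟨r, rfl⟩)
  · intro h ξ hξ hv
    obtain ⟨r, rfl⟩ := (P.vert_iff hπ hq ξ).1 hv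
    rw [← Asc_key P c hq]
    refine h r ?_
    rintro rfl
    exact hξ (map_zero _)

private theorem Asc_cont (P : PC E F π m) (c : Form E X) {q : F × (Fin m → ℂ)} (hq : q ∈ P.O)
    (r : Fin m → ℂ) :
    ContinuousAt (fun z : (F × (Fin m → ℂ)) × (Fin m → ℂ) =>
      tpb c.val P.Ψ z.1 (0, z.2) (0, Complex.I • z.2)) (q, r) := by
  have h1 : ContinuousAt (tpb c.val P.Ψ) q :=
    (tpb_smooth c P.isOpen (fun q hq => (P.hol q hq).sm)).continuousOn.continuousAt
      (P.isOpen.mem_nhds hq)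
  have h2 : ContinuousAt (fun z : (F × (Fin m → ℂ)) × (Fin m → ℂ) => tpb c.val P.Ψ z.1) (q, r) :=
    ContinuousAt.comp (x := (q, r)) (g := tpb c.val P.Ψ) h1 continuousAt_fst
  exact (h2.clm_apply (by fun_prop)).clm_apply (by fun_prop)

private theorem Asc_hom (A : Bil (F × (Fin m → ℂ))) (t : ℝ) (s : Fin m → ℂ) :
    A (0, t • s) (0, Complex.I • t • s) = t * (t * A (0, s) (0, Complex.I • s)) := by
  have e1 : ((0 : F), t • s) = t • ((0 : F), s) := by rw [Prod.smul_mk, smul_zero]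
  have e2 : ((0 : F), Complex.I • t • s) = t • ((0 : F), Complex.I • s) := by
    rw [Prod.smul_mk, smul_zero, smul_comm]
  rw [e1, e2, map_smul, map_smul]
  rfl

theorem vpos_open (h : Fibn E F π m) (c : Form E X) : IsOpen {x | VPos F π c.val x} := by
  rw [isOpen_iff_mem_nhds]
  intro x hx
  obtain ⟨P, -, q0, hq0, rfl⟩ := exists_PC (E := E) (F := F) h x
  have h0 := (vpos_chart h.hol P c hq0).1 hx
  have h1 : ∀ᶠ q in nhds q0, ∀ r ∈ Metric.sphere (0 : Fin m → ℂ) 1,
      0 < tpb c.val P.Ψ q (0, r) (0, Complex.I • r) := by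
    refine IsCompact.eventually_forall_of_forall_eventually (isCompact_sphere _ _)
      (P := fun q r => 0 < tpb c.val P.Ψ q (0, r) (0, Complex.I • r)) fun r hr => ?_
    have hr0 : r ≠ 0 := by
      rintro rfl
      simp at hr
    exact (Asc_cont P c hq0 r).eventually (lt_mem_nhds (h0 r hr0))
  obtain ⟨V, hV, hVo, hqV⟩ := mem_nhds_iff.1 (Filter.inter_mem (P.isOpen.mem_nhds hq0) h1)
  have h2 := P.isOpen_im hVo (fun q hq => (hV hq).1)
  refine Filter.mem_of_superset (h2.mem_nhds ⟨q0, hqV, rfl⟩) ?_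
  rintro _ ⟨q, hq, rfl⟩
  refine (vpos_chart h.hol P c (hV hq).1).2 fun r hr => ?_
  have hn : 0 < ‖r‖ := norm_pos_iff.2 hr
  have h3 : r = ‖r‖ • (‖r‖⁻¹ • r) := by
    rw [smul_smul, mul_inv_cancel₀ hn.ne', one_smul]
  have h4 : 0 < tpb c.val P.Ψ q (0, ‖r‖⁻¹ • r) (0, Complex.I • ‖r‖⁻¹ • r) := by
    refine (hV hq).2 _ ?_
    rw [mem_sphere_zero_iff_norm, norm_smul, norm_inv, norm_norm, inv_mul_cancel₀ hn.ne']
  rw [h3, Asc_hom]
  exact mul_pos hn (mul_pos hn h4)

theorem ascend [CompactSpace X] [T2Space X] [CompactSpace B] [T2Space B] (h : Fibn E F π m) (c : Form E X)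
    (hpt : ∀ b : B, ∃ φ : X → ℝ, SmF E φ ∧ ∀ x, π x = b → VPos F π (fun x => c.val x + ddcF E φ x) x) :
    ∃ φ : X → ℝ, SmF E φ ∧ ∀ x, VPos F π (fun x => c.val x + ddcF E φ x) x := by
  choose φ hφ hv using hpt
  have hfo : ∀ b : B, ∃ d : Form E X, d.val = fun x => c.val x + ddcF E (φ b) x := by
    intro b
    obtain ⟨c1, hc1⟩ := exists_ddcF (hφ b)
    obtain ⟨d, hd⟩ := exists_comb c c1 1 1
    refine ⟨d, ?_⟩
    funext x
    rw [hd x, one_smul, one_smul, hc1]
  have hop : ∀ b : B, IsOpen {x | VPos F π (fun x => c.val x + ddcF E (φ b) x) x} := by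
    intro b
    obtain ⟨d, hd⟩ := hfo b
    rw [← hd]
    exact vpos_open h d
  have hcont : Continuous π := h.hol.continuous
  let N : B → Set X := fun b => {x | VPos F π (fun x => c.val x + ddcF E (φ b) x) x}ᶜ
  have hNc : ∀ b, IsCompact (N b) := fun b => (hop b).isClosed_compl.isCompact
  let O : B → Set B := fun b => (π '' N b)ᶜ
  have hO : ∀ b, IsOpen (O b) := fun b => ((hNc b).image hcont).isClosed.isOpen_compl
  have hbO : ∀ b, b ∈ O b := by
    rintro b ⟨x, hx, hxb⟩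
    exact hx (hv b x hxb)
  have hpos : ∀ b x, π x ∈ O b → VPos F π (fun x => c.val x + ddcF E (φ b) x) x := by
    intro b x hx
    by_contra hn
    exact hx ⟨x, hn, rfl⟩
  obtain ⟨n, p, χ, hsm, hnn, hsupp, hsum⟩ := pou (E := F) O hO hbO
  have hsmi : ∀ i ∈ (Finset.univ : Finset (Fin n)), SmF E (fun x => χ i (π x) * φ (p i) x) := by
    intro i _
    exact ((hsm i).comp_holo h.hol).mul (hφ (p i))
  refine ⟨fun x => ∑ i, χ i (π x) * φ (p i) x, SmF.sum Finset.univ hsmi, ?_⟩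
  intro x ξ hξ hvert
  show 0 < (c.val x + ddcF E (fun x => ∑ i, χ i (π x) * φ (p i) x) x) ξ (Complex.I • ξ)
  have e1 : ddcF E (fun x => ∑ i, χ i (π x) * φ (p i) x) x ξ (Complex.I • ξ) =
      ∑ i, χ i (π x) * ddcF E (φ (p i)) x ξ (Complex.I • ξ) := by
    rw [ddcF_sum Finset.univ hsmi x]
    simp only [sum_apply]
    refine Finset.sum_congr rfl fun i _ => ?_
    exact ddcF_mul_vert (hsm i) (hφ (p i)) h.hol hvert
  have e2 : (c.val x + ddcF E (fun x => ∑ i, χ i (π x) * φ (p i) x) x) ξ (Complex.I • ξ) =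
      ∑ i, χ i (π x) * (c.val x ξ (Complex.I • ξ) + ddcF E (φ (p i)) x ξ (Complex.I • ξ)) := by
    simp only [add_apply, mul_add, Finset.sum_add_distrib]
    rw [e1, ← Finset.sum_mul, hsum (π x), one_mul]
  rw [e2]
  have hterm : ∀ i, χ i (π x) ≠ 0 →
      0 < c.val x ξ (Complex.I • ξ) + ddcF E (φ (p i)) x ξ (Complex.I • ξ) := by
    intro i hi
    exact hpos (p i) x (hsupp i (subset_tsupport _ hi)) ξ hξ hvert
  refine Finset.sum_pos' (fun i _ => ?_) ?_
  · by_cases hi : χ i (π x) = 0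
    · rw [hi, zero_mul]
    · exact mul_nonneg (hnn i _) (hterm i hi).le
  · have : ∃ i, χ i (π x) ≠ 0 := by
      by_contra hcon
      push Not at hcon
      have h1 := hsum (π x)
      simp [hcon] at h1
    obtain ⟨i, hi⟩ := this
    exact ⟨i, Finset.mem_univ i, mul_pos (lt_of_le_of_ne (hnn i _) (Ne.symm hi)) (hterm i hi)⟩

end Pool.Agent.FBN
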