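import Pool.Agent.FBN.DetK

/-!
# FBN/ExP: positivity and J-invariance of `a ^ k`

PROOF PLAN.  `pw_I`: `pw_comp_apply` with `L = I • id`, since `a.bilinearComp L L = a` by `hJ`.
Let `v : Fin k → H`, `L : (Fin k → ℂ) → H`, `L c = ∑ c i • v i`, so `dbl v = L ∘ fr k` and `pw a k (dbl v) = pw a' k (fr k)`, `a' = a.bilinearComp L L`
(`pw_comp_apply`); `a'` is alternating, J-invariant and semi-positive on `ℂ^k`.  The Hermitian matrix
`A i j = a' (e i) (I • e j) + i * a' (e i) (e j)` (or its conjugate) is positive semi-definite; the spectral theorem (`Matrix.IsHermitian.eigenvectorBasis`)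
gives a basis `f` of `ℂ^k` with `a' (f i) (f j) = 0 = a' (f i) (I • f j)` for `i ≠ j`.  With `R` the complex linear map `e i ↦ f i`:
`pw a' k (dbl f) = pw a' k (R ∘ fr k) = R.det * pw a' k (fr k)` (`alt_det`), `R.det > 0` (`det_pos_cplx`).
Orthogonal case (`pw_orth`): `pw a k (dbl f) = 2 ^ k * k ! * ∏ a (f i) (I • f i)`: by `w2_apply` in the sum over the pairs `(i, j)` only the pairs
`{2 l, 2 l + 1}` contribute (the others have `a (..) (..) = 0`), each (in both orders) with `a (f l) (I • f l) * pw a (k - 1) (dbl (f without l))`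
and the sign `+`; induction on `k`.
`pw_zero_of`: if `0 < pw a k (dbl v)` then no `a' (f i) (I • f i)` vanishes, so `a'` is positive definite.
(Any other proof is fine, e.g. induction on `k` by splitting off one vector and its orthogonal complement with respect to `a`.)
-/

set_option autoImplicit false

noncomputable section

open scoped ContDiff

open ContinuousAlternatingMap

namespace Pool.Agent.FBN

open Pool.Agent.FBR

variable {H : Type*} [NormedAddCommGroup H] [NormedSpace ℂ H]

private theorem ExP_I {a : Bil H} (hJ : ∀ u v, a (Complex.I • u) (Complex.I • v) = a u v) (u v : H) :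
    a (Complex.I • u) v = - a u (Complex.I • v) := by
  have h := hJ (Complex.I • u) v
  have h1 : Complex.I • Complex.I • u = -u := by
    rw [smul_smul, Complex.I_mul_I, neg_smul, one_smul]
  rw [h1] at h
  rw [← h, map_neg]
  rfl

private theorem ExP_anti {a : Bil H} (ha : ∀ u, a u u = 0) (u v : H) : a u v = - a v u := by
  have h := ha (u + v)
  have h1 : a (u + v) (u + v) = a u u + a u v + (a v u + a v v) := by
    rw [map_add, map_add]
    show (a u + a v) u + (a u + a v) v = _
    show a u u + a v u + (a u v + a v v) = _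
    ring
  rw [h1, ha, ha] at h
  linarith

theorem pw_I {a : Bil H} (hJ : ∀ u v, a (Complex.I • u) (Complex.I • v) = a u v) (k : ℕ)
    (v : Fin (2 * k) → H) : pw a k (fun j => Complex.I • v j) = pw a k v := by
  have h := pw_comp_apply a k (Complex.I • ContinuousLinearMap.id ℝ H : H →L[ℝ] H) v
  have h1 : a.bilinearComp (Complex.I • ContinuousLinearMap.id ℝ H : H →L[ℝ] H)
      (Complex.I • ContinuousLinearMap.id ℝ H : H →L[ℝ] H) = a := by
    ext u w
    exact hJ u w
  rw [h1] at h
  exact h.symm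

private theorem ExP_sa {n : ℕ} (p : Fin (n + 1)) (i : Fin n) :
    (p.succAbove i).1 = if i.1 < p.1 then i.1 else i.1 + 1 := by
  simp only [Fin.succAbove, Fin.lt_def, Fin.val_castSucc]
  split_ifs <;> simp

private theorem ExP_dbl0 {m : ℕ} (f : Fin m → H) (i : Fin (2 * m)) (l : Fin m) (h : i.1 = 2 * l.1) :
    dbl f i = f l := by
  have h1 : ix i = l := Fin.ext (by show i.1 / 2 = l.1; omega)
  unfold dbl
  rw [if_pos (by omega), h1]

private theorem ExP_dbl1 {m : ℕ} (f : Fin m → H) (i : Fin (2 * m)) (l : Fin m) (h : i.1 = 2 * l.1 + 1) :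
    dbl f i = Complex.I • f l := by
  have h1 : ix i = l := Fin.ext (by show i.1 / 2 = l.1; omega)
  unfold dbl
  rw [if_neg (by omega), h1]

private theorem ExP_rem {k : ℕ} (f : Fin (k + 1) → H) (g : Fin (2 * k + 2) → H)
    (h0 : ∀ (i : Fin (2 * k + 2)) (l : Fin (k + 1)), i.1 = 2 * l.1 → g i = f l)
    (h1 : ∀ (i : Fin (2 * k + 2)) (l : Fin (k + 1)), i.1 = 2 * l.1 + 1 → g i = Complex.I • f l)
    (i : Fin (2 * k + 2)) (j : Fin (2 * k + 1)) (l : Fin (k + 1)) (hl : l.1 = i.1 / 2)
    (hj : j.1 = 2 * l.1) :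
    j.removeNth (i.removeNth g) = dbl fun t : Fin k => f (l.succAbove t) := by
  funext t
  show g (i.succAbove (j.succAbove t)) = _
  have e1 := ExP_sa i (j.succAbove t)
  have e2 := ExP_sa j t
  have e3 := ExP_sa l (⟨t.1 / 2, by omega⟩ : Fin k)
  have hv : (i.succAbove (j.succAbove t)).1 = if t.1 < 2 * l.1 then t.1 else t.1 + 2 := by
    rw [e1, e2]
    split_ifs <;> omega
  rcases Nat.even_or_odd' t.1 with ⟨s, hs | hs⟩
  · have hs' : s < k := by have := t.2; omega
    rw [ExP_dbl0 (fun t : Fin k => f (l.succAbove t)) t ⟨s, hs'⟩ hs]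
    refine h0 _ _ ?_
    rw [hv, ExP_sa l ⟨s, hs'⟩]
    simp only
    split_ifs <;> omega
  · have hs' : s < k := by have := t.2; omega
    rw [ExP_dbl1 (fun t : Fin k => f (l.succAbove t)) t ⟨s, hs'⟩ hs]
    refine h1 _ _ ?_
    rw [hv, ExP_sa l ⟨s, hs'⟩]
    simp only
    split_ifs <;> omega

theorem pw_orth {a : Bil H} (ha : ∀ u, a u u = 0) (hJ : ∀ u v, a (Complex.I • u) (Complex.I • v) = a u v)
    {k : ℕ} (f : Fin k → H) (h1 : ∀ i j, i ≠ j → a (f i) (f j) = 0)
    (h2 : ∀ i j, i ≠ j → a (f i) (Complex.I • f j) = 0) :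
    pw a k (dbl f) = 2 ^ k * (k.factorial : ℝ) * ∏ i, a (f i) (Complex.I • f i) := by
  induction k with
  | zero => simp [pw]
  | succ k ih =>
    obtain ⟨g, hg⟩ : ∃ g : Fin (2 * k + 2) → H, g = dbl (m := k + 1) f := ⟨_, rfl⟩
    have g0 : ∀ (i : Fin (2 * k + 2)) (l : Fin (k + 1)), i.1 = 2 * l.1 → g i = f l := by
      intro i l hi
      rw [hg]
      exact ExP_dbl0 f _ l hi
    have g1 : ∀ (i : Fin (2 * k + 2)) (l : Fin (k + 1)), i.1 = 2 * l.1 + 1 → g i = Complex.I • f l := by
      intro i l hi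
      rw [hg]
      exact ExP_dbl1 f _ l hi
    have hz : ∀ i i' : Fin (2 * k + 2), i.1 / 2 ≠ i'.1 / 2 → a (g i) (g i') = 0 := by
      intro i i' hne
      have hi := i.2
      have hi' := i'.2
      rcases Nat.even_or_odd' i.1 with ⟨s, hs | hs⟩
      · rcases Nat.even_or_odd' i'.1 with ⟨t, ht | ht⟩
        · rw [g0 i ⟨s, by omega⟩ hs, g0 i' ⟨t, by omega⟩ ht]
          exact h1 _ _ (by intro h; apply hne; have := congrArg Fin.val h; simp at this; omega)
        · rw [g0 i ⟨s, by omega⟩ hs, g1 i' ⟨t, by omega⟩ ht]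
          exact h2 _ _ (by intro h; apply hne; have := congrArg Fin.val h; simp at this; omega)
      · rcases Nat.even_or_odd' i'.1 with ⟨t, ht | ht⟩
        · rw [g1 i ⟨s, by omega⟩ hs, g0 i' ⟨t, by omega⟩ ht, ExP_I hJ]
          rw [h2 _ _ (by intro h; apply hne; have := congrArg Fin.val h; simp at this; omega)]
          simp
        · rw [g1 i ⟨s, by omega⟩ hs, g1 i' ⟨t, by omega⟩ ht, hJ]
          exact h1 _ _ (by intro h; apply hne; have := congrArg Fin.val h; simp at this; omega)
    have hterm : ∀ i : Fin (2 * k + 2), (∑ j : Fin (2 * k + 1), (-1 : ℝ) ^ (i : ℕ) * ((-1 : ℝ) ^ (j : ℕ) *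
        (a (g i) (i.removeNth g j) * pw a k (j.removeNth (i.removeNth g))))) =
        2 ^ k * (k.factorial : ℝ) * ∏ i, a (f i) (Complex.I • f i) := by
      intro i
      have hi := i.2
      obtain ⟨l, hl⟩ : ∃ l : Fin (k + 1), l.1 = i.1 / 2 := ⟨⟨i.1 / 2, by omega⟩, rfl⟩
      obtain ⟨j0, hj0⟩ : ∃ j0 : Fin (2 * k + 1), j0.1 = 2 * l.1 := ⟨⟨2 * l.1, by omega⟩, rfl⟩
      rw [Finset.sum_eq_single j0]
      · rw [ExP_rem f g g0 g1 i j0 l hl hj0]
        rw [ih (fun t : Fin k => f (l.succAbove t))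
          (fun s t hst => h1 _ _ (fun h => hst (Fin.succAbove_right_injective h)))
          (fun s t hst => h2 _ _ (fun h => hst (Fin.succAbove_right_injective h)))]
        rw [Fin.prod_univ_succAbove _ l]
        have hv := ExP_sa i j0
        show (-1 : ℝ) ^ (i : ℕ) * ((-1 : ℝ) ^ (j0 : ℕ) * (a (g i) (g (i.succAbove j0)) * _)) = _
        rcases Nat.even_or_odd' i.1 with ⟨s, hs | hs⟩
        · have hsl : s = l.1 := by omega
          rw [if_neg (by omega)] at hv
          rw [g0 i l (by omega), g1 (i.succAbove j0) l (by omega), hj0, hs, hsl, pow_mul]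
          simp only [even_two, Even.neg_pow, one_pow, one_mul]
          ring
        · have hsl : s = l.1 := by omega
          rw [if_pos (by omega)] at hv
          rw [g1 i l (by omega), g0 (i.succAbove j0) l (by omega), hj0, hs, hsl, ExP_I hJ, pow_succ, pow_mul]
          simp only [even_two, Even.neg_pow, one_pow, one_mul]
          ring
      · intro j _ hj
        have hv := ExP_sa i j
        have hne : j.1 ≠ j0.1 := fun h => hj (Fin.ext h)
        have : a (g i) (i.removeNth g j) = 0 := by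
          refine hz _ _ ?_
          rw [hv]
          split_ifs <;> omega
        rw [this]
        ring
      · intro h
        exact absurd (Finset.mem_univ _) h
    have hw : pw a (k + 1) (dbl f) = w2 a (pw a k) g := by
      rw [hg]
      rfl
    rw [hw, w2_apply, Finset.sum_congr rfl (fun i _ => hterm i), Finset.sum_const, Finset.card_univ,
      Fintype.card_fin, nsmul_eq_mul, Nat.factorial_succ]
    push_cast
    ring

/-- the Hermitian form -/
private def ExP_h (a : Bil H) (u w : H) : ℂ := ⟨a u (Complex.I • w), a u w⟩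

private theorem ExP_smul (c : ℂ) (u : H) : c • u = c.re • u + c.im • (Complex.I • u) := by
  conv_lhs => rw [← Complex.re_add_im c, add_smul, mul_smul]
  rfl

private theorem ExP_lin (l : H →L[ℝ] ℝ) (x y : ℝ) (p q : H) : l (x • p + y • q) = x * l p + y * l q := by
  rw [map_add, map_smul, map_smul]
  rfl

private theorem ExP_h_smul_right (a : Bil H) (c : ℂ) (u w : H) : ExP_h a u (c • w) = c * ExP_h a u w := by
  have h1 : Complex.I • c • w = c • Complex.I • w := by rw [smul_smul, smul_smul, mul_comm]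
  have h2 : Complex.I • Complex.I • w = -w := by rw [smul_smul, Complex.I_mul_I, neg_smul, one_smul]
  apply Complex.ext
  · show a u (Complex.I • c • w) = (c * ExP_h a u w).re
    rw [h1, ExP_smul c (Complex.I • w), h2, ExP_lin, map_neg, Complex.mul_re]
    show c.re * a u (Complex.I • w) + c.im * (- a u w) = c.re * a u (Complex.I • w) - c.im * a u w
    ring
  · show a u (c • w) = (c * ExP_h a u w).im
    rw [ExP_smul c w, ExP_lin, Complex.mul_im]
    show c.re * a u w + c.im * (a u (Complex.I • w)) = c.re * a u w + c.im * a u (Complex.I • w)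
    ring

private theorem ExP_h_smul_left {a : Bil H} (hJ : ∀ u v, a (Complex.I • u) (Complex.I • v) = a u v) (c : ℂ)
    (u w : H) : ExP_h a (c • u) w = star c * ExP_h a u w := by
  have h0 : ∀ x : H, a (c • u) x = c.re * a u x + c.im * a (Complex.I • u) x := by
    intro x
    rw [ExP_smul c u, map_add, map_smul, map_smul]
    rfl
  apply Complex.ext
  · show a (c • u) (Complex.I • w) = (star c * ExP_h a u w).re
    rw [h0, hJ, Complex.mul_re]
    show _ = c.re * a u (Complex.I • w) - (-c.im) * a u w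
    ring
  · show a (c • u) w = (star c * ExP_h a u w).im
    rw [h0, ExP_I hJ, Complex.mul_im]
    show _ = c.re * a u w + (-c.im) * a u (Complex.I • w)
    ring

private theorem ExP_h_sum_right (a : Bil H) {ι : Type*} (s : Finset ι) (u : H) (f : ι → H) :
    ExP_h a u (∑ i ∈ s, f i) = ∑ i ∈ s, ExP_h a u (f i) := by
  apply Complex.ext
  · rw [Complex.re_sum]
    show a u (Complex.I • ∑ i ∈ s, f i) = _
    rw [Finset.smul_sum, _root_.map_sum]
    rfl
  · rw [Complex.im_sum]
    show a u (∑ i ∈ s, f i) = _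
    rw [_root_.map_sum]
    rfl

private theorem ExP_h_sum_left (a : Bil H) {ι : Type*} (s : Finset ι) (f : ι → H) (w : H) :
    ExP_h a (∑ i ∈ s, f i) w = ∑ i ∈ s, ExP_h a (f i) w := by
  have h0 : ∀ x : H, a (∑ i ∈ s, f i) x = ∑ i ∈ s, a (f i) x := by
    intro x
    rw [_root_.map_sum, _root_.sum_apply]
  apply Complex.ext
  · rw [Complex.re_sum]
    exact h0 _
  · rw [Complex.im_sum]
    exact h0 _

private theorem ExP_h_conj {a : Bil H} (ha : ∀ u, a u u = 0)
    (hJ : ∀ u v, a (Complex.I • u) (Complex.I • v) = a u v) (u w : H) :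
    star (ExP_h a w u) = ExP_h a u w := by
  apply Complex.ext
  · show a w (Complex.I • u) = a u (Complex.I • w)
    rw [ExP_anti ha w (Complex.I • u), ExP_I hJ]
    ring
  · show -(a w u) = a u w
    rw [ExP_anti ha u w]

open Matrix in
private theorem ExP_h_LL {a : Bil H} (hJ : ∀ u v, a (Complex.I • u) (Complex.I • v) = a u v) {k : ℕ}
    (v : Fin k → H) (x y : Fin k → ℂ) :
    ExP_h a (∑ p, x p • v p) (∑ q, y q • v q) =
      star x ⬝ᵥ ((Matrix.of fun p q => ExP_h a (v p) (v q)) *ᵥ y) := by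
  rw [ExP_h_sum_left]
  unfold dotProduct
  refine Finset.sum_congr rfl fun p _ => ?_
  rw [ExP_h_smul_left hJ, ExP_h_sum_right]
  show star (x p) * _ = star (x p) * ∑ q, ExP_h a (v p) (v q) * y q
  congr 1
  refine Finset.sum_congr rfl fun q _ => ?_
  rw [ExP_h_smul_right]
  ring

private theorem ExP_dbl_map {k : ℕ} (T : (Fin k → ℂ) → H) (hT : ∀ x, T (Complex.I • x) = Complex.I • T x) :
    (fun j => T (fr k j)) = dbl fun i => T (Pi.single i 1) := by
  funext j
  unfold fr dbl
  split_ifs
  · rfl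
  · exact hT _

open scoped ComplexOrder in
open Matrix in
private theorem ExP_key {a : Bil H} (ha : ∀ u, a u u = 0)
    (hJ : ∀ u v, a (Complex.I • u) (Complex.I • v) = a u v) {k : ℕ} (v : Fin k → H) :
    ∃ (lam : Fin k → ℝ) (U : Matrix (Fin k) (Fin k) ℂ) (d : ℝ), 0 < d ∧
      d * pw a k (dbl v) = 2 ^ k * (k.factorial : ℝ) * ∏ i, lam i ∧ star U * U = 1 ∧
      (∀ i, lam i = a (∑ p, U p i • v p) (Complex.I • ∑ p, U p i • v p)) ∧
      ((∀ i, 0 < lam i) → ∀ c : Fin k → ℂ, c ≠ 0 →
        0 < a (∑ i, c i • v i) (Complex.I • ∑ i, c i • v i)) := by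
  obtain ⟨A, hAd⟩ : ∃ A : Matrix (Fin k) (Fin k) ℂ, A = Matrix.of fun p q => ExP_h a (v p) (v q) := ⟨_, rfl⟩
  have hA : A.IsHermitian := by
    refine Matrix.IsHermitian.ext fun i j => ?_
    rw [hAd]
    exact ExP_h_conj ha hJ (v i) (v j)
  have hLL : ∀ x y : Fin k → ℂ, ExP_h a (∑ p, x p • v p) (∑ q, y q • v q) = star x ⬝ᵥ (A *ᵥ y) := by
    intro x y
    rw [hAd]
    exact ExP_h_LL hJ v x y
  obtain ⟨U, hU⟩ : ∃ U : Matrix (Fin k) (Fin k) ℂ, U = (hA.eigenvectorUnitary : Matrix (Fin k) (Fin k) ℂ) :=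
    ⟨_, rfl⟩
  have hUU : star U * U = 1 := by
    rw [hU]
    exact Unitary.coe_star_mul_self _
  have hcol : ∀ p i, U p i = (hA.eigenvectorBasis i) p := by
    intro p i
    rw [hU]
    rfl
  have hf : ∀ i j, ExP_h a (∑ p, U p i • v p) (∑ p, U p j • v p) =
      if i = j then (hA.eigenvalues i : ℂ) else 0 := by
    intro i j
    rw [hLL]
    have e1 : A *ᵥ (fun p => U p j) = (hA.eigenvalues j) • (fun p => U p j) := by
      have := hA.mulVec_eigenvectorBasis j
      have e : (fun p => U p j) = ⇑(hA.eigenvectorBasis j) := funext fun p => hcol p j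
      rw [e]
      exact this
    have e2 : star (fun p => U p i) ⬝ᵥ (fun p => U p j) = (1 : Matrix (Fin k) (Fin k) ℂ) i j := by
      rw [← hUU]
      rfl
    rw [e1, dotProduct_smul, e2, Matrix.one_apply]
    split_ifs with hij
    · subst hij
      simp
    · simp
  have hre : ∀ i, hA.eigenvalues i = a (∑ p, U p i • v p) (Complex.I • ∑ p, U p i • v p) := by
    intro i
    have h := congrArg Complex.re (hf i i)
    rw [if_pos rfl, Complex.ofReal_re] at h
    exact h.symm
  have hLI : ∀ x : Fin k → ℂ, (∑ p, (Complex.I • x) p • v p) = Complex.I • ∑ p, x p • v p := by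
    intro x
    rw [Finset.smul_sum]
    refine Finset.sum_congr rfl fun p _ => ?_
    rw [Pi.smul_apply, smul_assoc]
  have hRI : ∀ x : Fin k → ℂ, U *ᵥ (Complex.I • x) = Complex.I • (U *ᵥ x) := fun x => Matrix.mulVec_smul U _ x
  obtain ⟨L, hL⟩ : ∃ L : (Fin k → ℂ) →L[ℝ] H, ∀ x, L x = ∑ p, x p • v p := by
    refine ⟨(LinearMap.toContinuousLinearMap (Fintype.linearCombination ℂ v)).restrictScalars ℝ, fun x => ?_⟩
    show Fintype.linearCombination ℂ v x = _
    rw [Fintype.linearCombination_apply]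
  obtain ⟨R, hR⟩ : ∃ R : (Fin k → ℂ) →L[ℝ] (Fin k → ℂ), ∀ x, R x = U *ᵥ x := by
    refine ⟨(LinearMap.toContinuousLinearMap (Matrix.mulVecLin U)).restrictScalars ℝ, fun x => ?_⟩
    rfl
  have hinj : Function.Injective R := by
    intro x y hxy
    rw [hR, hR] at hxy
    have h := congrArg (fun z => star U *ᵥ z) hxy
    simp only [Matrix.mulVec_mulVec] at h
    rw [hUU, Matrix.one_mulVec, Matrix.one_mulVec] at h
    exact h
  have hd : 0 < R.det := by
    refine det_pos_cplx R (fun x => ?_) hinj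
    rw [hR, hR]
    exact hRI x
  refine ⟨hA.eigenvalues, U, R.det, hd, ?_, hUU, hre, ?_⟩
  · have e1 : dbl v = fun j => L (fr k j) := by
      rw [ExP_dbl_map (fun x => L x) (fun x => by
        show L (Complex.I • x) = Complex.I • L x
        rw [hL, hL]
        exact hLI x)]
      congr 1
      funext i
      show v i = L (Pi.single i 1)
      rw [hL, Finset.sum_eq_single i]
      · simp
      · intro p _ hp
        simp [Pi.single_eq_of_ne hp]
      · intro h
        exact absurd (Finset.mem_univ _) h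
    have e2 : (dbl fun i => ∑ p, U p i • v p) = fun j => L (R (fr k j)) := by
      rw [ExP_dbl_map (fun x => L (R x)) (fun x => by
        show L (R (Complex.I • x)) = Complex.I • L (R x)
        rw [hR, hR, hRI, hL, hL]
        exact hLI _)]
      congr 1
      funext i
      show _ = L (R (Pi.single i 1))
      rw [hL, hR, Matrix.mulVec_single_one]
      rfl
    have e3 := pw_orth ha hJ (fun i => ∑ p, U p i • v p)
      (fun i j hij => by
        have h := congrArg Complex.im (hf i j)
        rw [if_neg hij] at h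
        exact h)
      (fun i j hij => by
        have h := congrArg Complex.re (hf i j)
        rw [if_neg hij] at h
        exact h)
    have e4 := pw_comp_apply a k L (fun j => R (fr k j))
    have e5 := pw_comp_apply a k L (fr k)
    have e6 := alt_det (pw (a.bilinearComp L L) k) R
    rw [e1, ← e5, ← e6, e4, ← e2, e3]
    congr 1
    exact Finset.prod_congr rfl fun i _ => (hre i).symm
  · intro hpos c hc
    have hP : A.PosDef := hA.posDef_iff_eigenvalues_pos.2 hpos
    have h1 := hP.re_dotProduct_pos hc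
    rw [← hLL] at h1
    exact h1

theorem pw_nonneg {a : Bil H} (ha : ∀ u, a u u = 0) (hJ : ∀ u v, a (Complex.I • u) (Complex.I • v) = a u v)
    (hp : ∀ v, 0 ≤ a v (Complex.I • v)) {k : ℕ} (v : Fin k → H) : 0 ≤ pw a k (dbl v) := by
  obtain ⟨lam, U, d, hd, h, -, hl, -⟩ := ExP_key ha hJ v
  have h1 : 0 ≤ d * pw a k (dbl v) := by
    rw [h]
    refine mul_nonneg (by positivity) (Finset.prod_nonneg fun i _ => ?_)
    rw [hl i]
    exact hp _
  exact nonneg_of_mul_nonneg_right h1 hd

theorem pw_pos {a : Bil H} (ha : ∀ u, a u u = 0) (hJ : ∀ u v, a (Complex.I • u) (Complex.I • v) = a u v)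
    (hp : ∀ v, v ≠ 0 → 0 < a v (Complex.I • v)) {k : ℕ} (v : Fin k → H) (hv : LinearIndependent ℂ v) :
    0 < pw a k (dbl v) := by
  obtain ⟨lam, U, d, hd, h, hU, hl, -⟩ := ExP_key ha hJ v
  have h1 : 0 < d * pw a k (dbl v) := by
    rw [h]
    refine mul_pos (by positivity) (Finset.prod_pos fun i _ => ?_)
    rw [hl i]
    refine hp _ fun h0 => ?_
    have h2 := Fintype.linearIndependent_iff.1 hv (fun p => U p i) h0
    have h3 : (star U * U) i i = 0 := by
      rw [Matrix.mul_apply]
      exact Finset.sum_eq_zero fun p _ => by rw [h2 p, mul_zero]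
    rw [hU, Matrix.one_apply_eq] at h3
    exact one_ne_zero h3
  exact (mul_pos_iff_of_pos_left hd).1 h1

theorem pos_of_pw {a : Bil H} (ha : ∀ u, a u u = 0) (hJ : ∀ u v, a (Complex.I • u) (Complex.I • v) = a u v)
    (hp : ∀ v, 0 ≤ a v (Complex.I • v)) {k : ℕ} (v : Fin k → H) (h : 0 < pw a k (dbl v))
    (c : Fin k → ℂ) (hc : c ≠ 0) : 0 < a (∑ i, c i • v i) (Complex.I • ∑ i, c i • v i) := by
  obtain ⟨lam, U, d, hd, h1, hU, hl, hpos⟩ := ExP_key ha hJ v
  refine hpos (fun i => ?_) c hc
  have h2 : 0 ≤ lam i := by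
    rw [hl i]
    exact hp _
  refine lt_of_le_of_ne h2 fun h0 => ?_
  have h3 : ∏ i, lam i = 0 := Finset.prod_eq_zero (Finset.mem_univ i) h0.symm
  rw [h3, mul_zero] at h1
  have h4 := mul_pos hd h
  rw [h1] at h4
  exact lt_irrefl _ h4

end Pool.Agent.FBN
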