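import Pool.Agent.FBN.Defs

/-!
# FBN/JInt: integration of a smooth function with compact support over `G × (Fin m → ℂ) → G`

PROOF PLAN.  The same statements for `ℂ` instead of `Fin m → ℂ` are proved in `Pool/Agent/FBR/JInt.lean`: adapt that file
(the only property used is that `Fin m → ℂ` is a finite dimensional real normed space with an additive Haar measure).
-/

set_option autoImplicit false

noncomputable section

open scoped ContDiff

open MeasureTheory

namespace Pool.Agent.FBN

open Pool.Agent.FBR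

variable {G : Type*} [NormedAddCommGroup G] [NormedSpace ℝ G] [FiniteDimensional ℝ G]
  {V : Type*} [NormedAddCommGroup V] [NormedSpace ℝ V] [CompleteSpace V] {m : ℕ}

private theorem JInt_sec {W : Type*} [NormedAddCommGroup W] {f : G × (Fin m → ℂ) → W} (hc : HasCompactSupport f) (y : G) :
    HasCompactSupport (fun w : Fin m → ℂ => f (y, w)) := by
  refine HasCompactSupport.intro (hc.isCompact.image continuous_snd) fun w hw => ?_
  by_contra h
  exact hw ⟨(y, w), subset_tsupport f h, rfl⟩

theorem J_integrable {f : G × (Fin m → ℂ) → V} (hf : Continuous f) (hc : HasCompactSupport f) (y : G) :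
    Integrable (fun z : Fin m → ℂ => f (y, z)) := by
  have h1 : Continuous (fun w : Fin m → ℂ => f (y, w)) := hf.comp (by fun_prop)
  exact h1.integrable_of_hasCompactSupport (JInt_sec hc y)

theorem J_smooth {f : G × (Fin m → ℂ) → V} (hf : ContDiff ℝ ∞ f) (hc : HasCompactSupport f) :
    ContDiff ℝ ∞ (JK f) := by
  have hk : IsCompact ((fun q : G × (Fin m → ℂ) => -q.2) '' tsupport f) := hc.isCompact.image (by fun_prop)
  have hg : ContDiffOn ℝ ((⊤ : ℕ∞) : WithTop ℕ∞) (↿(fun (y : G) (w : Fin m → ℂ) => f (y, -w))) ((Set.univ : Set G) ×ˢ Set.univ) := by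
    have h1 : ContDiff ℝ ∞ (fun q : G × (Fin m → ℂ) => f (q.1, -q.2)) := hf.comp (by fun_prop)
    exact h1.contDiffOn
  have h2 := contDiffOn_convolution_right_with_param (μ := (volume : Measure (Fin m → ℂ))) (n := ⊤) (ContinuousLinearMap.lsmul ℝ ℝ (E := V))
    (f := fun _ : Fin m → ℂ => (1 : ℝ)) (g := fun (y : G) (w : Fin m → ℂ) => f (y, -w)) (s := Set.univ)
    (k := (fun q : G × (Fin m → ℂ) => -q.2) '' tsupport f) isOpen_univ hk
    (fun y w _ hw => by
      by_contra h
      exact hw ⟨(y, -w), subset_tsupport f h, by simp⟩)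
    (locallyIntegrable_const 1) hg
  rw [Set.univ_prod_univ, contDiffOn_univ] at h2
  have h3 : JK f = (fun q : G × (Fin m → ℂ) => (convolution (fun _ : Fin m → ℂ => (1 : ℝ)) (fun w : Fin m → ℂ => f (q.1, -w))
      (ContinuousLinearMap.lsmul ℝ ℝ (E := V)) volume) q.2) ∘ (fun y : G => (y, (0 : Fin m → ℂ))) := by
    funext y
    simp only [JK, Function.comp_apply, convolution, ContinuousLinearMap.lsmul_apply, one_smul, zero_sub, neg_neg]
  rw [h3]
  exact h2.comp (by fun_prop)

/-- the support of `JK f` is contained in the compact projection of the support of `f` -/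
theorem J_support {f : G × (Fin m → ℂ) → V} (hc : HasCompactSupport f) :
    tsupport (JK f) ⊆ Prod.fst '' tsupport f := by
  have h1 : IsClosed (Prod.fst '' tsupport f) := (hc.isCompact.image continuous_fst).isClosed
  refine closure_minimal (fun y hy => ?_) h1
  by_contra h
  apply hy
  have h2 : ∀ w : Fin m → ℂ, f (y, w) = 0 := by
    intro w
    by_contra h3
    exact h ⟨(y, w), subset_tsupport f h3, rfl⟩
  simp only [JK, h2, integral_zero]

theorem J_compact {f : G × (Fin m → ℂ) → V} (hc : HasCompactSupport f) : HasCompactSupport (JK f) :=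
  (hc.isCompact.image continuous_fst).of_isClosed_subset (isClosed_tsupport _) (J_support hc)

private theorem JInt_hasFDerivAt {f : G × (Fin m → ℂ) → V} (hf : ContDiff ℝ ∞ f) (hc : HasCompactSupport f) (y : G) :
    HasFDerivAt (JK f) (∫ w : Fin m → ℂ, (fderiv ℝ f (y, w)).comp (ContinuousLinearMap.inl ℝ G (Fin m → ℂ))) y := by
  have hd : Continuous (fun q : G × (Fin m → ℂ) => (fderiv ℝ f q).comp (ContinuousLinearMap.inl ℝ G (Fin m → ℂ))) := by
    have h1 : Continuous (fderiv ℝ f) := hf.continuous_fderiv (by simp)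
    exact h1.clm_comp continuous_const
  have hdc : HasCompactSupport (fun q : G × (Fin m → ℂ) => (fderiv ℝ f q).comp (ContinuousLinearMap.inl ℝ G (Fin m → ℂ))) := by
    refine HasCompactSupport.intro hc.isCompact fun q hq => ?_
    have h1 : fderiv ℝ f q = 0 := by
      by_contra h
      exact hq (tsupport_fderiv_subset ℝ (subset_tsupport _ h))
    rw [h1, ContinuousLinearMap.zero_comp]
  obtain ⟨C, hC⟩ := hd.bounded_above_of_compact_support hdc
  set K : Set (Fin m → ℂ) := Prod.snd '' tsupport f with hK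
  have hKc : IsCompact K := hc.isCompact.image continuous_snd
  have hC0 : 0 ≤ C := le_trans (norm_nonneg _) (hC (y, 0))
  refine hasFDerivAt_integral_of_dominated_of_fderiv_le (μ := (volume : Measure (Fin m → ℂ))) (s := Set.univ)
    (F := fun y w => f (y, w)) (F' := fun y w => (fderiv ℝ f (y, w)).comp (ContinuousLinearMap.inl ℝ G (Fin m → ℂ)))
    (bound := K.indicator fun _ => C) Filter.univ_mem ?_ (J_integrable hf.continuous hc y) ?_ ?_ ?_ ?_
  · exact Filter.Eventually.of_forall fun x => (J_integrable hf.continuous hc x).aestronglyMeasurable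
  · exact (hd.comp (by fun_prop : Continuous (fun w : Fin m → ℂ => (y, w)))).aestronglyMeasurable
  · refine Filter.Eventually.of_forall fun w x _ => ?_
    by_cases hw : w ∈ K
    · rw [Set.indicator_of_mem hw]
      exact hC (x, w)
    · rw [Set.indicator_of_notMem hw]
      have h1 : (fderiv ℝ f (x, w)).comp (ContinuousLinearMap.inl ℝ G (Fin m → ℂ)) = 0 := by
        have h2 : fderiv ℝ f (x, w) = 0 := by
          by_contra h
          exact hw ⟨(x, w), tsupport_fderiv_subset ℝ (subset_tsupport _ h), rfl⟩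
        rw [h2, ContinuousLinearMap.zero_comp]
      rw [h1, norm_zero]
  · refine (integrable_indicator_iff hKc.measurableSet).2 ?_
    exact integrableOn_const (hs := hKc.measure_lt_top.ne)
  · refine Filter.Eventually.of_forall fun w x _ => ?_
    have h1 : HasFDerivAt f (fderiv ℝ f (x, w)) (x, w) := (hf.differentiable (by simp) _).hasFDerivAt
    have h2 : HasFDerivAt (fun x : G => (x, w)) (ContinuousLinearMap.inl ℝ G (Fin m → ℂ)) x :=
      hasFDerivAt_prodMk_left x w
    exact h1.comp x h2

private theorem JInt_clm {f : G × (Fin m → ℂ) → V} (hf : ContDiff ℝ ∞ f) (hc : HasCompactSupport f) (y : G) :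
    Integrable (fun w : Fin m → ℂ => fderiv ℝ f (y, w)) := by
  have h1 : Continuous (fderiv ℝ f) := hf.continuous_fderiv (by simp)
  have h2 : HasCompactSupport (fderiv ℝ f) := hc.fderiv ℝ
  have h3 : Continuous (fun w : Fin m → ℂ => fderiv ℝ f (y, w)) := h1.comp (by fun_prop)
  exact h3.integrable_of_hasCompactSupport (JInt_sec h2 y)

theorem J_fderiv {f : G × (Fin m → ℂ) → V} (hf : ContDiff ℝ ∞ f) (hc : HasCompactSupport f) (y u : G) :
    fderiv ℝ (JK f) y u = ∫ z : Fin m → ℂ, fderiv ℝ f (y, z) (u, 0) := by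
  rw [(JInt_hasFDerivAt hf hc y).fderiv]
  have h1 : Integrable (fun w : Fin m → ℂ => (fderiv ℝ f (y, w)).comp (ContinuousLinearMap.inl ℝ G (Fin m → ℂ))) := by
    have h2 := (JInt_clm hf hc y)
    exact ((ContinuousLinearMap.compL ℝ G (G × (Fin m → ℂ)) V).flip (ContinuousLinearMap.inl ℝ G (Fin m → ℂ))).integrable_comp h2
  rw [ContinuousLinearMap.integral_apply h1]
  simp only [ContinuousLinearMap.comp_apply, ContinuousLinearMap.inl_apply]

theorem J_fderiv_integrable {f : G × (Fin m → ℂ) → V} (hf : ContDiff ℝ ∞ f) (hc : HasCompactSupport f) (y : G)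
    (v : G × (Fin m → ℂ)) : Integrable (fun z : Fin m → ℂ => fderiv ℝ f (y, z) v) :=
  (ContinuousLinearMap.apply ℝ V v).integrable_comp (JInt_clm hf hc y)

theorem J_vert {f : G × (Fin m → ℂ) → V} (hf : ContDiff ℝ ∞ f) (hc : HasCompactSupport f) (y : G)
    (v : Fin m → ℂ) : ∫ z : Fin m → ℂ, fderiv ℝ f (y, z) (0, v) = 0 := by
  have hfd : ∀ w : Fin m → ℂ, HasFDerivAt (fun w : Fin m → ℂ => f (y, w))
      ((fderiv ℝ f (y, w)).comp (ContinuousLinearMap.inr ℝ G (Fin m → ℂ))) w := by
    intro w
    have h1 : HasFDerivAt f (fderiv ℝ f (y, w)) (y, w) := (hf.differentiable (by simp) _).hasFDerivAt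
    exact h1.comp w (hasFDerivAt_prodMk_right y w)
  have h2 := integral_bilinear_hasFDerivAt_right_eq_neg_left_of_integrable (μ := (volume : Measure (Fin m → ℂ)))
    (B := ContinuousLinearMap.lsmul ℝ ℝ (E := V)) (f := fun _ : Fin m → ℂ => (1 : ℝ)) (f' := fun _ => 0)
    (g := fun w : Fin m → ℂ => f (y, w)) (g' := fun w => (fderiv ℝ f (y, w)).comp (ContinuousLinearMap.inr ℝ G (Fin m → ℂ))) (v := v)
    (by simp)
    (by
      have h3 := J_fderiv_integrable hf hc y (0, v)
      simpa [ContinuousLinearMap.lsmul_apply] using h3)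
    (by
      have h3 := J_integrable hf.continuous hc y
      simpa [ContinuousLinearMap.lsmul_apply] using h3)
    (fun w _ => hasFDerivAt_const 1 w) (fun w _ => hfd w)
  simpa [ContinuousLinearMap.lsmul_apply] using h2

end Pool.Agent.FBN
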