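import Pool.Agent.FBN.Prod
import Pool.Agent.FBN.JInt
import Pool.Agent.FBR.SmFn

/-!
# FBN/Push: product charts, smooth functions and supports, fibres of dimension `m`

PROOF PLAN.  The same statements for fibres of dimension one are proved in `Pool/Agent/FBR/Push.lean`: adapt that file.
-/

set_option autoImplicit false

noncomputable section

open scoped Manifold ContDiff Classical

namespace Pool.Agent.FBN

open Pool.Agent.FBR

variable {E X : Type*} [NormedAddCommGroup E] [NormedSpace ℂ E] [FiniteDimensional ℂ E]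
  [TopologicalSpace X] [ChartedSpace E X] [IsManifold 𝓘(ℂ, E) ω X] [CompactSpace X] [T2Space X]
  {F B : Type*} [NormedAddCommGroup F] [NormedSpace ℂ F] [FiniteDimensional ℂ F] [TopologicalSpace B]
  [ChartedSpace F B] [IsManifold 𝓘(ℂ, F) ω B] {π : X → B} {m : ℕ}
  {V : Type*} [NormedAddCommGroup V] [NormedSpace ℝ V]

theorem exists_FD (h : Fibn E F π m) : Nonempty (FD E F π m) := by
  choose P _ hP using fun x : X => exists_PC (E := E) (F := F) h x
  obtain ⟨n, c, χ, h1, h2, h3, h4⟩ := pou (E := E) (fun x => (P x).Ψ '' (P x).O)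
    (fun x => (P x).isOpen_im (P x).isOpen (Set.Subset.refl _)) hP
  exact ⟨{ n := n
           P := fun i => P (c i)
           χ := χ
           sm := h1
           nonneg := h2
           supp := h3
           sum := h4 }⟩

omit [T2Space X] in
private theorem Push_compact (P : PC E F π m) {χ : X → ℝ} (hs : tsupport χ ⊆ P.Ψ '' P.O) :
    IsCompact {q | q ∈ P.O ∧ P.Ψ q ∈ tsupport χ} :=
  P.isCompact_preim (isClosed_tsupport χ).isCompact hs

omit [FiniteDimensional ℂ E] [IsManifold 𝓘(ℂ, E) ω X] [CompactSpace X] [T2Space X] [FiniteDimensional ℂ F]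
  [IsManifold 𝓘(ℂ, F) ω B] in
private theorem Push_support (P : PC E F π m) (χ : X → ℝ) (f : F × (Fin m → ℂ) → V) :
    Function.support (P.O.indicator fun q => χ (P.Ψ q) • f q) ⊆ {q | q ∈ P.O ∧ P.Ψ q ∈ tsupport χ} := by
  intro q hq
  by_contra hcon
  apply hq
  by_cases hO : q ∈ P.O
  · have h1 : P.Ψ q ∉ tsupport χ := fun h => hcon ⟨hO, h⟩
    rw [Set.indicator_of_mem hO, image_eq_zero_of_notMem_tsupport h1, zero_smul]
  · exact Set.indicator_of_notMem hO _

private theorem Push_tsupport (P : PC E F π m) {χ : X → ℝ} (hs : tsupport χ ⊆ P.Ψ '' P.O) (f : F × (Fin m → ℂ) → V) :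
    tsupport (P.O.indicator fun q => χ (P.Ψ q) • f q) ⊆ {q | q ∈ P.O ∧ P.Ψ q ∈ tsupport χ} :=
  closure_minimal (Push_support P χ f) (Push_compact P hs).isClosed

theorem cut_smooth (P : PC E F π m) {χ : X → ℝ} (hχ : SmF E χ) (hs : tsupport χ ⊆ P.Ψ '' P.O)
    {f : F × (Fin m → ℂ) → V} (hf : ContDiffOn ℝ ∞ f P.O) :
    ContDiff ℝ ∞ (P.O.indicator fun q => χ (P.Ψ q) • f q) := by
  rw [contDiff_iff_contDiffAt]
  intro q
  by_cases hq : q ∈ P.O
  · have h1 : ContDiffAt ℝ ∞ (χ ∘ P.Ψ) q := hχ.at (P.hol q hq).sm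
    have h2 : ContDiffAt ℝ ∞ f q := hf.contDiffAt (P.isOpen.mem_nhds hq)
    have h3 : ContDiffAt ℝ ∞ (fun q => χ (P.Ψ q) • f q) q := h1.smul h2
    refine h3.congr_of_eventuallyEq ?_
    filter_upwards [P.isOpen.mem_nhds hq] with z hz
    exact Set.indicator_of_mem hz _
  · have h1 : q ∉ tsupport (P.O.indicator fun q => χ (P.Ψ q) • f q) :=
      fun h => hq (Push_tsupport P hs f h).1
    have h2 := notMem_tsupport_iff_eventuallyEq.1 h1
    exact (contDiffAt_const (c := (0 : V))).congr_of_eventuallyEq h2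

theorem cut_compact (P : PC E F π m) {χ : X → ℝ} (hs : tsupport χ ⊆ P.Ψ '' P.O) (f : F × (Fin m → ℂ) → V) :
    HasCompactSupport (P.O.indicator fun q => χ (P.Ψ q) • f q) :=
  (Push_compact P hs).of_isClosed_subset (isClosed_tsupport _) (Push_tsupport P hs f)

theorem cut_tsupport (P : PC E F π m) {χ : X → ℝ} (hs : tsupport χ ⊆ P.Ψ '' P.O) (f : F × (Fin m → ℂ) → V) :
    tsupport (P.O.indicator fun q => χ (P.Ψ q) • f q) ⊆ P.O :=
  fun _ hq => (Push_tsupport P hs f hq).1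

/-- the projection of the support lies in the target of the chart -/
theorem cut_J_tsupport (P : PC E F π m) {χ : X → ℝ} (hs : tsupport χ ⊆ P.Ψ '' P.O) (f : F × (Fin m → ℂ) → V) :
    tsupport (JK (P.O.indicator fun q => χ (P.Ψ q) • f q)) ⊆ (chartAt F P.c).target := by
  by_cases hV : CompleteSpace V
  · intro y hy
    obtain ⟨q, hq, rfl⟩ := J_support (cut_compact P hs f) hy
    exact P.mem q (cut_tsupport P hs f hq)
  · have h0 : JK (P.O.indicator fun q => χ (P.Ψ q) • f q) = 0 := by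
      funext y
      unfold JK
      exact MeasureTheory.integral_of_not_completeSpace hV
    rw [h0]
    intro y hy
    simp [tsupport] at hy

/-- functions in a product chart as functions on `X` -/
theorem exists_push (h : Fibn E F π m) (P : PC E F π m) {f : F × (Fin m → ℂ) → ℝ} (hf : ContDiff ℝ ∞ f)
    (hc : HasCompactSupport f) (hs : tsupport f ⊆ P.O) :
    ∃ φ : X → ℝ, SmF E φ ∧ (∀ q ∈ P.O, φ (P.Ψ q) = f q) ∧ ∀ x, x ∉ P.Ψ '' P.O → φ x = 0 := by
  set φ : X → ℝ := fun x => if hx : ∃ q, q ∈ P.O ∧ P.Ψ q = x then f hx.choose else 0 with hφ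
  have h1 : ∀ q ∈ P.O, φ (P.Ψ q) = f q := by
    intro q hq
    have hx : ∃ q', q' ∈ P.O ∧ P.Ψ q' = P.Ψ q := ⟨q, hq, rfl⟩
    simp only [hφ]
    rw [dif_pos hx, P.inj hx.choose_spec.1 hq hx.choose_spec.2]
  have h2 : ∀ x, x ∉ P.Ψ '' P.O → φ x = 0 := by
    intro x hx
    simp only [hφ]
    exact dif_neg hx
  refine ⟨φ, ?_, h1, h2⟩
  have hcont : ContinuousOn P.Ψ P.O := fun q hq => (P.hol q hq).1.continuousWithinAt
  have hK : IsCompact (P.Ψ '' tsupport f) := IsCompact.image_of_continuousOn hc (hcont.mono hs)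
  apply smF_of_par (G := F × (Fin m → ℂ))
  intro x
  by_cases hx : x ∈ P.Ψ '' P.O
  · obtain ⟨q0, hq0, rfl⟩ := hx
    refine ⟨P.Ψ, P.O, P.isOpen, ⟨q0, hq0, rfl⟩, fun q hq => ⟨(P.hol q hq).sm, P.bij q hq⟩, ?_⟩
    exact hf.contDiffOn.congr fun q hq => h1 q hq
  · obtain ⟨Q, -, q0, hq0, hq0x⟩ := exists_PC (E := E) (F := F) h x
    have hxK : x ∉ P.Ψ '' tsupport f := fun hh => hx (Set.image_mono hs hh)
    have hQc : ContinuousOn Q.Ψ Q.O := fun q hq => (Q.hol q hq).1.continuousWithinAt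
    refine ⟨Q.Ψ, Q.O ∩ Q.Ψ ⁻¹' (P.Ψ '' tsupport f)ᶜ, hQc.isOpen_inter_preimage Q.isOpen hK.isClosed.isOpen_compl,
      ⟨q0, ⟨hq0, ?_⟩, hq0x⟩, fun q hq => ⟨(Q.hol q hq.1).sm, Q.bij q hq.1⟩, ?_⟩
    · show Q.Ψ q0 ∉ P.Ψ '' tsupport f
      rw [hq0x]
      exact hxK
    · refine (contDiffOn_const (c := (0 : ℝ))).congr fun q hq => ?_
      show φ (Q.Ψ q) = 0
      by_cases hm : Q.Ψ q ∈ P.Ψ '' P.O
      · obtain ⟨q', hq', hqq⟩ := hm
        rw [← hqq, h1 q' hq']
        by_contra hne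
        exact hq.2 ⟨q', subset_tsupport f hne, hqq⟩
      · exact h2 _ hm

end Pool.Agent.FBN
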