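import Pool.Agent.FBN.Chx
import Pool.Agent.FBN.Push
import Pool.Agent.FBN.ExP

/-!
# FBN/HBp: the tensor `π_* (β ^ (m + 1))` on the base is of type (1,1) and semi-positive

PROOF PLAN.  As in `Pool/Agent/FBR/HBp.lean` (fibres of dimension one).  `ev2_I`: `pw a (m + 1) (I u', I v', frame)`, `u' = (u, 0)`, is by `pw_I` (all the vectors
multiplied by `I`) `pw a (m + 1) (u', v', - I frame)` up to `I (- I fr) = fr`; the map `- I` on `Fin m → ℂ` has determinant `1`
(`det_smul_I`, dimension even; or apply `alt_det` with `R = I • id` to the form with `I u', I v'` inserted), so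
`ev2 (pw a (m + 1)) (I u) (I v) = ev2 (pw a (m + 1)) u v`.  `ev2_nonneg`, `ev2_pos`: `cons (u, 0) (cons (I u, 0) frame) = dbl (cons (u, 0) (0, e_i))`, `pw_nonneg`,
`pw_pos` (the vectors `(u, 0), (0, e_i)` are linearly independent over `ℂ` for `u ≠ 0`).
-/

set_option autoImplicit false

noncomputable section

open scoped Manifold ContDiff Classical

open MeasureTheory

namespace Pool.Agent.FBN

open Pool.Agent.FBR

section Lin

variable {F : Type*} [NormedAddCommGroup F] [NormedSpace ℂ F] {m : ℕ}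

private theorem HBp_cons {W : Type*} (w0 w1' : W) (f g : Fin (2 * m) → W) (T : W → W) (u0 u1 : W)
    (h0 : T u0 = w0) (h1 : T u1 = w1') (h : ∀ j, T (f j) = g j) :
    (fun j : Fin (2 * m + 2) => T ((Fin.cons (n := 2 * m + 1) u0 (Fin.cons (n := 2 * m) u1 f) :
      Fin (2 * m + 2) → W) j)) = Fin.cons (n := 2 * m + 1) w0 (Fin.cons (n := 2 * m) w1' g) := by
  funext j
  refine Fin.cases ?_ (fun j => ?_) j
  · exact h0
  · refine Fin.cases ?_ (fun j => ?_) j
    · exact h1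
    · exact h j

private theorem HBp_dbl {H : Type*} [NormedAddCommGroup H] [NormedSpace ℂ H] (v0 : H) (v : Fin m → H) :
    (dbl (Fin.cons v0 v : Fin (m + 1) → H) : Fin (2 * (m + 1)) → H) =
      (Fin.cons (n := 2 * m + 1) v0 (Fin.cons (n := 2 * m) (Complex.I • v0) (dbl v)) :
        Fin (2 * m + 2) → H) := by
  funext j
  obtain ⟨j, hj⟩ := j
  match j, hj with
  | 0, hj =>
    have hix : ix (⟨0, hj⟩ : Fin (2 * (m + 1))) = 0 := by
      apply Fin.ext
      show 0 / 2 = 0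
      rfl
    unfold dbl
    show (if 0 % 2 = 0 then (Fin.cons v0 v : Fin (m + 1) → H) (ix ⟨0, hj⟩)
      else Complex.I • (Fin.cons v0 v : Fin (m + 1) → H) (ix ⟨0, hj⟩)) = v0
    rw [if_pos (by rfl), hix, Fin.cons_zero]
  | 1, hj =>
    have hix : ix (⟨1, hj⟩ : Fin (2 * (m + 1))) = 0 := by
      apply Fin.ext
      show 1 / 2 = 0
      rfl
    unfold dbl
    show (if 1 % 2 = 0 then (Fin.cons v0 v : Fin (m + 1) → H) (ix ⟨1, hj⟩)
      else Complex.I • (Fin.cons v0 v : Fin (m + 1) → H) (ix ⟨1, hj⟩)) = Complex.I • v0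
    rw [if_neg (by norm_num), hix, Fin.cons_zero]
  | k + 2, hj =>
    have hk : k < 2 * m := by omega
    have hR : (Fin.cons (n := 2 * m + 1) v0 (Fin.cons (n := 2 * m) (Complex.I • v0) (dbl v)) :
        Fin (2 * m + 2) → H) ⟨k + 2, hj⟩ = dbl v ⟨k, hk⟩ := rfl
    rw [hR]
    unfold dbl
    have hix : ix (⟨k + 2, hj⟩ : Fin (2 * (m + 1))) = Fin.succ (ix (⟨k, hk⟩ : Fin (2 * m))) := by
      apply Fin.ext
      show (k + 2) / 2 = k / 2 + 1
      omega
    have hmod : (k + 2) % 2 = k % 2 := by omega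
    show (if (k + 2) % 2 = 0 then (Fin.cons v0 v : Fin (m + 1) → H) (ix ⟨k + 2, hj⟩)
      else Complex.I • (Fin.cons v0 v : Fin (m + 1) → H) (ix ⟨k + 2, hj⟩)) =
      if k % 2 = 0 then v (ix ⟨k, hk⟩) else Complex.I • v (ix ⟨k, hk⟩)
    rw [hmod, hix, Fin.cons_succ]

private theorem HBp_fr (j : Fin (2 * m)) : (((0 : F), fr m j) : F × (Fin m → ℂ)) =
    dbl (fun i => (((0 : F), (Pi.single i 1 : Fin m → ℂ)) : F × (Fin m → ℂ))) j := by
  unfold fr dbl
  split_ifs
  · rfl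
  · rw [Prod.smul_mk, smul_zero]

/-- the vectors `(u, 0), (0, e_i)` -/
private def HBp_v (u : F) : Fin (m + 1) → F × (Fin m → ℂ) :=
  Fin.cons (u, 0) fun i => ((0 : F), (Pi.single i 1 : Fin m → ℂ))

private theorem HBp_ev2 (a : Bil (F × (Fin m → ℂ))) (u : F) :
    ev2 (pw a (m + 1)) u (Complex.I • u) = pw a (m + 1) (dbl (HBp_v u)) := by
  rw [ev2_apply]
  congr 1
  unfold HBp_v
  rw [HBp_dbl]
  have h1 : (Complex.I • ((u, 0) : F × (Fin m → ℂ))) = (Complex.I • u, 0) := by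
    rw [Prod.smul_mk, smul_zero]
  have h2 : (fun j => (((0 : F), fr m j) : F × (Fin m → ℂ))) =
      dbl (fun i => (((0 : F), (Pi.single i 1 : Fin m → ℂ)) : F × (Fin m → ℂ))) := by
    funext j
    exact HBp_fr j
  rw [h1, h2]

theorem ev2_I {a : Bil (F × (Fin m → ℂ))} (hJ : ∀ u v, a (Complex.I • u) (Complex.I • v) = a u v) (u v : F) :
    ev2 (pw a (m + 1)) (Complex.I • u) (Complex.I • v) = ev2 (pw a (m + 1)) u v := by
  let η : (F × (Fin m → ℂ)) [⋀^Fin (2 * m + 1 + 1)]→L[ℝ] ℝ := pw a (m + 1)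
  let f : (Fin m → ℂ) [⋀^Fin (2 * m)]→L[ℝ] ℝ :=
    ((η.curryLeft (Complex.I • u, 0)).curryLeft (Complex.I • v, 0)).compContinuousLinearMap
      (ContinuousLinearMap.inr ℝ F (Fin m → ℂ))
  have h1 : ev2 (pw a (m + 1)) (Complex.I • u) (Complex.I • v) = f (fr m) := rfl
  have h2 := alt_det f (Complex.I • ContinuousLinearMap.id ℝ (Fin m → ℂ))
  rw [det_smul_I, one_mul] at h2
  rw [h1, ← h2, ev2_apply]
  have h3 := pw_I hJ (m + 1) (Fin.cons (n := 2 * m + 1) ((u, 0) : F × (Fin m → ℂ))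
    (Fin.cons (n := 2 * m) ((v, 0) : F × (Fin m → ℂ)) fun j => ((0 : F), fr m j)))
  have h4 : (fun j : Fin (2 * m + 2) => Complex.I • ((Fin.cons (n := 2 * m + 1) ((u, 0) : F × (Fin m → ℂ))
      (Fin.cons (n := 2 * m) ((v, 0) : F × (Fin m → ℂ)) fun j => ((0 : F), fr m j)) :
      Fin (2 * m + 2) → F × (Fin m → ℂ)) j)) =
      Fin.cons (n := 2 * m + 1) ((Complex.I • u, 0) : F × (Fin m → ℂ))
      (Fin.cons (n := 2 * m) ((Complex.I • v, 0) : F × (Fin m → ℂ)) fun j => ((0 : F), Complex.I • fr m j)) := by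
    refine HBp_cons (W := F × (Fin m → ℂ)) _ _ _ _ (fun x => Complex.I • x) _ _ ?_ ?_ fun j => ?_
    · show Complex.I • ((u, 0) : F × (Fin m → ℂ)) = _
      rw [Prod.smul_mk, smul_zero]
    · show Complex.I • ((v, 0) : F × (Fin m → ℂ)) = _
      rw [Prod.smul_mk, smul_zero]
    · show Complex.I • (((0 : F), fr m j) : F × (Fin m → ℂ)) = _
      rw [Prod.smul_mk, smul_zero]
  have h5 : pw a (m + 1) (fun j : Fin (2 * m + 2) => Complex.I • ((Fin.cons (n := 2 * m + 1)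
      ((u, 0) : F × (Fin m → ℂ))
      (Fin.cons (n := 2 * m) ((v, 0) : F × (Fin m → ℂ)) fun j => ((0 : F), fr m j)) :
      Fin (2 * m + 2) → F × (Fin m → ℂ)) j)) = f fun j => Complex.I • fr m j := by
    rw [h4]
    rfl
  exact h5.symm.trans h3

theorem ev2_nonneg {a : Bil (F × (Fin m → ℂ))} (ha : ∀ u, a u u = 0)
    (hJ : ∀ u v, a (Complex.I • u) (Complex.I • v) = a u v) (hp : ∀ v, 0 ≤ a v (Complex.I • v)) (u : F) :
    0 ≤ ev2 (pw a (m + 1)) u (Complex.I • u) := by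
  rw [HBp_ev2]
  exact pw_nonneg ha hJ hp _

private theorem HBp_indep {u : F} (hu : u ≠ 0) : LinearIndependent ℂ (HBp_v (m := m) u) := by
  unfold HBp_v
  rw [linearIndependent_finCons]
  constructor
  · have h1 : LinearIndependent ℂ (fun i : Fin m => (Pi.single i 1 : Fin m → ℂ)) :=
      Pi.linearIndependent_single_one (Fin m) ℂ
    exact h1.map' (LinearMap.inr ℂ F (Fin m → ℂ)) (LinearMap.ker_eq_bot.2 LinearMap.inr_injective)
  · intro h
    have h2 : Submodule.span ℂ (Set.range fun i => (((0 : F), (Pi.single i 1 : Fin m → ℂ)) :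
        F × (Fin m → ℂ))) ≤ LinearMap.ker (LinearMap.fst ℂ F (Fin m → ℂ)) := by
      rw [Submodule.span_le]
      rintro _ ⟨i, rfl⟩
      exact rfl
    exact hu (h2 h)

theorem ev2_pos {a : Bil (F × (Fin m → ℂ))} (ha : ∀ u, a u u = 0)
    (hJ : ∀ u v, a (Complex.I • u) (Complex.I • v) = a u v) (hp : ∀ v, v ≠ 0 → 0 < a v (Complex.I • v))
    {u : F} (hu : u ≠ 0) : 0 < ev2 (pw a (m + 1)) u (Complex.I • u) := by
  rw [HBp_ev2]
  exact pw_pos ha hJ hp _ (HBp_indep hu)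

end Lin

variable {E X : Type*} [NormedAddCommGroup E] [NormedSpace ℂ E] [FiniteDimensional ℂ E]
  [TopologicalSpace X] [ChartedSpace E X] [IsManifold 𝓘(ℂ, E) ω X] [CompactSpace X] [T2Space X]
  {F B : Type*} [NormedAddCommGroup F] [NormedSpace ℂ F] [FiniteDimensional ℂ F] [TopologicalSpace B]
  [ChartedSpace F B] [IsManifold 𝓘(ℂ, F) ω B] {π : X → B} {m : ℕ}

private theorem HBp_abs {G V : Type*} [NormedAddCommGroup G] [NormedSpace ℝ G] [FiniteDimensional ℝ G]
    [NormedAddCommGroup V] [NormedSpace ℝ V] [CompleteSpace V] {f : G × (Fin m → ℂ) → V}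
    (hf : ContDiff ℝ ∞ f) (hc : HasCompactSupport f) (y : G) (T : V →L[ℝ] ℝ) :
    Continuous (fun z : Fin m → ℂ => T (f (y, z))) ∧ Integrable (fun z : Fin m → ℂ => T (f (y, z))) ∧
      T (JK f y) = ∫ z : Fin m → ℂ, T (f (y, z)) := by
  have h1 : Continuous (fun z : Fin m → ℂ => f (y, z)) := hf.continuous.comp (by fun_prop)
  have h2 : Integrable (fun z : Fin m → ℂ => f (y, z)) := J_integrable hf.continuous hc y
  exact ⟨T.continuous.comp h1, T.integrable_comp h2, (T.integral_comp_comm h2).symm⟩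

/-- evaluation of a bilinear form -/
private def HBp_ev {G : Type*} [NormedAddCommGroup G] [NormedSpace ℝ G] (u v : G) : Bil G →L[ℝ] ℝ :=
  (ContinuousLinearMap.apply ℝ ℝ v).comp (ContinuousLinearMap.apply ℝ (G →L[ℝ] ℝ) u)

private theorem HBp_ev_apply {G : Type*} [NormedAddCommGroup G] [NormedSpace ℝ G] (u v : G) (a : Bil G) :
    HBp_ev u v a = a u v := rfl

private theorem HBp_J {G : Type*} [NormedAddCommGroup G] [NormedSpace ℝ G] [FiniteDimensional ℝ G]
    {f : G × (Fin m → ℂ) → Bil G} (hf : ContDiff ℝ ∞ f)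
    (hc : HasCompactSupport f) (y u v : G) :
    Continuous (fun z : Fin m → ℂ => HBp_ev u v (f (y, z))) ∧
      Integrable (fun z : Fin m → ℂ => HBp_ev u v (f (y, z))) ∧
      HBp_ev u v (JK f y) = ∫ z : Fin m → ℂ, HBp_ev u v (f (y, z)) :=
  HBp_abs hf hc y (HBp_ev u v)

private theorem HBp_J' {G : Type*} [NormedAddCommGroup G] [NormedSpace ℝ G] [FiniteDimensional ℝ G]
    {f : G × (Fin m → ℂ) → Bil G} (hf : ContDiff ℝ ∞ f)
    (hc : HasCompactSupport f) (y u v : G) :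
    Continuous (fun z : Fin m → ℂ => f (y, z) u v) ∧ Integrable (fun z : Fin m → ℂ => f (y, z) u v) ∧
      JK f y u v = ∫ z : Fin m → ℂ, f (y, z) u v := by
  have h := HBp_J hf hc y u v
  simp only [HBp_ev_apply] at h
  exact h

omit [FiniteDimensional ℂ E] [IsManifold 𝓘(ℂ, E) ω X] [CompactSpace X] [T2Space X] [FiniteDimensional ℂ F]
  [IsManifold 𝓘(ℂ, F) ω B] in
private theorem HBp_ind (P : PC E F π m) (χ : X → ℝ) (β : Form E X) (q : F × (Fin m → ℂ)) (u v : F) :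
    Gi P χ β q u v = P.O.indicator (fun q => χ (P.Ψ q) * ev2 (pw (tpb β.val P.Ψ q) (m + 1)) u v) q := by
  unfold Gi
  by_cases hq : q ∈ P.O
  · rw [Set.indicator_of_mem hq, Set.indicator_of_mem hq]
    rfl
  · rw [Set.indicator_of_notMem hq, Set.indicator_of_notMem hq]
    rfl

private theorem HBp_fun (P : PC E F π m) {χ : X → ℝ} (hχ : SmF E χ) (hs : tsupport χ ⊆ P.Ψ '' P.O)
    (β : Form E X) (y u v : F) :
    Continuous (fun z : Fin m → ℂ => P.O.indicator (fun q => χ (P.Ψ q) *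
        ev2 (pw (tpb β.val P.Ψ q) (m + 1)) u v) (y, z)) ∧
      Integrable (fun z : Fin m → ℂ => P.O.indicator (fun q => χ (P.Ψ q) *
        ev2 (pw (tpb β.val P.Ψ q) (m + 1)) u v) (y, z)) ∧
      JK (Gi P χ β) y u v = ∫ z : Fin m → ℂ, P.O.indicator (fun q => χ (P.Ψ q) *
        ev2 (pw (tpb β.val P.Ψ q) (m + 1)) u v) (y, z) := by
  have h1 : ContDiff ℝ ∞ (Gi P χ β) := Gi_smooth P β hχ hs
  have h2 := cut_compact (V := Bil F) P hs (fun q => ev2 (pw (tpb β.val P.Ψ q) (m + 1)))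
  have h := HBp_J' (f := Gi P χ β) h1 h2 y u v
  have he : (fun z : Fin m → ℂ => Gi P χ β (y, z) u v) =
      fun z : Fin m → ℂ => P.O.indicator (fun q => χ (P.Ψ q) *
        ev2 (pw (tpb β.val P.Ψ q) (m + 1)) u v) (y, z) :=
    funext fun z => HBp_ind P χ β (y, z) u v
  rw [he] at h
  exact h

theorem hb_apply (d : FD E F π m) (β : Form E X) (b : B) (u v : F) :
    hb d β b u v = ∑ i, if b ∈ (chartAt F (d.P i).c).source then
      ∫ z : Fin m → ℂ, (d.P i).O.indicator (fun q => d.χ i ((d.P i).Ψ q) *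
        ev2 (pw (tpb β.val (d.P i).Ψ q) (m + 1)) (tc F (d.P i).c b u) (tc F (d.P i).c b v))
          (chartAt F (d.P i).c b, z)
      else 0 := by
  unfold hb
  rw [sum_apply, sum_apply]
  refine Finset.sum_congr rfl fun i _ => ?_
  unfold extT
  by_cases hb : b ∈ (chartAt F (d.P i).c).source
  · rw [if_pos hb, if_pos hb]
    exact (HBp_fun (d.P i) (d.sm i) (d.supp i) β (chartAt F (d.P i).c b) (tc F (d.P i).c b u)
      (tc F (d.P i).c b v)).2.2
  · rw [if_neg hb, if_neg hb]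
    rfl

theorem hb_alt (d : FD E F π m) (β : Form E X) (b : B) (u : F) : hb d β b u u = 0 := by
  rw [hb_apply]
  refine Finset.sum_eq_zero fun i _ => ?_
  split_ifs
  · refine integral_eq_zero_of_ae (Filter.Eventually.of_forall fun z => ?_)
    refine Set.indicator_apply_eq_zero.2 fun _ => ?_
    show _ * _ = (0 : ℝ)
    rw [ev2_alt, mul_zero]
  · rfl

theorem hb_I (d : FD E F π m) (β : Form E X) (b : B) (u v : F) :
    hb d β b (Complex.I • u) (Complex.I • v) = hb d β b u v := by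
  rw [hb_apply, hb_apply]
  refine Finset.sum_congr rfl fun i _ => ?_
  by_cases hb : b ∈ (chartAt F (d.P i).c).source
  · rw [if_pos hb, if_pos hb]
    congr 1
    funext z
    by_cases hq : (chartAt F (d.P i).c b, z) ∈ (d.P i).O
    · rw [Set.indicator_of_mem hq, Set.indicator_of_mem hq, tc_I hb, tc_I hb,
        ev2_I (a := tpb β.val (d.P i).Ψ (chartAt F (d.P i).c b, z))
          (fun u v => tpb_I β ((d.P i).hol _ hq) u v)]
    · rw [Set.indicator_of_notMem hq, Set.indicator_of_notMem hq]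
  · rw [if_neg hb, if_neg hb]

private theorem HBp_pt (P : PC E F π m) {β : Form E X} (hβ : β.Semi) {q : F × (Fin m → ℂ)}
    (hq : q ∈ P.O) (v : F) : 0 ≤ ev2 (pw (tpb β.val P.Ψ q) (m + 1)) v (Complex.I • v) :=
  ev2_nonneg (a := tpb β.val P.Ψ q) (fun u => tpb_alt β P.Ψ q u) (fun u v => tpb_I β (P.hol q hq) u v)
    (fun v => tpb_semi hβ (P.hol q hq) v) v

private theorem HBp_nonneg (P : PC E F π m) {χ : X → ℝ} (hχ : ∀ x, 0 ≤ χ x) {β : Form E X} (hβ : β.Semi)
    (v : F) (q : F × (Fin m → ℂ)) : 0 ≤ P.O.indicator (fun q => χ (P.Ψ q) *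
      ev2 (pw (tpb β.val P.Ψ q) (m + 1)) v (Complex.I • v)) q := by
  by_cases hq : q ∈ P.O
  · rw [Set.indicator_of_mem hq]
    exact mul_nonneg (hχ _) (HBp_pt P hβ hq v)
  · rw [Set.indicator_of_notMem hq]

private theorem HBp_term (d : FD E F π m) {β : Form E X} (hβ : β.Semi) (b : B) (u : F) (i : Fin d.n) :
    0 ≤ if b ∈ (chartAt F (d.P i).c).source then
      ∫ z : Fin m → ℂ, (d.P i).O.indicator (fun q => d.χ i ((d.P i).Ψ q) *
        ev2 (pw (tpb β.val (d.P i).Ψ q) (m + 1)) (tc F (d.P i).c b u) (tc F (d.P i).c b (Complex.I • u)))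
          (chartAt F (d.P i).c b, z)
      else 0 := by
  split_ifs with hb
  · refine integral_nonneg fun z => ?_
    show 0 ≤ _
    rw [tc_I hb]
    exact HBp_nonneg (d.P i) (d.nonneg i) hβ _ _
  · exact le_rfl

theorem hb_semi (d : FD E F π m) {β : Form E X} (hβ : β.Semi) (b : B) (u : F) :
    0 ≤ hb d β b u (Complex.I • u) := by
  rw [hb_apply]
  exact Finset.sum_nonneg fun i _ => HBp_term d hβ b u i

theorem hb_pos (d : FD E F π m) {β : Form E X} (hβ : β.Semi) {x0 : X} (hx0 : β.PosAt x0) {u : F} (hu : u ≠ 0) :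
    0 < hb d β (π x0) u (Complex.I • u) := by
  obtain ⟨i, hi⟩ : ∃ i, 0 < d.χ i x0 := by
    by_contra hno
    have h1 : ∑ i, d.χ i x0 ≤ 0 := by
      refine Finset.sum_nonpos fun i _ => ?_
      by_contra h2
      exact hno ⟨i, not_le.1 h2⟩
    rw [d.sum x0] at h1
    exact absurd h1 (by norm_num)
  obtain ⟨q0, hq0, hx⟩ := d.supp i (subset_tsupport _ (ne_of_gt hi : d.χ i x0 ≠ 0))
  have hbase := (d.P i).base hq0
  rw [hx] at hbase
  rw [hb_apply]
  refine Finset.sum_pos' (fun j _ => HBp_term d hβ _ u j) ⟨i, Finset.mem_univ i, ?_⟩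
  rw [if_pos hbase.1, tc_I hbase.1, hbase.2]
  have htc : tc F (d.P i).c (π x0) u ≠ 0 := by
    intro h0
    have h1 := dvec_tc hbase.1 u
    rw [h0, map_zero] at h1
    exact hu h1.symm
  obtain ⟨hcont, hint, -⟩ := HBp_fun (d.P i) (d.sm i) (d.supp i) β q0.1
    (tc F (d.P i).c (π x0) u) (Complex.I • tc F (d.P i).c (π x0) u)
  have hne : (d.P i).O.indicator (fun q => d.χ i ((d.P i).Ψ q) *
      ev2 (pw (tpb β.val (d.P i).Ψ q) (m + 1)) (tc F (d.P i).c (π x0) u)
        (Complex.I • tc F (d.P i).c (π x0) u)) (q0.1, q0.2) ≠ 0 := by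
    have hq0' : ((q0.1, q0.2) : F × (Fin m → ℂ)) ∈ (d.P i).O := hq0
    rw [Set.indicator_of_mem hq0']
    have hpos : β.PosAt ((d.P i).Ψ q0) := by
      rw [hx]
      exact hx0
    have h1 := (posAt_iff β ((d.P i).hol q0 hq0) ((d.P i).bij q0 hq0)).1 hpos
    have h2 := ev2_pos (a := tpb β.val (d.P i).Ψ q0) (fun u => tpb_alt β (d.P i).Ψ q0 u)
      (fun u v => tpb_I β ((d.P i).hol q0 hq0) u v) h1 htc
    have h3 : 0 < d.χ i ((d.P i).Ψ q0) := by
      rw [hx]
      exact hi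
    exact (mul_pos h3 h2).ne'
  refine (integral_pos_iff_support_of_nonneg (fun z => ?_) hint).2
    (hcont.isOpen_support.measure_pos volume ⟨q0.2, hne⟩)
  exact HBp_nonneg (d.P i) (d.nonneg i) hβ _ _

end Pool.Agent.FBN
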