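import Pool.Agent.FBN.Trans
import Pool.Agent.FBN.Push

/-!
# FBN/Zero: the zero lemma, fibres of dimension `m`

PROOF PLAN.  The same statements for fibres of dimension one are proved in `Pool/Agent/FBR/Zero.lean`: adapt that file (the densities are
now `2m`-forms `D x`, evaluated at the frame `P.vf q`, all vectors of which are vertical).
-/

set_option autoImplicit false

noncomputable section

open scoped Manifold ContDiff Classical

open MeasureTheory

namespace Pool.Agent.FBN

open Pool.Agent.FBR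

variable {E X : Type*} [NormedAddCommGroup E] [NormedSpace ℂ E] [FiniteDimensional ℂ E]
  [TopologicalSpace X] [ChartedSpace E X] [IsManifold 𝓘(ℂ, E) ω X] [CompactSpace X] [T2Space X]
  {F B : Type*} [NormedAddCommGroup F] [NormedSpace ℂ F] [FiniteDimensional ℂ F] [TopologicalSpace B]
  [ChartedSpace F B] [IsManifold 𝓘(ℂ, F) ω B] {π : X → B} {m : ℕ}

/-- a point of a product chart over `b` -/
private theorem Zero_pt (P : PC E F π m) {b : B} (hb : b ∈ (chartAt F P.c).source) {z : Fin m → ℂ}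
    (hz : (chartAt F P.c b, z) ∈ P.O) : π (P.Ψ (chartAt F P.c b, z)) = b := by
  obtain ⟨h1, h2⟩ := P.base hz
  exact (chartAt F P.c).injOn h1 hb h2

theorem fi_integrable (P : PC E F π m) (D : X → E [⋀^Fin (2 * m)]→L[ℝ] ℝ) (b : B)
    (hb : b ∈ (chartAt F P.c).source) (hcont : VCont F π m D b) {K : Set X} (hK : IsClosed K)
    (hKO : K ⊆ P.Ψ '' P.O) (hs : ∀ x, x ∉ K → D x = 0) :
    Integrable fun z : Fin m → ℂ => P.O.indicator (fun q => D (P.Ψ q) (P.vf q)) (chartAt F P.c b, z) := by
  have hC : IsCompact {q | q ∈ P.O ∧ P.Ψ q ∈ K} := P.isCompact_preim hK.isCompact hKO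
  have hcw : Continuous fun z : Fin m → ℂ => (chartAt F P.c b, z) := by fun_prop
  have hz : ∀ z : Fin m → ℂ, (chartAt F P.c b, z) ∉ {q | q ∈ P.O ∧ P.Ψ q ∈ K} →
      P.O.indicator (fun q => D (P.Ψ q) (P.vf q)) (chartAt F P.c b, z) = 0 := by
    intro z hz
    by_cases h : (chartAt F P.c b, z) ∈ P.O
    · rw [Set.indicator_of_mem h, hs _ (fun h' => hz ⟨h, h'⟩)]
      rfl
    · exact Set.indicator_of_notMem h _
  have hcont' : Continuous fun z : Fin m → ℂ =>
      P.O.indicator (fun q => D (P.Ψ q) (P.vf q)) (chartAt F P.c b, z) := by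
    rw [continuous_iff_continuousAt]
    intro z
    by_cases h : (chartAt F P.c b, z) ∈ P.O
    · refine (hcont P hb z h).congr ?_
      filter_upwards [hcw.continuousAt.eventually (P.isOpen.mem_nhds h)] with z' hz'
      exact (Set.indicator_of_mem hz' (fun q => D (P.Ψ q) (P.vf q))).symm
    · have h1 : (chartAt F P.c b, z) ∈ {q | q ∈ P.O ∧ P.Ψ q ∈ K}ᶜ := fun h' => h h'.1
      have h2 : (fun _ : Fin m → ℂ => (0 : ℝ)) =ᶠ[nhds z] fun z : Fin m → ℂ =>
          P.O.indicator (fun q => D (P.Ψ q) (P.vf q)) (chartAt F P.c b, z) := by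
        filter_upwards [hcw.continuousAt.eventually (hC.isClosed.isOpen_compl.mem_nhds h1)] with z' hz'
        exact (hz z' hz').symm
      exact continuousAt_const.congr h2
  refine hcont'.integrable_of_hasCompactSupport ?_
  have hC' : IsCompact (Prod.snd '' ({q | q ∈ P.O ∧ P.Ψ q ∈ K} ∩
      {q : F × (Fin m → ℂ) | q.1 = chartAt F P.c b})) :=
    (hC.inter_right (isClosed_eq continuous_fst continuous_const)).image continuous_snd
  refine HasCompactSupport.intro hC' fun z hw => hz z fun h => hw ⟨(chartAt F P.c b, z), ⟨h, rfl⟩, rfl⟩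

private theorem Zero_mul_VCont {χ : X → ℝ} (hχ : SmF E χ) {D : X → E [⋀^Fin (2 * m)]→L[ℝ] ℝ} {b : B}
    (hD : VCont F π m D b) : VCont F π m (fun x => χ x • D x) b := by
  intro P hb z hz
  have h1 : ContinuousAt (fun z' : Fin m → ℂ => P.Ψ (chartAt F P.c b, z')) z :=
    ContinuousAt.comp (f := fun z' : Fin m → ℂ => (chartAt F P.c b, z')) (g := P.Ψ) (P.hol _ hz).1 (by fun_prop)
  exact (hχ.continuous.continuousAt.comp h1).mul (hD P hb z hz)

private theorem Zero_chi {χ : X → ℝ} {x : X} (h : x ∉ tsupport χ) : χ x = 0 := image_eq_zero_of_notMem_tsupport h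

private theorem Zero_fi_sum {ι : Type*} (s : Finset ι) (P : PC E F π m)
    (D : ι → X → E [⋀^Fin (2 * m)]→L[ℝ] ℝ) (b : B)
    (hcont : ∀ i, VCont F π m (D i) b) {K : Set X} (hK : IsClosed K) (hKO : K ⊆ P.Ψ '' P.O)
    (hs : ∀ i x, x ∉ K → D i x = 0) :
    ∑ i ∈ s, fi P (D i) b = fi P (fun x => ∑ i ∈ s, D i x) b := by
  unfold fi
  split_ifs with hb
  · rw [← integral_finset_sum s fun i _ => fi_integrable P (D i) b hb (hcont i) hK hKO (hs i)]
    congr 1
    funext z
    by_cases h : (chartAt F P.c b, z) ∈ P.O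
    · rw [Set.indicator_of_mem h, ContinuousAlternatingMap.sum_apply]
      exact Finset.sum_congr rfl fun i _ => Set.indicator_of_mem h _
    · rw [Set.indicator_of_notMem h]
      exact Finset.sum_eq_zero fun i _ => Set.indicator_of_notMem h _
  · exact Finset.sum_const_zero

theorem zero_lemma (hπ : ContMDiff 𝓘(ℂ, E) 𝓘(ℂ, F) ω π) (d : FD E F π m) (b : B)
    (D : Fin d.n → X → E [⋀^Fin (2 * m)]→L[ℝ] ℝ)
    (hcont : ∀ i, VCont F π m (D i) b)
    (hsupp : ∀ i x, x ∉ tsupport (d.χ i) → D i x = 0)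
    (hsum : ∀ x, π x = b → ∀ ξ : Fin (2 * m) → E, (∀ j, dmap E F π x (ξ j) = 0) → ∑ i, D i x ξ = 0) :
    ∑ i, fi (d.P i) (D i) b = 0 := by
  have hc : ∀ i k, VCont F π m (fun x => d.χ k x • D i x) b := fun i k => Zero_mul_VCont (d.sm k) (hcont i)
  have h1 : ∀ i, fi (d.P i) (D i) b = ∑ k, fi (d.P i) (fun x => d.χ k x • D i x) b := by
    intro i
    rw [Zero_fi_sum Finset.univ (d.P i) (fun k x => d.χ k x • D i x) b (fun k => hc i k)
      (isClosed_tsupport (d.χ i)) (d.supp i) (fun k x hx => by rw [hsupp i x hx, smul_zero])]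
    congr 1
    funext x
    rw [← Finset.sum_smul, d.sum x, one_smul]
  have h2 : ∀ i k, fi (d.P i) (fun x => d.χ k x • D i x) b = fi (d.P k) (fun x => d.χ k x • D i x) b := by
    intro i k
    refine transfer (d.P i) (d.P k) _ b (fun x _ hx => ?_)
    rcases hx with hx | hx
    · rw [hsupp i x (fun h => hx (d.supp i h)), smul_zero]
    · rw [Zero_chi (fun h => hx (d.supp k h)), zero_smul]
  have h3 : ∀ k, ∑ i, fi (d.P k) (fun x => d.χ k x • D i x) b = 0 := by
    intro k
    rw [Zero_fi_sum Finset.univ (d.P k) (fun i x => d.χ k x • D i x) b (fun i => hc i k)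
      (isClosed_tsupport (d.χ k)) (d.supp k) (fun i x hx => by rw [Zero_chi hx, zero_smul])]
    unfold fi
    split_ifs with hb
    · refine integral_eq_zero_of_ae (Filter.Eventually.of_forall fun z => ?_)
      by_cases h : (chartAt F (d.P k).c b, z) ∈ (d.P k).O
      · refine (Set.indicator_of_mem h _).trans ?_
        show (∑ i, d.χ k _ • D i _) _ = 0
        rw [← Finset.smul_sum, ContinuousAlternatingMap.smul_apply, ContinuousAlternatingMap.sum_apply,
          hsum _ (Zero_pt (d.P k) hb h) ((d.P k).vf (chartAt F (d.P k).c b, z))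
            (fun j => ((d.P k).vert_iff hπ h _).2 ⟨fr m j, rfl⟩), smul_zero]
      · exact Set.indicator_of_notMem h _
    · rfl
  rw [Finset.sum_congr rfl fun i _ => h1 i, Finset.sum_comm]
  refine Finset.sum_eq_zero fun k _ => ?_
  rw [← h3 k]
  exact Finset.sum_congr rfl fun i _ => h2 i k

end Pool.Agent.FBN
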