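import Pool.Agent.FBN.DerF
import Pool.Agent.FBN.Zero
import Pool.Agent.FBN.ExP
import Pool.Agent.FBR.Ext
import Pool.Agent.FBR.Vol
import Pool.Agent.FBR.VP

/-!
# FBN/Vol: the fibre integral of `β ^ m` is constant, so `β` is positive somewhere on every fibre

PROOF PLAN.  As in `Pool/Agent/FBR/Vol.lean` (fibres of dimension one; `const_of_dF` can be cited from there): replace `Z3 ..` by `dF1 m ..`
(`dF1_vcont`, `dF_eq_zero`, `dF1_zero`, `dF1_sum`, `deriv_JF`, `beta_chart`).  `fib_point`: `pw (tpb β.val Ψ q) m frame ≥ 0` (`pw_nonneg`, the frame is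
`dbl` of `(0, e_i)`), `> 0` at `x0` (`posAt_iff`, `pw_pos`); so `fvol d β (π x0) > 0`, hence `fvol d β b > 0`, so there are `i` and `q ∈ (d.P i).O`
over `b` with `0 < pw (tpb β.val Ψ q) m frame`; by `pos_of_pw` `tpb β.val Ψ q` is positive on the vectors `(0, r)`, `r ≠ 0`, and these give all the vertical
vectors at `Ψ q` (`PC.vert_iff`, `Hol.smul_I`, `tpb_apply`).
-/

set_option autoImplicit false

noncomputable section

open scoped Manifold ContDiff Classical

open MeasureTheory

namespace Pool.Agent.FBN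

open Pool.Agent.FBR

variable {E X : Type*} [NormedAddCommGroup E] [NormedSpace ℂ E] [FiniteDimensional ℂ E]
  [TopologicalSpace X] [ChartedSpace E X] [IsManifold 𝓘(ℂ, E) ω X] [CompactSpace X] [T2Space X]
  {F B : Type*} [NormedAddCommGroup F] [NormedSpace ℂ F] [FiniteDimensional ℂ F] [TopologicalSpace B]
  [ChartedSpace F B] [IsManifold 𝓘(ℂ, F) ω B] [CompactSpace B] [T2Space B] {π : X → B} {m : ℕ}

theorem fi_eq_extF (P : PC E F π m) (χ : X → ℝ) (β : Form E X) (b : B) :
    fi P (fun x => χ x • pw (β.val x) m) b = extF P.c (JK (Fi P χ β)) b := by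
  unfold fi extF JK Fi
  by_cases hb : b ∈ (chartAt F P.c).source
  · rw [if_pos hb, if_pos hb]
    congr 1
    funext z
    by_cases hq : (chartAt F P.c b, z) ∈ P.O
    · rw [Set.indicator_of_mem hq, Set.indicator_of_mem hq, ← beta_chart P β]
      rfl
    · rw [Set.indicator_of_notMem hq, Set.indicator_of_notMem hq]
  · rw [if_neg hb, if_neg hb]

omit [CompactSpace B] [T2Space B] in
private theorem Vol_JF_smooth (d : FD E F π m) (β : Form E X) (i : Fin d.n) :
    ContDiff ℝ ∞ (JK (Fi (d.P i) (d.χ i) β)) :=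
  J_smooth (Fi_smooth (d.P i) β (d.sm i) (d.supp i)) (cut_compact (d.P i) (d.supp i) _)

omit [CompactSpace B] [T2Space B] in
private theorem Vol_JF_compact (d : FD E F π m) (β : Form E X) (i : Fin d.n) :
    HasCompactSupport (JK (Fi (d.P i) (d.χ i) β)) :=
  J_compact (cut_compact (d.P i) (d.supp i) _)

omit [CompactSpace B] [T2Space B] in
private theorem Vol_JF_supp (d : FD E F π m) (β : Form E X) (i : Fin d.n) :
    tsupport (JK (Fi (d.P i) (d.χ i) β)) ⊆ (chartAt F (d.P i).c).target :=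
  cut_J_tsupport (d.P i) (d.supp i) _

private theorem Vol_fvol_eq (d : FD E F π m) (β : Form E X) :
    fvol d β = fun b => ∑ i, extF (d.P i).c (JK (Fi (d.P i) (d.χ i) β)) b := by
  funext b
  exact Finset.sum_congr rfl fun i _ => fi_eq_extF (d.P i) (d.χ i) β b

theorem fvol_smF (d : FD E F π m) (β : Form E X) : SmF F (fvol d β) := by
  rw [Vol_fvol_eq]
  exact SmF.sum Finset.univ fun i _ =>
    extF_smF (Vol_JF_smooth d β i) (Vol_JF_compact d β i) (Vol_JF_supp d β i)

theorem fvol_dF (h : Fibn E F π m) (d : FD E F π m) (β : Form E X) (b : B) : dF F (fvol d β) b = 0 := by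
  ext u
  have hex : ∀ x : X, ∃ v : E, π x = b → dmap E F π x v = u := by
    intro x
    by_cases hx : π x = b
    · obtain ⟨v, hv⟩ := h.subm x u
      exact ⟨v, fun _ => (dmap_eq h.hol x v).trans hv⟩
    · exact ⟨0, fun h' => absurd h' hx⟩
  choose L hL using hex
  have h1 : dF F (fvol d β) b u =
      ∑ i, fi (d.P i) (fun x => dF1 m (dF E (d.χ i) x) (β.val x) (L x)) b := by
    rw [Vol_fvol_eq, dF_sum Finset.univ fun i _ =>
      extF_smF (Vol_JF_smooth d β i) (Vol_JF_compact d β i) (Vol_JF_supp d β i)]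
    rw [sum_apply]
    refine Finset.sum_congr rfl fun i _ => ?_
    rw [extF_dF (Vol_JF_smooth d β i) (Vol_JF_compact d β i) (Vol_JF_supp d β i)]
    by_cases hb : b ∈ (chartAt F (d.P i).c).source
    · rw [if_pos hb, ContinuousLinearMap.comp_apply]
      exact deriv_JF h.hol (d.P i) β (d.sm i) (d.supp i) hb hL
    · rw [if_neg hb]
      unfold fi
      rw [if_neg hb]
      rfl
  rw [h1]
  refine (zero_lemma h.hol d b _ ?_ ?_ ?_).trans rfl
  · intro i
    exact dF1_vcont h.hol β (d.sm i) hL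
  · intro i x hx
    rw [dF_eq_zero hx, dF1_zero]
  · intro x _ ξ _
    rw [← ContinuousAlternatingMap.sum_apply, ← dF1_sum, ← dF_sum Finset.univ fun i _ => d.sm i]
    have h2 : (fun x => ∑ i, d.χ i x) = fun _ : X => (1 : ℝ) := funext d.sum
    rw [h2, dF_const, dF1_zero]
    rfl

/-- The frame of the vertical vectors consists of the vectors `v i, I • v i`, `v i` the images of the unit vectors. -/
private theorem Vol_vf (P : PC E F π m) {q : F × (Fin m → ℂ)} (hq : q ∈ P.O) :
    P.vf q = dbl fun i => dvec E P.Ψ q (0, Pi.single i 1) := by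
  funext j
  unfold PC.vf fr dbl
  split_ifs
  · rfl
  · rw [← (P.hol q hq).smul_I]
    congr 1
    rw [Prod.smul_mk, smul_zero]

private theorem Vol_re {V : Type*} [AddCommGroup V] [Module ℂ V] [Module ℝ V] [IsScalarTower ℝ ℂ V] (r : ℂ) (x : V) :
    r • x = r.re • x + r.im • (Complex.I • x) := by
  rw [← smul_assoc, ← algebraMap_smul ℂ r.re x, ← add_smul]
  congr 1
  rw [Complex.coe_algebraMap, Complex.real_smul]
  exact (Complex.re_add_im r).symm

private theorem Vol_smul (P : PC E F π m) {q : F × (Fin m → ℂ)} (hq : q ∈ P.O) (r : ℂ) (v : F × (Fin m → ℂ)) :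
    r • dvec E P.Ψ q v = dvec E P.Ψ q (r • v) := by
  rw [Vol_re r v, Vol_re r (dvec E P.Ψ q v), map_add, map_smul, map_smul, (P.hol q hq).smul_I]

private theorem Vol_sum (P : PC E F π m) {q : F × (Fin m → ℂ)} (hq : q ∈ P.O) (c : Fin m → ℂ) :
    ∑ i, c i • dvec E P.Ψ q (0, Pi.single i 1) = dvec E P.Ψ q (0, c) := by
  have h1 : ((0, c) : F × (Fin m → ℂ)) = ∑ i, c i • ((0, Pi.single i 1) : F × (Fin m → ℂ)) := by
    refine Prod.ext ?_ ?_
    · rw [Prod.fst_sum]
      simp
    · rw [Prod.snd_sum]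
      show c = ∑ i, c i • (Pi.single i (1 : ℂ) : Fin m → ℂ)
      exact pi_eq_sum_univ' c
  rw [h1, map_sum]
  exact Finset.sum_congr rfl fun i _ => Vol_smul P hq _ _

private theorem Vol_indep (P : PC E F π m) {q : F × (Fin m → ℂ)} (hq : q ∈ P.O) :
    LinearIndependent ℂ fun i : Fin m => dvec E P.Ψ q (0, Pi.single i 1) := by
  rw [Fintype.linearIndependent_iff]
  intro c hc i
  by_contra hne
  rw [Vol_sum P hq] at hc
  exact P.dvec_ne hq (fun h0 : c = 0 => hne (by rw [h0]; rfl)) hc

/-- `β ^ m` is positive on the vertical frame if `β` is positive on the vertical vectors. -/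
private theorem Vol_pw (P : PC E F π m) (hol : ContMDiff 𝓘(ℂ, E) 𝓘(ℂ, F) ω π) (β : Form E X)
    {q : F × (Fin m → ℂ)} (hq : q ∈ P.O) (hv : VPos F π β.val (P.Ψ q)) :
    0 < pw (β.val (P.Ψ q)) m (dbl fun i => dvec E P.Ψ q (0, Pi.single i 1)) := by
  let L : (Fin m → ℂ) →L[ℝ] E := (dvec E P.Ψ q).comp (ContinuousLinearMap.inr ℝ F (Fin m → ℂ))
  have hL : ∀ z, L z = dvec E P.Ψ q (0, z) := fun z => rfl
  have hI : ∀ z, L (Complex.I • z) = Complex.I • L z := by
    intro z
    rw [hL, hL, ← (P.hol q hq).smul_I]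
    congr 1
    rw [Prod.smul_mk, smul_zero]
  have h1 : 0 < pw ((β.val (P.Ψ q)).bilinearComp L L) m
      (dbl fun i : Fin m => (Pi.single i 1 : Fin m → ℂ)) := by
    refine pw_pos (a := (β.val (P.Ψ q)).bilinearComp L L) (fun u => β.alt (P.Ψ q) (L u)) (fun u v => ?_)
      (fun v hv0 => ?_) _ ?_
    · show β.val _ (L (Complex.I • u)) (L (Complex.I • v)) = β.val _ (L u) (L v)
      rw [hI, hI, β.j]
    · show 0 < β.val _ (L v) (L (Complex.I • v))
      rw [hI]
      refine hv _ (P.dvec_ne hq hv0) ?_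
      exact (P.vert_iff hol hq _).2 ⟨v, rfl⟩
    · rw [Fintype.linearIndependent_iff]
      intro c hc i
      have h2 := congrFun hc i
      simpa [Finset.sum_apply, Pi.single_apply] using h2
  rw [pw_comp_apply] at h1
  have h3 : (fun j => L (dbl (fun i : Fin m => (Pi.single i 1 : Fin m → ℂ)) j)) =
      dbl fun i => dvec E P.Ψ q (0, Pi.single i 1) := by
    funext j
    unfold dbl
    split_ifs
    · rfl
    · rw [hI]
      rfl
  have h4 : pw (β.val (P.Ψ q)) m (fun j => L (dbl (fun i : Fin m => (Pi.single i 1 : Fin m → ℂ)) j)) =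
      pw (β.val (P.Ψ q)) m (dbl fun i => dvec E P.Ψ q (0, Pi.single i 1)) := by rw [h3]
  rw [← h4]
  exact h1

/-- on every fibre there is a point at which `β` is positive on the vertical vectors, if there is one on some fibre -/
theorem fib_point_v [ConnectedSpace B] (h : Fibn E F π m) (β : Form E X) (hβ : β.Semi) (x0 : X)
    (hx0 : VPos F π β.val x0) (b : B) : ∃ x, π x = b ∧ VPos F π β.val x := by
  obtain ⟨d⟩ := exists_FD h
  -- the integrands are nonnegative
  have hpn : ∀ i q, q ∈ (d.P i).O → 0 ≤ pw (β.val ((d.P i).Ψ q)) m ((d.P i).vf q) := by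
    intro i q hq
    rw [Vol_vf (d.P i) hq]
    exact pw_nonneg (β.alt _) (β.j _) (hβ _) _
  have hnn : ∀ i (q : F × (Fin m → ℂ)), 0 ≤ (d.P i).O.indicator
      (fun q => (d.χ i ((d.P i).Ψ q) • pw (β.val ((d.P i).Ψ q)) m) ((d.P i).vf q)) q := by
    intro i
    exact Set.indicator_nonneg fun q hq => mul_nonneg (d.nonneg i _) (hpn i q hq)
  have hfi : ∀ i b', 0 ≤ fi (d.P i) (fun x => d.χ i x • pw (β.val x) m) b' := by
    intro i b'
    unfold fi
    split_ifs
    · exact integral_nonneg fun w => hnn i _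
    · exact le_rfl
  -- the fibre integral is positive over `π x0`
  have hpos : 0 < fvol d β (π x0) := by
    obtain ⟨i, hi⟩ : ∃ i, 0 < d.χ i x0 := by
      by_contra hno
      have h1 : ∑ i, d.χ i x0 ≤ 0 := by
        refine Finset.sum_nonpos fun i _ => ?_
        by_contra h2
        exact hno ⟨i, not_le.1 h2⟩
      rw [d.sum x0] at h1
      exact absurd h1 (by norm_num)
    obtain ⟨q0, hq0, hx⟩ := d.supp i (subset_tsupport _ (ne_of_gt hi : d.χ i x0 ≠ 0))
    have hbase := (d.P i).base hq0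
    rw [hx] at hbase
    have hint : 0 < fi (d.P i) (fun x => d.χ i x • pw (β.val x) m) (π x0) := by
      rw [fi_eq_extF]
      unfold extF
      rw [if_pos hbase.1, hbase.2]
      have hsm := Fi_smooth (d.P i) β (d.sm i) (d.supp i)
      have hcp : HasCompactSupport (Fi (d.P i) (d.χ i) β) := cut_compact (d.P i) (d.supp i) _
      have hcw : Continuous fun z : Fin m → ℂ => Fi (d.P i) (d.χ i) β (q0.1, z) :=
        hsm.continuous.comp (by fun_prop)
      have hge : ∀ q, 0 ≤ Fi (d.P i) (d.χ i) β q := by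
        intro q
        unfold Fi
        refine Set.indicator_nonneg (fun q hq => ?_) q
        rw [← beta_chart (d.P i) β, smul_eq_mul]
        exact mul_nonneg (d.nonneg i _) (hpn i q hq)
      have hgt : Fi (d.P i) (d.χ i) β q0 ≠ 0 := by
        unfold Fi
        rw [Set.indicator_of_mem hq0, ← beta_chart (d.P i) β, smul_eq_mul, Vol_vf (d.P i) hq0]
        refine (mul_pos (by rw [hx]; exact hi) (Vol_pw (d.P i) h.hol β hq0 (by rw [hx]; exact hx0))).ne'
      have hint2 := J_integrable hsm.continuous hcp q0.1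
      have h4 := (integral_pos_iff_support_of_nonneg (fun w => hge (q0.1, w)) hint2).2
        (hcw.isOpen_support.measure_pos volume ⟨q0.2, hgt⟩)
      exact h4
    have h5 : fi (d.P i) (fun x => d.χ i x • pw (β.val x) m) (π x0) ≤ fvol d β (π x0) :=
      Finset.single_le_sum (f := fun i => fi (d.P i) (fun x => d.χ i x • pw (β.val x) m) (π x0))
        (fun j _ => hfi j _) (Finset.mem_univ i)
    exact lt_of_lt_of_le hint h5
  rw [const_of_dF (fvol_smF d β) (fun b => fvol_dF h d β b) (π x0) b] at hpos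
  obtain ⟨i, hi⟩ : ∃ i, 0 < fi (d.P i) (fun x => d.χ i x • pw (β.val x) m) b := by
    by_contra hno
    have h1 : fvol d β b ≤ 0 := by
      refine Finset.sum_nonpos fun i _ => ?_
      by_contra h2
      exact hno ⟨i, not_le.1 h2⟩
    exact absurd h1 (not_le.2 hpos)
  unfold fi at hi
  by_cases hb : b ∈ (chartAt F (d.P i).c).source
  · rw [if_pos hb] at hi
    obtain ⟨w, hw⟩ : ∃ w : Fin m → ℂ, (d.P i).O.indicator
        (fun q => (d.χ i ((d.P i).Ψ q) • pw (β.val ((d.P i).Ψ q)) m) ((d.P i).vf q))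
          (chartAt F (d.P i).c b, w) ≠ 0 := by
      by_contra hno
      have h2 : ∀ w : Fin m → ℂ, (d.P i).O.indicator
        (fun q => (d.χ i ((d.P i).Ψ q) • pw (β.val ((d.P i).Ψ q)) m) ((d.P i).vf q))
          (chartAt F (d.P i).c b, w) = 0 := by
        intro w
        by_contra h3
        exact hno ⟨w, h3⟩
      have h4 := integral_eq_zero_of_ae (μ := (volume : Measure (Fin m → ℂ))) (Filter.Eventually.of_forall h2)
      rw [h4] at hi
      exact lt_irrefl _ hi
    have hq : (chartAt F (d.P i).c b, w) ∈ (d.P i).O := by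
      by_contra hq
      exact hw (Set.indicator_of_notMem hq _)
    rw [Set.indicator_of_mem hq] at hw
    have hne : pw (β.val ((d.P i).Ψ (chartAt F (d.P i).c b, w))) m ((d.P i).vf (chartAt F (d.P i).c b, w)) ≠ 0 :=
      right_ne_zero_of_mul hw
    have hbp := lt_of_le_of_ne (hpn i _ hq) (Ne.symm hne)
    rw [Vol_vf (d.P i) hq] at hbp
    refine ⟨(d.P i).Ψ (chartAt F (d.P i).c b, w), ?_, ?_⟩
    · rw [(d.P i).proj _ hq]
      exact (chartAt F (d.P i).c).left_inv hb
    · intro ξ hξ hv
      obtain ⟨r, rfl⟩ := ((d.P i).vert_iff h.hol hq ξ).1 hv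
      have hr : r ≠ 0 := by
        rintro rfl
        exact hξ (map_zero _)
      have h6 := pos_of_pw (β.alt _) (β.j _) (hβ _) _ hbp r hr
      rw [Vol_sum (d.P i) hq] at h6
      exact h6
  · rw [if_neg hb] at hi
    exact absurd hi (lt_irrefl _)

/-- on every fibre there is a point at which `β` is positive on the vertical vectors -/
theorem fib_point [ConnectedSpace B] (h : Fibn E F π m) (β : Form E X) (hβ : β.Semi) (x0 : X)
    (hx0 : β.PosAt x0) (b : B) : ∃ x, π x = b ∧ VPos F π β.val x :=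
  fib_point_v h β hβ x0 (fun ξ hξ _ => hx0 ξ hξ) b

end Pool.Agent.FBN
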