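import Pool.Agent.FBN.HBc
import Pool.Agent.FBN.HBp
import Pool.Agent.FBN.Vol
import Pool.Agent.FBR.MkForm

/-!
# FBN/BStep: the base of a smooth fibration inherits a semi-positive form of positive volume
-/

set_option autoImplicit false

noncomputable section

open scoped Manifold ContDiff Classical

namespace Pool.Agent.FBN

open Pool.Agent.FBR

universe u

theorem base_semiPos (M B : CM.{u}) (π : M.X → B.X) (m : ℕ) (hπ : Fibn M.E B.E π m) (h : SemiPos M) :
    SemiPos B := by
  obtain ⟨β, hβ, x0, hx0⟩ := h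
  obtain ⟨d⟩ := exists_FD hπ
  obtain ⟨c, hc⟩ := exists_form_coef (hb d β) (hb_alt d β) (hb_I d β)
    (fun p y hy => hb_coef_smooth d β hy) (fun p y hy u v w => hb_coef_closed hπ d β hy u v w)
  refine ⟨c, ?_, π x0, ?_⟩
  · intro b v
    rw [hc]
    exact hb_semi d hβ b v
  · intro v hv
    rw [hc]
    exact hb_pos d hβ hx0 hv

end Pool.Agent.FBN
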