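import Pool.Agent.FBN.Ex1

/-!
# FBN/ExD: exterior derivative of `m a ^ k`

PROOF PLAN.  Write `A` for `alternatizeUncurryFin` (on maps with values in alternating forms), so `extDeriv ω x = A (fderiv ℝ ω x)` and
`w2 a η = A (x ↦ A (y ↦ a x y • η))`, `w1 l η = A (x ↦ l x • η)`.
(1) swap: for bilinear `f : W →L W →L W [⋀^Fin n]→L ℝ`, `A (x ↦ A (y ↦ f x y)) = - A (x ↦ A (y ↦ f y x))`: apply
`alternatizeUncurryFin_alternatizeUncurryFinCLM_comp_of_symmetric` to `f + flip f`.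
(2) Hence in `A (z ↦ A (x ↦ A (y ↦ g z x y)))` the arguments can be permuted cyclically without a sign (two swaps: swap `z, x`
by (1) with values in forms of degree `n + 1`, and `x, y` inside `A`).
(3) `extDeriv (w2 a η) = A_z A_x A_y ((D_z a) x y • η + a x y • D_z η)`.  The first term is `(1/3)` of the sum over the cyclic permutations
of `z, x, y`, which is `0` by `Closed2`.  The second is, by (2), `A_x A_y A_z (a x y • D_z η) = A_x A_y (a x y • extDeriv η) = w2 a (extDeriv η)`.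
So `extDeriv_w2`; `extDeriv_pw` by induction on `k` (`w2 a 0 = 0`; `k = 0`: the derivative of a constant).
Differentiability of `q ↦ pw (a q) k`: `pw_smooth` composed with `a`.
(4) `extDeriv_smul`: `D_x (m η) = (D_x m) • η + m • D_x η`; `A` is linear.
-/

set_option autoImplicit false
set_option maxSynthPendingDepth 3

noncomputable section

open scoped ContDiff

open ContinuousAlternatingMap

namespace Pool.Agent.FBN

open Pool.Agent.FBR

variable {W : Type*} [NormedAddCommGroup W] [NormedSpace ℝ W] {n : ℕ}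

/-- twice alternatized -/
private def ExD_C2 : (W →L[ℝ] W →L[ℝ] W [⋀^Fin n]→L[ℝ] ℝ) →L[ℝ] W [⋀^Fin (n + 2)]→L[ℝ] ℝ :=
  alternatizeUncurryFinCLM ℝ W ℝ ∘L
    (ContinuousLinearMap.compL ℝ W (W →L[ℝ] W [⋀^Fin n]→L[ℝ] ℝ) (W [⋀^Fin (n + 1)]→L[ℝ] ℝ)
      (alternatizeUncurryFinCLM ℝ W ℝ))

private theorem ExD_C2_apply (f : W →L[ℝ] W →L[ℝ] W [⋀^Fin n]→L[ℝ] ℝ) :
    ExD_C2 f = alternatizeUncurryFin (alternatizeUncurryFinCLM ℝ W ℝ ∘L f) := rfl

private theorem ExD_swap (f : W →L[ℝ] W →L[ℝ] W [⋀^Fin n]→L[ℝ] ℝ) :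
    alternatizeUncurryFin (alternatizeUncurryFinCLM ℝ W ℝ ∘L f)
      = -alternatizeUncurryFin (alternatizeUncurryFinCLM ℝ W ℝ ∘L f.flip) := by
  have h := alternatizeUncurryFin_alternatizeUncurryFinCLM_comp_of_symmetric (f := f + f.flip)
    (fun x y => by simp [add_comm])
  rw [ContinuousLinearMap.comp_add, alternatizeUncurryFin_add] at h
  exact eq_neg_of_add_eq_zero_left h

private def ExD_T (g : W →L[ℝ] W →L[ℝ] W →L[ℝ] W [⋀^Fin n]→L[ℝ] ℝ) :
    W [⋀^Fin (n + 3)]→L[ℝ] ℝ :=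
  alternatizeUncurryFin (ExD_C2 ∘L g)

private theorem ExD_T_add (g g' : W →L[ℝ] W →L[ℝ] W →L[ℝ] W [⋀^Fin n]→L[ℝ] ℝ) :
    ExD_T (g + g') = ExD_T g + ExD_T g' := by
  unfold ExD_T
  rw [ContinuousLinearMap.comp_add, alternatizeUncurryFin_add]

private theorem ExD_swap12 (g : W →L[ℝ] W →L[ℝ] W →L[ℝ] W [⋀^Fin n]→L[ℝ] ℝ) :
    ExD_T g = -ExD_T g.flip := by
  have h := ExD_swap (n := n + 1)
    ((ContinuousLinearMap.compL ℝ W (W →L[ℝ] W [⋀^Fin n]→L[ℝ] ℝ) (W [⋀^Fin (n + 1)]→L[ℝ] ℝ)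
      (alternatizeUncurryFinCLM ℝ W ℝ)) ∘L g)
  have h2 : ((ContinuousLinearMap.compL ℝ W (W →L[ℝ] W [⋀^Fin n]→L[ℝ] ℝ)
      (W [⋀^Fin (n + 1)]→L[ℝ] ℝ) (alternatizeUncurryFinCLM ℝ W ℝ)) ∘L g).flip
      = (ContinuousLinearMap.compL ℝ W (W →L[ℝ] W [⋀^Fin n]→L[ℝ] ℝ)
      (W [⋀^Fin (n + 1)]→L[ℝ] ℝ) (alternatizeUncurryFinCLM ℝ W ℝ)) ∘L g.flip := by
    ext x z v
    simp
  rw [h2] at h
  exact h

private theorem ExD_swap23 (g g' : W →L[ℝ] W →L[ℝ] W →L[ℝ] W [⋀^Fin n]→L[ℝ] ℝ)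
    (h : ∀ z x y, g' z x y = g z y x) : ExD_T g = -ExD_T g' := by
  have h1 : ExD_C2 ∘L g = -(ExD_C2 ∘L g') := by
    apply ContinuousLinearMap.ext
    intro z
    have h2 : g' z = (g z).flip := by
      apply ContinuousLinearMap.ext
      intro x
      apply ContinuousLinearMap.ext
      intro y
      rw [h z x y]
      rfl
    change ExD_C2 (g z) = -ExD_C2 (g' z)
    rw [h2]
    exact ExD_swap (g z)
  unfold ExD_T
  rw [h1]
  exact map_neg (alternatizeUncurryFinCLM ℝ W ℝ) _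

private theorem ExD_cyc (g g' : W →L[ℝ] W →L[ℝ] W →L[ℝ] W [⋀^Fin n]→L[ℝ] ℝ)
    (h : ∀ z x y, g' z x y = g y z x) : ExD_T g = ExD_T g' := by
  rw [ExD_swap12 g, ExD_swap23 g.flip g' (fun z x y => h z x y), neg_neg]

private def ExD_FL : (W →L[ℝ] W →L[ℝ] W [⋀^Fin n]→L[ℝ] ℝ) →L[ℝ]
    (W →L[ℝ] W →L[ℝ] W [⋀^Fin n]→L[ℝ] ℝ) :=
  (ContinuousLinearMap.flipₗᵢ ℝ W W (W [⋀^Fin n]→L[ℝ] ℝ)).toContinuousLinearEquiv

private theorem ExD_cyc_zero (g : W →L[ℝ] W →L[ℝ] W →L[ℝ] W [⋀^Fin n]→L[ℝ] ℝ)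
    (h : ∀ x y z, g x y z + g y z x + g z x y = 0) : ExD_T g = 0 := by
  have e2 := ExD_cyc g (ExD_FL ∘L g.flip) (fun z x y => rfl)
  have e3 := ExD_cyc (ExD_FL ∘L g.flip) (ExD_FL ∘L (ExD_FL ∘L g.flip).flip) (fun z x y => rfl)
  have h1 : g + ExD_FL ∘L g.flip + ExD_FL ∘L (ExD_FL ∘L g.flip).flip = 0 := by
    apply ContinuousLinearMap.ext
    intro x
    apply ContinuousLinearMap.ext
    intro y
    apply ContinuousLinearMap.ext
    intro z
    change g x y z + g z x y + g y z x = 0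
    rw [add_right_comm]
    exact h x y z
  have h2 : ExD_T (g + ExD_FL ∘L g.flip + ExD_FL ∘L (ExD_FL ∘L g.flip).flip) = 0 := by
    rw [h1]
    unfold ExD_T
    rw [ContinuousLinearMap.comp_zero]
    exact map_zero (alternatizeUncurryFinCLM ℝ W ℝ)
  rw [ExD_T_add, ExD_T_add, ← e3, ← e2] at h2
  have h3 : (3 : ℝ) • ExD_T g = 0 := by
    rw [← h2]
    module
  exact (smul_eq_zero.1 h3).resolve_left (by norm_num)

private theorem ExD_w2 (a : Bil W) (η : W [⋀^Fin n]→L[ℝ] ℝ) :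
    w2 a η = ExD_C2 ((ContinuousLinearMap.smulRightL ℝ W (W [⋀^Fin n]→L[ℝ] ℝ)).flip η ∘L a) := rfl

theorem extDeriv_w2 (a : W → Bil W) (η : W → W [⋀^Fin n]→L[ℝ] ℝ) (q : W) (ha : DifferentiableAt ℝ a q)
    (hη : DifferentiableAt ℝ η q) (hc : Closed2 a q) :
    extDeriv (fun q' => w2 (a q') (η q')) q = w2 (a q) (extDeriv η q) := by
  have hB : HasFDerivAt (fun q' => (ContinuousLinearMap.smulRightL ℝ W (W [⋀^Fin n]→L[ℝ] ℝ)).flip
      (η q')) ((ContinuousLinearMap.smulRightL ℝ W (W [⋀^Fin n]→L[ℝ] ℝ)).flip ∘L fderiv ℝ η q) q :=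
    (ContinuousLinearMap.smulRightL ℝ W (W [⋀^Fin n]→L[ℝ] ℝ)).flip.hasFDerivAt.comp q
      hη.hasFDerivAt
  have h1 := hB.clm_comp ha.hasFDerivAt
  have h2 := (ExD_C2 (W := W) (n := n)).hasFDerivAt.comp q h1
  have h3 : extDeriv (fun q' => w2 (a q') (η q')) q = alternatizeUncurryFin
      (fderiv ℝ ((ExD_C2 (W := W) (n := n)) ∘ fun y =>
        (ContinuousLinearMap.smulRightL ℝ W (W [⋀^Fin n]→L[ℝ] ℝ)).flip (η y) ∘L a y) q) := rfl
  rw [h3, h2.fderiv]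
  change ExD_T _ = _
  rw [ExD_T_add]
  rw [ExD_cyc_zero, zero_add]
  · have h4 := ExD_cyc ((ContinuousLinearMap.compL ℝ W (W →L[ℝ] ℝ)
      (W →L[ℝ] W [⋀^Fin n]→L[ℝ] ℝ)).flip (a q) ∘L
      ((ContinuousLinearMap.smulRightL ℝ W (W [⋀^Fin n]→L[ℝ] ℝ)).flip ∘L fderiv ℝ η q))
      (ExD_FL ∘L ((ContinuousLinearMap.compL ℝ W (W →L[ℝ] ℝ)
      (W →L[ℝ] W [⋀^Fin n]→L[ℝ] ℝ)).flip (a q) ∘L
      ((ContinuousLinearMap.smulRightL ℝ W (W [⋀^Fin n]→L[ℝ] ℝ)).flip ∘L fderiv ℝ η q)).flip)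
      (fun z x y => rfl)
    refine h4.trans ?_
    rw [ExD_w2]
    unfold ExD_T
    change alternatizeUncurryFin _ = alternatizeUncurryFin _
    congr 1
    apply ContinuousLinearMap.ext
    intro z
    change alternatizeUncurryFin _ = alternatizeUncurryFin _
    congr 1
    apply ContinuousLinearMap.ext
    intro x
    have h5 : alternatizeUncurryFin ((a q z x) • fderiv ℝ η q) = (a q z x) • extDeriv η q :=
      alternatizeUncurryFin_smul _ _
    refine Eq.trans ?_ h5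
    change alternatizeUncurryFin _ = alternatizeUncurryFin _
    congr 1
  · intro x y z
    change (fderiv ℝ a q x y z) • η q + (fderiv ℝ a q y z x) • η q
      + (fderiv ℝ a q z x y) • η q = 0
    rw [← add_smul, ← add_smul, hc x y z, zero_smul]

theorem extDeriv_pw (a : W → Bil W) (q : W) (ha : DifferentiableAt ℝ a q) (hc : Closed2 a q) (k : ℕ) :
    extDeriv (fun q' => pw (a q') k) q = 0 := by
  induction k with
  | zero =>
    have h : (fun q' => pw (a q') 0) = fun _ => constOfIsEmpty ℝ W (Fin 0) (1 : ℝ) := rfl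
    rw [h, extDeriv, fderiv_fun_const]
    exact map_zero (alternatizeUncurryFinCLM ℝ W ℝ)
  | succ k ih =>
    have h1 : DifferentiableAt ℝ (fun q' => pw (a q') k) q :=
      ((pw_smooth k).differentiable (by simp) (a q)).comp q ha
    have h2 := extDeriv_w2 a (fun q' => pw (a q') k) q ha h1 hc
    rw [ih] at h2
    refine Eq.trans h2 ?_
    rw [ExD_w2, _root_.map_zero, ContinuousLinearMap.zero_comp, _root_.map_zero]

theorem extDeriv_smul (m : W → ℝ) (η : W → W [⋀^Fin n]→L[ℝ] ℝ) (q : W) (hm : DifferentiableAt ℝ m q)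
    (hη : DifferentiableAt ℝ η q) :
    extDeriv (fun q' => m q' • η q') q = w1 (fderiv ℝ m q) (η q) + m q • extDeriv η q := by
  have h : HasFDerivAt (fun q' => m q' • η q') _ q := hm.hasFDerivAt.smul hη.hasFDerivAt
  rw [extDeriv, h.fderiv, alternatizeUncurryFin_add, alternatizeUncurryFin_smul]
  exact add_comm _ _

/-- `d (m a ^ k) = dm ∧ a ^ k` for a closed 2-form `a` -/
theorem extDeriv_mul_pw (m : W → ℝ) (a : W → Bil W) (q : W) (hm : DifferentiableAt ℝ m q)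
    (ha : DifferentiableAt ℝ a q) (hc : Closed2 a q) (k : ℕ) :
    extDeriv (fun q' => m q' • pw (a q') k) q = w1 (fderiv ℝ m q) (pw (a q) k) := by
  have h1 : DifferentiableAt ℝ (fun q' => pw (a q') k) q :=
    ((pw_smooth k).differentiable (by simp) (a q)).comp q ha
  rw [extDeriv_smul m (fun q' => pw (a q') k) q hm h1, extDeriv_pw a q ha hc k, smul_zero, add_zero]

end Pool.Agent.FBN
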