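import Pool.Agent.FBN.Prod
import Pool.Agent.FBN.ExD
import Pool.Agent.FBR.SmFn

/-!
# FBN/Chx: the densities `dχ ∧ β ^ m`, `dχ ∧ β ^ (m + 1)` in product charts

PROOF PLAN.  See the proved `Pool/Agent/FBR/Chx.lean` (fibres of dimension one).  Let `q = (chartAt F P.c b, z)`.
`dmap π (L - dvec E P.Ψ q (tc u, 0)) = 0` (`PC.dmap_tc`), so `L = dvec E P.Ψ q (tc u, 0) + v` with `v` in the real span of `P.vf q` (`PC.vert_span`);
`rep_dF1`, `rep_dG3` remove `v`; `fderiv_fun` gives `fderiv ℝ (φ ∘ P.Ψ) q = (dF E φ (P.Ψ q)).comp (dvec E P.Ψ q)`; `tpb β.val P.Ψ q = (β.val (P.Ψ q)).bilinearComp (dvec ..) (dvec ..)`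
(`rfl` or `tpb_apply`); `dF1_comp`, `dG3_comp`; `P.vf q j = dvec E P.Ψ q (0, fr m j)`.
`..._vcont`: near `z` the density equals the right side at `q' = (chartAt F P.c b, z')`, which is continuous (`dF1_cont`, `dG3_cont`, `tpb_smooth`,
`SmF.at`).  `beta_chart`: `pw_comp_apply`.  `Fi_smooth`, `Gi_smooth`: as in FBR/Chx (`pw_smooth`, `ev2_smooth`; evaluation of forms at fixed
vectors is continuous linear: `ContinuousAlternatingMap.apply`).
-/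

set_option autoImplicit false

noncomputable section

open scoped Manifold ContDiff Classical

open MeasureTheory

namespace Pool.Agent.FBN

open Pool.Agent.FBR

variable {E X : Type*} [NormedAddCommGroup E] [NormedSpace ℂ E] [FiniteDimensional ℂ E]
  [TopologicalSpace X] [ChartedSpace E X] [IsManifold 𝓘(ℂ, E) ω X]
  {F B : Type*} [NormedAddCommGroup F] [NormedSpace ℂ F] [FiniteDimensional ℂ F] [TopologicalSpace B]
  [ChartedSpace F B] [IsManifold 𝓘(ℂ, F) ω B] {π : X → B} {m : ℕ}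

private theorem Chx_rep (hπ : ContMDiff 𝓘(ℂ, E) 𝓘(ℂ, F) ω π) (P : PC E F π m) {b : B}
    (hb : b ∈ (chartAt F P.c).source) {z : Fin m → ℂ} (hq : (chartAt F P.c b, z) ∈ P.O) {L : E} {u : F}
    (hL : dmap E F π (P.Ψ (chartAt F P.c b, z)) L = u) :
    ∃ v ∈ Submodule.span ℝ (Set.range (P.vf (chartAt F P.c b, z))),
      L = dvec E P.Ψ (chartAt F P.c b, z) (tc F P.c b u, 0) + v := by
  have h1 : dmap E F π (P.Ψ (chartAt F P.c b, z))
      (L - dvec E P.Ψ (chartAt F P.c b, z) (tc F P.c b u, 0)) = 0 := by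
    rw [map_sub, hL, P.dmap_tc hπ hb hq, sub_self]
  exact ⟨_, (P.vert_span hπ hq _).1 h1, by abel⟩

omit [FiniteDimensional ℂ E] [FiniteDimensional ℂ F] [IsManifold 𝓘(ℂ, E) ω X] [IsManifold 𝓘(ℂ, F) ω B] in
private theorem Chx_cont1 (P : PC E F π m) {φ : X → ℝ} (hφ : SmF E φ) :
    ContinuousOn (fderiv ℝ (φ ∘ P.Ψ)) P.O := by
  have h : ContDiffOn ℝ ∞ (φ ∘ P.Ψ) P.O := fun q hq => (hφ.at (P.hol q hq).sm).contDiffWithinAt
  exact h.continuousOn_fderiv_of_isOpen P.isOpen (by simp)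

omit [FiniteDimensional ℂ E] [FiniteDimensional ℂ F] [IsManifold 𝓘(ℂ, F) ω B] in
private theorem Chx_sm2 (P : PC E F π m) (β : Form E X) : ContDiffOn ℝ ∞ (tpb β.val P.Ψ) P.O :=
  tpb_smooth β P.isOpen fun q hq => (P.hol q hq).sm

omit [FiniteDimensional ℂ E] [FiniteDimensional ℂ F] [IsManifold 𝓘(ℂ, E) ω X] [IsManifold 𝓘(ℂ, F) ω B] in
private theorem Chx_pt (P : PC E F π m) {b : B} (hb : b ∈ (chartAt F P.c).source) {z : Fin m → ℂ}
    (hq : (chartAt F P.c b, z) ∈ P.O) : π (P.Ψ (chartAt F P.c b, z)) = b := by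
  rw [P.proj _ hq]
  exact (chartAt F P.c).left_inv hb

private theorem Chx_ind {V : Type*} [NormedAddCommGroup V] [NormedSpace ℝ V] [CompactSpace X] [T2Space X]
    (P : PC E F π m) {χ : X → ℝ} (hχ : SmF E χ) (hs : tsupport χ ⊆ P.Ψ '' P.O) {f : F × (Fin m → ℂ) → V}
    (hm : ContDiffOn ℝ ∞ f P.O) : ContDiff ℝ ∞ (P.O.indicator fun q => χ (P.Ψ q) • f q) := by
  have hK : IsCompact {q | q ∈ P.O ∧ P.Ψ q ∈ tsupport χ} :=
    P.isCompact_preim (isClosed_tsupport χ).isCompact hs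
  rw [contDiff_iff_contDiffAt]
  intro q
  by_cases hq : q ∈ P.O
  · have h1 : ContDiffAt ℝ ∞ (fun q => χ (P.Ψ q) • f q) q :=
      (hχ.at (P.hol q hq).sm).smul (hm.contDiffAt (P.isOpen.mem_nhds hq))
    refine h1.congr_of_eventuallyEq ?_
    filter_upwards [P.isOpen.mem_nhds hq] with q' hq'
    exact Set.indicator_of_mem hq' _
  · have h2 : {q | q ∈ P.O ∧ P.Ψ q ∈ tsupport χ}ᶜ ∈ nhds q :=
      hK.isClosed.isOpen_compl.mem_nhds fun h => hq h.1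
    refine (contDiffAt_const (c := (0 : V))).congr_of_eventuallyEq ?_
    filter_upwards [h2] with q' hq'
    by_cases h3 : q' ∈ P.O
    · rw [Set.indicator_of_mem h3, image_eq_zero_of_notMem_tsupport fun h => hq' ⟨h3, h⟩, zero_smul]
    · exact Set.indicator_of_notMem h3 _

theorem dF1_chart (hπ : ContMDiff 𝓘(ℂ, E) 𝓘(ℂ, F) ω π) (P : PC E F π m) (β : Form E X) {φ : X → ℝ}
    (hφ : SmF E φ) {b : B} (hb : b ∈ (chartAt F P.c).source) {z : Fin m → ℂ}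
    (hq : (chartAt F P.c b, z) ∈ P.O) {L : E} {u : F}
    (hL : dmap E F π (P.Ψ (chartAt F P.c b, z)) L = u) :
    dF1 m (dF E φ (P.Ψ (chartAt F P.c b, z))) (β.val (P.Ψ (chartAt F P.c b, z))) L
        (P.vf (chartAt F P.c b, z)) =
      dF1 m (fderiv ℝ (φ ∘ P.Ψ) (chartAt F P.c b, z)) (tpb β.val P.Ψ (chartAt F P.c b, z))
        (tc F P.c b u, 0) (fun j => (0, fr m j)) := by
  obtain ⟨v, hv, hr⟩ := Chx_rep hπ P hb hq hL
  rw [hr, rep_dF1 m _ _ _ _ hv, fderiv_fun hφ (P.hol _ hq).sm]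
  exact (dF1_comp m (dF E φ (P.Ψ (chartAt F P.c b, z))) (β.val (P.Ψ (chartAt F P.c b, z)))
    (dvec E P.Ψ (chartAt F P.c b, z)) (tc F P.c b u, 0) (fun j => (0, fr m j))).symm

theorem dG3_chart (hπ : ContMDiff 𝓘(ℂ, E) 𝓘(ℂ, F) ω π) (P : PC E F π m) (β : Form E X) {φ : X → ℝ}
    (hφ : SmF E φ) {b : B} (hb : b ∈ (chartAt F P.c).source) {z : Fin m → ℂ}
    (hq : (chartAt F P.c b, z) ∈ P.O) {L1 L2 L3 : E} {u1 u2 u3 : F}
    (h1 : dmap E F π (P.Ψ (chartAt F P.c b, z)) L1 = u1)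
    (h2 : dmap E F π (P.Ψ (chartAt F P.c b, z)) L2 = u2)
    (h3 : dmap E F π (P.Ψ (chartAt F P.c b, z)) L3 = u3) :
    dG3 m (dF E φ (P.Ψ (chartAt F P.c b, z))) (β.val (P.Ψ (chartAt F P.c b, z))) L1 L2 L3
        (P.vf (chartAt F P.c b, z)) =
      dG3 m (fderiv ℝ (φ ∘ P.Ψ) (chartAt F P.c b, z)) (tpb β.val P.Ψ (chartAt F P.c b, z))
        (tc F P.c b u1, 0) (tc F P.c b u2, 0) (tc F P.c b u3, 0) (fun j => (0, fr m j)) := by
  obtain ⟨v1, hv1, hr1⟩ := Chx_rep hπ P hb hq h1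
  obtain ⟨v2, hv2, hr2⟩ := Chx_rep hπ P hb hq h2
  obtain ⟨v3, hv3, hr3⟩ := Chx_rep hπ P hb hq h3
  rw [hr1, hr2, hr3, rep_dG3 m _ _ _ _ _ _ hv1 hv2 hv3, fderiv_fun hφ (P.hol _ hq).sm]
  exact (dG3_comp m (dF E φ (P.Ψ (chartAt F P.c b, z))) (β.val (P.Ψ (chartAt F P.c b, z)))
    (dvec E P.Ψ (chartAt F P.c b, z)) (tc F P.c b u1, 0) (tc F P.c b u2, 0) (tc F P.c b u3, 0)
    (fun j => (0, fr m j))).symm

theorem dF1_vcont (hπ : ContMDiff 𝓘(ℂ, E) 𝓘(ℂ, F) ω π) (β : Form E X) {φ : X → ℝ} (hφ : SmF E φ) {b : B}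
    {L : X → E} {u : F} (hL : ∀ x, π x = b → dmap E F π x (L x) = u) :
    VCont F π m (fun x => dF1 m (dF E φ x) (β.val x) (L x)) b := by
  intro P hb z hz
  have hc : ContinuousAt (fun z' : Fin m → ℂ => (chartAt F P.c b, z')) z := by fun_prop
  have hev : ∀ᶠ z' in nhds z, (chartAt F P.c b, z') ∈ P.O := hc.eventually (P.isOpen.mem_nhds hz)
  have h1 : ContinuousAt (fderiv ℝ (φ ∘ P.Ψ)) (chartAt F P.c b, z) :=
    (Chx_cont1 P hφ).continuousAt (P.isOpen.mem_nhds hz)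
  have h2 : ContinuousAt (tpb β.val P.Ψ) (chartAt F P.c b, z) :=
    (Chx_sm2 P β).continuousOn.continuousAt (P.isOpen.mem_nhds hz)
  have h3 : ContinuousAt (fun q => dF1 m (fderiv ℝ (φ ∘ P.Ψ) q) (tpb β.val P.Ψ q) (tc F P.c b u, 0)
      (fun j => (0, fr m j))) (chartAt F P.c b, z) :=
    ContinuousAt.comp (f := fun q => (fderiv ℝ (φ ∘ P.Ψ) q, tpb β.val P.Ψ q))
      (dF1_cont m (tc F P.c b u, 0) (fun j => (0, fr m j))).continuousAt (h1.prodMk h2)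
  have h4 : ContinuousAt (fun z' : Fin m → ℂ => dF1 m (fderiv ℝ (φ ∘ P.Ψ) (chartAt F P.c b, z'))
      (tpb β.val P.Ψ (chartAt F P.c b, z')) (tc F P.c b u, 0) (fun j => (0, fr m j))) z :=
    ContinuousAt.comp (f := fun z' : Fin m → ℂ => (chartAt F P.c b, z')) h3 hc
  refine h4.congr ?_
  filter_upwards [hev] with z' hz'
  exact (dF1_chart hπ P β hφ hb hz' (hL _ (Chx_pt P hb hz'))).symm

theorem dG3_vcont (hπ : ContMDiff 𝓘(ℂ, E) 𝓘(ℂ, F) ω π) (β : Form E X) {φ : X → ℝ} (hφ : SmF E φ) {b : B}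
    {L1 L2 L3 : X → E} {u1 u2 u3 : F} (h1 : ∀ x, π x = b → dmap E F π x (L1 x) = u1)
    (h2 : ∀ x, π x = b → dmap E F π x (L2 x) = u2) (h3 : ∀ x, π x = b → dmap E F π x (L3 x) = u3) :
    VCont F π m (fun x => dG3 m (dF E φ x) (β.val x) (L1 x) (L2 x) (L3 x)) b := by
  intro P hb z hz
  have hc : ContinuousAt (fun z' : Fin m → ℂ => (chartAt F P.c b, z')) z := by fun_prop
  have hev : ∀ᶠ z' in nhds z, (chartAt F P.c b, z') ∈ P.O := hc.eventually (P.isOpen.mem_nhds hz)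
  have g1 : ContinuousAt (fderiv ℝ (φ ∘ P.Ψ)) (chartAt F P.c b, z) :=
    (Chx_cont1 P hφ).continuousAt (P.isOpen.mem_nhds hz)
  have g2 : ContinuousAt (tpb β.val P.Ψ) (chartAt F P.c b, z) :=
    (Chx_sm2 P β).continuousOn.continuousAt (P.isOpen.mem_nhds hz)
  have g3 : ContinuousAt (fun q => dG3 m (fderiv ℝ (φ ∘ P.Ψ) q) (tpb β.val P.Ψ q) (tc F P.c b u1, 0)
      (tc F P.c b u2, 0) (tc F P.c b u3, 0) (fun j => (0, fr m j))) (chartAt F P.c b, z) :=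
    ContinuousAt.comp (f := fun q => (fderiv ℝ (φ ∘ P.Ψ) q, tpb β.val P.Ψ q))
      (dG3_cont m (tc F P.c b u1, 0) (tc F P.c b u2, 0) (tc F P.c b u3, 0)
        (fun j => (0, fr m j))).continuousAt (g1.prodMk g2)
  have g4 : ContinuousAt (fun z' : Fin m → ℂ => dG3 m (fderiv ℝ (φ ∘ P.Ψ) (chartAt F P.c b, z'))
      (tpb β.val P.Ψ (chartAt F P.c b, z')) (tc F P.c b u1, 0) (tc F P.c b u2, 0) (tc F P.c b u3, 0)
      (fun j => (0, fr m j))) z :=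
    ContinuousAt.comp (f := fun z' : Fin m → ℂ => (chartAt F P.c b, z')) g3 hc
  refine g4.congr ?_
  filter_upwards [hev] with z' hz'
  exact (dG3_chart hπ P β hφ hb hz' (h1 _ (Chx_pt P hb hz')) (h2 _ (Chx_pt P hb hz'))
    (h3 _ (Chx_pt P hb hz'))).symm

omit [FiniteDimensional ℂ E] [IsManifold 𝓘(ℂ, E) ω X] [FiniteDimensional ℂ F] [IsManifold 𝓘(ℂ, F) ω B] in
/-- the vertical part of `β ^ m` in a product chart -/
theorem beta_chart (P : PC E F π m) (β : Form E X) (q : F × (Fin m → ℂ)) :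
    pw (β.val (P.Ψ q)) m (P.vf q) = pw (tpb β.val P.Ψ q) m fun j => (0, fr m j) := by
  exact (pw_comp_apply (β.val (P.Ψ q)) m (dvec E P.Ψ q) (fun j => (0, fr m j))).symm

theorem Fi_smooth [CompactSpace X] [T2Space X] (P : PC E F π m) (β : Form E X) {χ : X → ℝ} (hχ : SmF E χ)
    (hs : tsupport χ ⊆ P.Ψ '' P.O) : ContDiff ℝ ∞ (Fi P χ β) := by
  refine Chx_ind P hχ hs ?_
  exact (ContinuousAlternatingMap.apply ℝ (F × (Fin m → ℂ)) ℝ
    (fun j : Fin (2 * m) => ((0, fr m j) : F × (Fin m → ℂ)))).contDiff.comp_contDiffOn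
    ((pw_smooth m).comp_contDiffOn (Chx_sm2 P β))

theorem Gi_smooth [CompactSpace X] [T2Space X] (P : PC E F π m) (β : Form E X) {χ : X → ℝ} (hχ : SmF E χ)
    (hs : tsupport χ ⊆ P.Ψ '' P.O) : ContDiff ℝ ∞ (Gi P χ β) := by
  exact Chx_ind P hχ hs (ev2_smooth.comp_contDiffOn ((pw_smooth (m + 1)).comp_contDiffOn (Chx_sm2 P β)))

end Pool.Agent.FBN
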