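import Pool.Agent.FBR.CDefs

/-!
# FBN: exterior algebra and product charts, fibres of arbitrary dimension (definitions)

`K = Fin m → ℂ`.  `fr m` is the standard real frame `(e₀, i e₀, e₁, i e₁, ...)` of `K`.
-/

set_option autoImplicit false

noncomputable section

open scoped Manifold ContDiff Classical

open ContinuousAlternatingMap

namespace Pool.Agent.FBN

open Pool.Agent.FBR

section Alg

variable {W : Type*} [NormedAddCommGroup W] [NormedSpace ℝ W] {n : ℕ}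

/-- `l ∧ η` -/
def w1 (l : W →L[ℝ] ℝ) (η : W [⋀^Fin n]→L[ℝ] ℝ) : W [⋀^Fin (n + 1)]→L[ℝ] ℝ :=
  alternatizeUncurryFin (l.smulRight η)

/-- `2 (a ∧ η)` -/
def w2 (a : Bil W) (η : W [⋀^Fin n]→L[ℝ] ℝ) : W [⋀^Fin (n + 2)]→L[ℝ] ℝ :=
  alternatizeUncurryFin (alternatizeUncurryFinCLM ℝ W ℝ ∘L
    ((ContinuousLinearMap.smulRightL ℝ W (W [⋀^Fin n]→L[ℝ] ℝ)).flip η ∘L a))

/-- `2 ^ k a ∧ ... ∧ a` (`k` factors) -/
def pw (a : Bil W) : (k : ℕ) → W [⋀^Fin (2 * k)]→L[ℝ] ℝ
  | 0 => constOfIsEmpty ℝ W (Fin 0) (1 : ℝ)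
  | k + 1 => w2 a (pw a k)

/-- insert three vectors -/
def ins3 (a : W [⋀^Fin (n + 3)]→L[ℝ] ℝ) (u v w : W) : W [⋀^Fin n]→L[ℝ] ℝ :=
  ((a.curryLeft u).curryLeft v).curryLeft w

/-- `l ∧ a ^ m` with the vector `u` inserted -/
def dF1 (m : ℕ) (l : W →L[ℝ] ℝ) (a : Bil W) (u : W) : W [⋀^Fin (2 * m)]→L[ℝ] ℝ :=
  (w1 l (pw a m)).curryLeft u

/-- `l ∧ a ^ (m + 1)` with the vectors `u, v, w` inserted -/
def dG3 (m : ℕ) (l : W →L[ℝ] ℝ) (a : Bil W) (u v w : W) : W [⋀^Fin (2 * m)]→L[ℝ] ℝ :=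
  ins3 (n := 2 * m) (w1 l (pw a (m + 1))) u v w

end Alg

section Fr

/-- the index of a complex coordinate -/
def ix {m : ℕ} (j : Fin (2 * m)) : Fin m := ⟨j.1 / 2, by omega⟩

/-- The sequence `v 0, i v 0, v 1, i v 1, ...`. -/
def dbl {H : Type*} [NormedAddCommGroup H] [NormedSpace ℂ H] {m : ℕ} (v : Fin m → H) (j : Fin (2 * m)) : H :=
  if j.1 % 2 = 0 then v (ix j) else Complex.I • v (ix j)

/-- the standard real frame of `Fin m → ℂ` -/
def fr (m : ℕ) : Fin (2 * m) → (Fin m → ℂ) := dbl fun i => Pi.single i 1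

end Fr

section Ev

variable {F : Type*} [NormedAddCommGroup F] [NormedSpace ℂ F] {m : ℕ}

/-- The 2-form `(u, v) ↦ a (u, v, frame of the fibre)` on `F`, for a form `a` on `F × (Fin m → ℂ)`. -/
def ev2 (a : (F × (Fin m → ℂ)) [⋀^Fin (2 * m + 2)]→L[ℝ] ℝ) : Bil F :=
  ((((ContinuousLinearMap.compL ℝ (F × (Fin m → ℂ)) _ _)
    (ContinuousAlternatingMap.apply ℝ (F × (Fin m → ℂ)) ℝ fun j : Fin (2 * m) => (0, fr m j)) ∘L
    ((ContinuousAlternatingMap.curryLeftLI (𝕜 := ℝ) (E := F × (Fin m → ℂ)) (F := ℝ)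
      (n := 2 * m)).toContinuousLinearMap)) ∘L a.curryLeft).bilinearComp
    (ContinuousLinearMap.inl ℝ F (Fin m → ℂ)) (ContinuousLinearMap.inl ℝ F (Fin m → ℂ)))

end Ev


/-! ### Fibre spaces -/

section Maps

variable (E F : Type*) {X B : Type*} [NormedAddCommGroup E] [NormedSpace ℂ E] [TopologicalSpace X]
  [ChartedSpace E X] [NormedAddCommGroup F] [NormedSpace ℂ F] [TopologicalSpace B]
  [ChartedSpace F B]

/-- `π` is a holomorphic submersion, all fibres of which are connected and of dimension `m`. -/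
structure Fibn (π : X → B) (m : ℕ) : Prop where
  hol : ContMDiff 𝓘(ℂ, E) 𝓘(ℂ, F) ω π
  subm : ∀ x, Function.Surjective (mfderiv 𝓘(ℂ, E) 𝓘(ℂ, F) π x)
  dim : Module.finrank ℂ E = Module.finrank ℂ F + m
  conn : ∀ b, IsConnected (π ⁻¹' {b})

/-- A product chart of `π : X → B`: a biholomorphic parametrization `Ψ` of an open subset of `X` by an open
subset `O` of `F × (Fin m → ℂ)`; the first component is the coordinate of the point of the base in the chart
at `c`. -/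
structure PC (π : X → B) (m : ℕ) where
  c : B
  O : Set (F × (Fin m → ℂ))
  Ψ : F × (Fin m → ℂ) → X
  isOpen : IsOpen O
  hol : ∀ q ∈ O, Hol E Ψ q
  bij : ∀ q ∈ O, Function.Bijective (dvec E Ψ q)
  inj : Set.InjOn Ψ O
  mem : ∀ q ∈ O, q.1 ∈ (chartAt F c).target
  proj : ∀ q ∈ O, π (Ψ q) = (chartAt F c).symm q.1

/-- Finitely many product charts with a subordinate partition of unity. -/
structure FD (π : X → B) (m : ℕ) where
  n : ℕ
  P : Fin n → PC E F π m
  χ : Fin n → X → ℝ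
  sm : ∀ i, SmF E (χ i)
  nonneg : ∀ i x, 0 ≤ χ i x
  supp : ∀ i, tsupport (χ i) ⊆ (P i).Ψ '' (P i).O
  sum : ∀ x, ∑ i, χ i x = 1

variable {E F} {π : X → B} {m : ℕ}

/-- The frame of the vertical tangent space given by the product chart `P`. -/
def PC.vf (P : PC E F π m) (q : F × (Fin m → ℂ)) (j : Fin (2 * m)) : E := dvec E P.Ψ q (0, fr m j)

/-- The integral of the vertical density `D` (a `2m`-form) over the part of the fibre over `b` which is in the
image of the product chart `P`. -/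
def fi (P : PC E F π m) (D : X → E [⋀^Fin (2 * m)]→L[ℝ] ℝ) (b : B) : ℝ :=
  if b ∈ (chartAt F P.c).source then
    ∫ z : Fin m → ℂ, P.O.indicator (fun q => D (P.Ψ q) (P.vf q)) (chartAt F P.c b, z)
  else 0

variable (F) in
/-- The density `D` is continuous along the fibre over `b`. -/
def VCont (π : X → B) (m : ℕ) (D : X → E [⋀^Fin (2 * m)]→L[ℝ] ℝ) (b : B) : Prop :=
  ∀ P : PC E F π m, b ∈ (chartAt F P.c).source → ∀ z : Fin m → ℂ, (chartAt F P.c b, z) ∈ P.O →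
    ContinuousAt (fun z' : Fin m → ℂ => D (P.Ψ (chartAt F P.c b, z')) (P.vf (chartAt F P.c b, z'))) z

/-- integration over the fibres of `G × (Fin m → ℂ) → G` -/
def JK {G V : Type*} [NormedAddCommGroup V] [NormedSpace ℝ V] (f : G × (Fin m → ℂ) → V) (y : G) : V :=
  ∫ z : Fin m → ℂ, f (y, z)

/-- the cut off vertical part of `β ^ m` in a product chart -/
def Fi (P : PC E F π m) (χ : X → ℝ) (β : Form E X) : F × (Fin m → ℂ) → ℝ :=
  P.O.indicator fun q => χ (P.Ψ q) • pw (tpb β.val P.Ψ q) m fun j => (0, fr m j)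

/-- the cut off coefficients of `β ^ (m + 1)` in a product chart -/
def Gi (P : PC E F π m) (χ : X → ℝ) (β : Form E X) : F × (Fin m → ℂ) → Bil F :=
  P.O.indicator fun q => χ (P.Ψ q) • ev2 (pw (tpb β.val P.Ψ q) (m + 1))

/-- `∫_{fibre} β ^ m` -/
def fvol (d : FD E F π m) (β : Form E X) (b : B) : ℝ :=
  ∑ i, fi (d.P i) (fun x => d.χ i x • pw (β.val x) m) b

/-- `π_* (β ^ (m + 1))` -/
def hb (d : FD E F π m) (β : Form E X) (b : B) : Bil F :=
  ∑ i, extT (d.P i).c (JK (Gi (d.P i) (d.χ i) β)) b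

end Maps

end Pool.Agent.FBN
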