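import Pool.Agent.FBN.Chx
import Pool.Agent.FBN.Push

/-!
# FBN/DerF: derivative of the fibre integral of `χ β ^ m` in a product chart

PROOF PLAN.  As in the proved `Pool/Agent/FBR/DerF.lean`.  Let `y = chartAt F P.c b`, `u' = tc F P.c b u`, `a q = tpb β.val P.Ψ q`, `χ' = χ ∘ P.Ψ`,
`η = P.O.indicator (fun q => χ' q • pw (a q) m)`, smooth with compact support in `P.O` (`cut_smooth`, `cut_compact`, `cut_tsupport`, `pw_smooth`,
`tpb_smooth`).  `extDeriv_apply` at the vector `Fin.cons (u', 0) (fun j => (0, fr m j))`: the term `i = 0` is `fderiv ℝ (Fi P χ β) q (u', 0)`, the term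
`i = j + 1` is `± fderiv ℝ (η evaluated at (u', 0) and the frame without its j-th vector) q (0, fr m j)`, the integral over `z` of which vanishes
(`J_vert`).  On `P.O`, `extDeriv η q = w1 (fderiv ℝ χ' q) (pw (a q) m)` (`extDeriv_mul_pw`, `tpb_closed`; `η` is `χ' • pw a` near `q`), off `P.O` it is `0` (the support
of `η` is a compact subset of `P.O`).  So the left side is `∫ z, P.O.indicator (dF1 m (fderiv ℝ χ' q) (a q) (u', 0) frame) (y, z)`
(`J_fderiv`, `dF1_apply`), which is `fi P ..` by `dF1_chart`.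
-/

set_option autoImplicit false

noncomputable section

open scoped Manifold ContDiff Classical

open MeasureTheory

namespace Pool.Agent.FBN

open Pool.Agent.FBR

section Gen

variable {G : Type*} [NormedAddCommGroup G] [NormedSpace ℝ G] [FiniteDimensional ℝ G] {m n : ℕ}

/-- integration of the exterior derivative over the fibre, all vectors but the first one being vertical -/
private theorem DerF_int {η : G × (Fin m → ℂ) → (G × (Fin m → ℂ)) [⋀^Fin n]→L[ℝ] ℝ} (hη : ContDiff ℝ ∞ η)
    (hc : HasCompactSupport η) (y : G) (u : G) (w : Fin n → (Fin m → ℂ)) :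
    ∫ z : Fin m → ℂ, extDeriv η (y, z) (Fin.cons (u, 0) fun j => (0, w j)) =
      ∫ z : Fin m → ℂ, fderiv ℝ (fun q => η q fun j => (0, w j)) (y, z) (u, 0) := by
  obtain ⟨v, hv⟩ : ∃ v : Fin (n + 1) → G × (Fin m → ℂ), v = Fin.cons (u, 0) fun j => (0, w j) := ⟨_, rfl⟩
  have hsm : ∀ t : Fin n → G × (Fin m → ℂ), ContDiff ℝ ∞ fun q => η q t := fun t =>
    (ContinuousAlternatingMap.apply ℝ (G × (Fin m → ℂ)) ℝ t).contDiff.comp hη
  have hcs : ∀ t : Fin n → G × (Fin m → ℂ), HasCompactSupport fun q => η q t := by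
    intro t
    refine hc.mono fun q hq => ?_
    rw [Function.mem_support] at hq ⊢
    intro h
    apply hq
    rw [h]
    rfl
  have h1 : ∀ z : Fin m → ℂ, extDeriv η (y, z) (Fin.cons (u, 0) fun j => (0, w j)) =
      fderiv ℝ (fun q => η q fun j => (0, w j)) (y, z) (u, 0) +
        ∑ j : Fin n, (-1 : ℝ) ^ (j.succ : ℕ) • fderiv ℝ (fun q => η q (j.succ.removeNth v)) (y, z) (0, w j) := by
    intro z
    rw [extDeriv_apply (hη.contDiffAt.differentiableAt (by simp)), ← hv, Fin.sum_univ_succ]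
    congr 1
    · rw [hv]
      simp only [Fin.val_zero, pow_zero, one_smul, Fin.cons_zero]
      rfl
    · refine Finset.sum_congr rfl fun j _ => ?_
      rw [hv, Fin.cons_succ]
      simp
  have hI : ∀ (t : Fin n → G × (Fin m → ℂ)) (c : ℝ) (x : G × (Fin m → ℂ)),
      Integrable (fun z : Fin m → ℂ => c • fderiv ℝ (fun q => η q t) (y, z) x) := fun t c x =>
    (J_fderiv_integrable (hsm t) (hcs t) y x).smul c
  rw [integral_congr_ae (Filter.Eventually.of_forall h1), integral_add, integral_finsetSum, Finset.sum_eq_zero, add_zero]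
  · intro j _
    rw [integral_smul, J_vert (hsm _) (hcs _), smul_zero]
  · intro j _
    exact hI _ _ _
  · exact J_fderiv_integrable (hsm _) (hcs _) y _
  · exact integrable_finsetSum _ fun j _ => hI _ _ _

end Gen

variable {E X : Type*} [NormedAddCommGroup E] [NormedSpace ℂ E] [FiniteDimensional ℂ E]
  [TopologicalSpace X] [ChartedSpace E X] [IsManifold 𝓘(ℂ, E) ω X] [CompactSpace X] [T2Space X]
  {F B : Type*} [NormedAddCommGroup F] [NormedSpace ℂ F] [FiniteDimensional ℂ F] [TopologicalSpace B]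
  [ChartedSpace F B] [IsManifold 𝓘(ℂ, F) ω B] {π : X → B} {m : ℕ}

theorem deriv_JF (hπ : ContMDiff 𝓘(ℂ, E) 𝓘(ℂ, F) ω π) (P : PC E F π m) (β : Form E X) {χ : X → ℝ} (hχ : SmF E χ)
    (hs : tsupport χ ⊆ P.Ψ '' P.O) {b : B} (hb : b ∈ (chartAt F P.c).source)
    {L : X → E} {u : F} (hL : ∀ x, π x = b → dmap E F π x (L x) = u) :
    fderiv ℝ (JK (Fi P χ β)) (chartAt F P.c b) (tc F P.c b u) =
      fi P (fun x => dF1 m (dF E χ x) (β.val x) (L x)) b := by
  have hT : ContDiffOn ℝ ∞ (tpb β.val P.Ψ) P.O := tpb_smooth β P.isOpen fun q hq => (P.hol q hq).sm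
  have hpw : ContDiffOn ℝ ∞ (fun q => pw (tpb β.val P.Ψ q) m) P.O := (pw_smooth m).comp_contDiffOn hT
  obtain ⟨η, hη⟩ : ∃ η : F × (Fin m → ℂ) → (F × (Fin m → ℂ)) [⋀^Fin (2 * m)]→L[ℝ] ℝ,
      η = P.O.indicator fun q => χ (P.Ψ q) • pw (tpb β.val P.Ψ q) m := ⟨_, rfl⟩
  have hsm : ContDiff ℝ ∞ η := by
    rw [hη]
    exact cut_smooth P hχ hs hpw
  have hc : HasCompactSupport η := by
    rw [hη]
    exact cut_compact P hs _
  have hFi : Fi P χ β = fun q => η q fun j => (0, fr m j) := by
    funext q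
    rw [hη]
    unfold Fi
    by_cases hq : q ∈ P.O
    · rw [Set.indicator_of_mem hq, Set.indicator_of_mem hq]
      rfl
    · rw [Set.indicator_of_notMem hq, Set.indicator_of_notMem hq]
      rfl
  have hd : ∀ q, extDeriv η q = P.O.indicator (fun q => w1 (fderiv ℝ (χ ∘ P.Ψ) q) (pw (tpb β.val P.Ψ q) m)) q := by
    intro q
    by_cases hq : q ∈ P.O
    · have hn : P.O ∈ nhds q := P.isOpen.mem_nhds hq
      have h1 : η =ᶠ[nhds q] fun q' => (χ ∘ P.Ψ) q' • pw (tpb β.val P.Ψ q') m := by
        rw [hη]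
        filter_upwards [hn] with q' hq'
        exact Set.indicator_of_mem hq' _
      rw [h1.extDeriv_eq, Set.indicator_of_mem hq]
      exact extDeriv_mul_pw (χ ∘ P.Ψ) (tpb β.val P.Ψ) q ((hχ.at (P.hol q hq).sm).differentiableAt (by simp))
        ((hT.contDiffAt hn).differentiableAt (by simp))
        (tpb_closed β P.isOpen (fun q hq => (P.hol q hq).sm) hq) m
    · have h1 : η =ᶠ[nhds q] fun _ => 0 := by
        refine notMem_tsupport_iff_eventuallyEq.1 fun h => hq ?_
        rw [hη] at h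
        exact cut_tsupport P hs _ h
      rw [h1.extDeriv_eq, Set.indicator_of_notMem hq]
      ext v
      rw [extDeriv_apply (differentiableAt_const _)]
      simp
  rw [hFi, J_fderiv]
  · rw [← DerF_int hsm hc, fi, if_pos hb]
    refine integral_congr_ae (Filter.Eventually.of_forall fun z => ?_)
    show extDeriv η (chartAt F P.c b, z) _ = P.O.indicator _ (chartAt F P.c b, z)
    rw [hd]
    by_cases hq : (chartAt F P.c b, z) ∈ P.O
    · have hb' : π (P.Ψ (chartAt F P.c b, z)) = b := by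
        rw [P.proj _ hq]
        exact (chartAt F P.c).left_inv hb
      rw [Set.indicator_of_mem hq, Set.indicator_of_mem hq, dF1_chart hπ P β hχ hb hq (hL _ hb'), dF1_apply]
    · rw [Set.indicator_of_notMem hq, Set.indicator_of_notMem hq]
      rfl
  · exact (ContinuousAlternatingMap.apply ℝ (F × (Fin m → ℂ)) ℝ _).contDiff.comp hsm
  · refine hc.mono fun q hq => ?_
    rw [Function.mem_support] at hq ⊢
    intro h
    apply hq
    rw [h]
    rfl

end Pool.Agent.FBN
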