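import Pool.Agent.FBN.Chx
import Pool.Agent.FBN.Push

/-!
# FBN/DerG: exterior derivative of the fibre integral of `χ β ^ (m + 1)` in a product chart

PROOF PLAN.  As in the proved `Pool/Agent/FBR/DerG.lean`.  Let `y = chartAt F P.c b`, `ui' = tc F P.c b ui`, `a q = tpb β.val P.Ψ q`, `χ' = χ ∘ P.Ψ`,
`η = P.O.indicator (fun q => χ' q • pw (a q) (m + 1))`, smooth with compact support in `P.O` (`cut_smooth`, `cut_compact`, `cut_tsupport`,
`pw_smooth`, `tpb_smooth`); `Gi = ev2 ∘ η`.  `extDeriv_apply` at the vector `V = cons (u1', 0) (cons (u2', 0) (cons (u3', 0) frame))`: the terms `i = 0, 1, 2` are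
`fderiv ℝ Gi q (u1', 0) u2' u3' - fderiv ℝ Gi q (u2', 0) u1' u3' + fderiv ℝ Gi q (u3', 0) u1' u2'` (`ev2_apply`), which is the cyclic sum of `ext2`
(`ev2_alt`: `Gi q u v = - Gi q v u`); the terms `i = j + 3` are `± fderiv ℝ (η evaluated at fixed vectors) q (0, fr m j)`, the integral over `z` of
which vanishes (`J_vert`).  On `P.O`, `extDeriv η q = w1 (fderiv ℝ χ' q) (pw (a q) (m + 1))` (`extDeriv_mul_pw`, `tpb_closed`), off `P.O` it is `0`.  So
`ext2 (JK Gi) y u1' u2' u3' = ∫ z, P.O.indicator (dG3 m (fderiv ℝ χ' q) (a q) (u1', 0) (u2', 0) (u3', 0) frame) (y, z)` (`J_fderiv`; evaluation commutes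
with the integral: `J_fderiv_integrable`; `dG3_apply`), which is `fi P ..` by `dG3_chart`.
`JG_alt`: `ev2_alt`.
-/

set_option autoImplicit false

noncomputable section

open scoped Manifold ContDiff Classical

open MeasureTheory

namespace Pool.Agent.FBN

open Pool.Agent.FBR

section Gen

variable {n : ℕ} {W : Type*}

private theorem DerG_rms (a : W) (v : Fin (n + 1) → W) (i : Fin (n + 1)) :
    Fin.removeNth i.succ (Fin.cons a v : Fin (n + 2) → W) = Fin.cons a (Fin.removeNth i v) := by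
  funext j
  refine Fin.cases ?_ (fun j => ?_) j
  · simp [Fin.removeNth]
  · simp [Fin.removeNth, Fin.succ_succAbove_succ]

private theorem DerG_rm0 (a : W) (v : Fin n → W) :
    Fin.removeNth 0 (Fin.cons a v : Fin (n + 1) → W) = v := by
  funext j
  simp [Fin.removeNth]

/-- the exterior derivative at a vector with three distinguished components -/
private theorem DerG_ext [NormedAddCommGroup W] [NormedSpace ℝ W] (η : W → W [⋀^Fin (n + 2)]→L[ℝ] ℝ) (q : W)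
    (h : DifferentiableAt ℝ η q) (x1 x2 x3 : W) (f : Fin n → W) :
    extDeriv η q (Fin.cons x1 (Fin.cons x2 (Fin.cons x3 f))) =
      fderiv ℝ (fun q' => η q' (Fin.cons x2 (Fin.cons x3 f))) q x1 -
      fderiv ℝ (fun q' => η q' (Fin.cons x1 (Fin.cons x3 f))) q x2 +
      fderiv ℝ (fun q' => η q' (Fin.cons x1 (Fin.cons x2 f))) q x3 +
      ∑ j : Fin n, (-1 : ℝ) ^ ((j : ℕ) + 3) *
        fderiv ℝ (fun q' => η q' (Fin.removeNth j.succ.succ.succ
          (Fin.cons x1 (Fin.cons x2 (Fin.cons x3 f)) : Fin (n + 3) → W))) q (f j) := by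
  rw [extDeriv_apply h, Fin.sum_univ_succ, Fin.sum_univ_succ, Fin.sum_univ_succ]
  have e0 : Fin.removeNth 0 (Fin.cons x1 (Fin.cons x2 (Fin.cons x3 f)) : Fin (n + 3) → W) =
      Fin.cons x2 (Fin.cons x3 f) := DerG_rm0 _ _
  have e1 : Fin.removeNth (Fin.succ 0) (Fin.cons x1 (Fin.cons x2 (Fin.cons x3 f)) : Fin (n + 3) → W) =
      Fin.cons x1 (Fin.cons x3 f) := by
    rw [DerG_rms]
    congr 1
  have e2 : Fin.removeNth (Fin.succ (Fin.succ 0))
      (Fin.cons x1 (Fin.cons x2 (Fin.cons x3 f)) : Fin (n + 3) → W) =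
      Fin.cons x1 (Fin.cons x2 f) := by
    rw [DerG_rms]
    congr 1
    rw [DerG_rms]
    congr 1
  rw [e0, e1, e2]
  have e3 : ∀ j : Fin n, (Fin.cons x1 (Fin.cons x2 (Fin.cons x3 f)) : Fin (n + 3) → W) j.succ.succ.succ = f j := by
    intro j
    simp [Fin.cons_succ]
  simp only [e3]
  simp only [Fin.cons_zero, Fin.cons_succ, Fin.val_zero, Fin.val_succ, pow_zero, zero_add]
  simp only [Nat.reduceAdd, add_assoc]
  ring_nf

end Gen

section Gen1

variable {G V : Type*} [NormedAddCommGroup G] [NormedSpace ℝ G] [NormedAddCommGroup V] [NormedSpace ℝ V] {m : ℕ}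

private theorem DerG_fd1 (g : G → V) (Λ : V →L[ℝ] ℝ) (q : G) (hg : DifferentiableAt ℝ g q) (X : G) :
    Λ (fderiv ℝ g q X) = fderiv ℝ (fun q' => Λ (g q')) q X := by
  have h2 := (Λ.hasFDerivAt (x := g q)).comp q hg.hasFDerivAt
  have h3 : (fun q' => Λ (g q')) = Λ ∘ g := rfl
  rw [h3, h2.fderiv]
  rfl

variable [CompleteSpace V] [FiniteDimensional ℝ G]

private theorem DerG_J1 {g : G × (Fin m → ℂ) → V} (hg : ContDiff ℝ ∞ g) (hc : HasCompactSupport g)
    (Λ : V →L[ℝ] ℝ) (y U : G) :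
    Λ (fderiv ℝ (JK g) y U) = ∫ w : Fin m → ℂ, fderiv ℝ (fun q' => Λ (g q')) (y, w) (U, 0) := by
  rw [J_fderiv hg hc, ← Λ.integral_comp_comm (J_fderiv_integrable hg hc y ((U, 0) : G × (Fin m → ℂ)))]
  refine integral_congr_ae (Filter.Eventually.of_forall fun w => ?_)
  exact DerG_fd1 g Λ (y, w) (hg.contDiffAt.differentiableAt (by simp)) (U, 0)

private theorem DerG_J2 {g : G × (Fin m → ℂ) → V} (hg : Continuous g) (hc : HasCompactSupport g)
    (Λ : V →L[ℝ] ℝ) (h : ∀ q, Λ (g q) = 0) (y : G) : Λ (JK g y) = 0 := by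
  unfold JK
  rw [← Λ.integral_comp_comm (J_integrable hg hc y)]
  exact (integral_congr_ae (Filter.Eventually.of_forall fun w => h (y, w))).trans
    (integral_zero (Fin m → ℂ) ℝ)

end Gen1

section Gen2

variable {G F : Type*} [NormedAddCommGroup G] [NormedSpace ℝ G] [NormedAddCommGroup F] [NormedSpace ℝ F]
  [FiniteDimensional ℝ G] {m : ℕ}

private theorem DerG_J3 {g : G × (Fin m → ℂ) → Bil F} (hg : ContDiff ℝ ∞ g) (hc : HasCompactSupport g)
    (y U : G) (A B : F) :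
    fderiv ℝ (JK g) y U A B = ∫ w : Fin m → ℂ, fderiv ℝ (fun q' => g q' A B) (y, w) (U, 0) :=
  DerG_J1 hg hc ((ContinuousLinearMap.apply ℝ ℝ B).comp (ContinuousLinearMap.apply ℝ (F →L[ℝ] ℝ) A)) y U

private theorem DerG_J4 {g : G × (Fin m → ℂ) → Bil F} (hg : ContDiff ℝ ∞ g) (hc : HasCompactSupport g)
    (A B : F) (h : ∀ q, g q A B = 0) (y : G) : JK g y A B = 0 := by
  obtain ⟨Λ, hΛ⟩ : ∃ Λ : Bil F →L[ℝ] ℝ, ∀ a, Λ a = a A B :=
    ⟨(ContinuousLinearMap.apply ℝ ℝ B).comp (ContinuousLinearMap.apply ℝ (F →L[ℝ] ℝ) A), fun a => rfl⟩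
  have h1 := DerG_J2 hg.continuous hc Λ (fun q => (hΛ _).trans (h q)) y
  rw [hΛ] at h1
  exact h1

end Gen2

variable {E X : Type*} [NormedAddCommGroup E] [NormedSpace ℂ E] [FiniteDimensional ℂ E]
  [TopologicalSpace X] [ChartedSpace E X] [IsManifold 𝓘(ℂ, E) ω X] [CompactSpace X] [T2Space X]
  {F B : Type*} [NormedAddCommGroup F] [NormedSpace ℂ F] [FiniteDimensional ℂ F] [TopologicalSpace B]
  [ChartedSpace F B] [IsManifold 𝓘(ℂ, F) ω B] {π : X → B} {m : ℕ}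

/-- the cut off form `χ β ^ (m + 1)` -/
private def DerG_H (P : PC E F π m) (χ : X → ℝ) (β : Form E X) :
    F × (Fin m → ℂ) → (F × (Fin m → ℂ)) [⋀^Fin (2 * m + 2)]→L[ℝ] ℝ :=
  P.O.indicator fun q => χ (P.Ψ q) • pw (tpb β.val P.Ψ q) (m + 1)

private theorem DerG_T (P : PC E F π m) (β : Form E X) : ContDiffOn ℝ ∞ (tpb β.val P.Ψ) P.O :=
  tpb_smooth β P.isOpen fun q hq => (P.hol q hq).sm

private theorem DerG_H_smooth (P : PC E F π m) (β : Form E X) {χ : X → ℝ} (hχ : SmF E χ)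
    (hs : tsupport χ ⊆ P.Ψ '' P.O) : ContDiff ℝ ∞ (DerG_H P χ β) := by
  refine cut_smooth P hχ hs ?_
  exact (pw_smooth (m + 1)).comp_contDiffOn (DerG_T P β)

private theorem DerG_H_compact (P : PC E F π m) (β : Form E X) {χ : X → ℝ}
    (hs : tsupport χ ⊆ P.Ψ '' P.O) : HasCompactSupport (DerG_H P χ β) := cut_compact P hs _

/-- the value at fixed vectors -/
private def DerG_S (P : PC E F π m) (χ : X → ℝ) (β : Form E X) (p : Fin (2 * m + 2) → F × (Fin m → ℂ)) :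
    F × (Fin m → ℂ) → ℝ := fun q => DerG_H P χ β q p

private theorem DerG_S_smooth (P : PC E F π m) (β : Form E X) {χ : X → ℝ} (hχ : SmF E χ)
    (hs : tsupport χ ⊆ P.Ψ '' P.O) (p : Fin (2 * m + 2) → F × (Fin m → ℂ)) :
    ContDiff ℝ ∞ (DerG_S P χ β p) :=
  (ContinuousAlternatingMap.apply ℝ (F × (Fin m → ℂ)) ℝ p).contDiff.comp (DerG_H_smooth P β hχ hs)

private theorem DerG_S_compact (P : PC E F π m) (β : Form E X) {χ : X → ℝ}
    (hs : tsupport χ ⊆ P.Ψ '' P.O) (p : Fin (2 * m + 2) → F × (Fin m → ℂ)) :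
    HasCompactSupport (DerG_S P χ β p) := by
  refine (DerG_H_compact P β hs).mono fun q hq => ?_
  rw [Function.mem_support] at hq ⊢
  intro h1
  apply hq
  show DerG_H P χ β q p = 0
  rw [h1]
  rfl

private theorem DerG_gi (P : PC E F π m) (χ : X → ℝ) (β : Form E X) (V W : F) (q : F × (Fin m → ℂ)) :
    Gi P χ β q V W =
      DerG_S P χ β (Fin.cons (V, 0) (Fin.cons (W, 0) fun j => (0, fr m j))) q := by
  unfold Gi DerG_S DerG_H
  by_cases hq : q ∈ P.O
  · rw [Set.indicator_of_mem hq, Set.indicator_of_mem hq]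
    show χ (P.Ψ q) • ev2 (pw (tpb β.val P.Ψ q) (m + 1)) V W = _
    rw [ev2_apply]
    rfl
  · rw [Set.indicator_of_notMem hq, Set.indicator_of_notMem hq]
    rfl

private theorem DerG_gic (P : PC E F π m) (χ : X → ℝ) (β : Form E X) (hs : tsupport χ ⊆ P.Ψ '' P.O) :
    HasCompactSupport (Gi P χ β) := by
  refine (DerG_H_compact P β hs).mono fun q hq => ?_
  rw [Function.mem_support] at hq ⊢
  intro h1
  apply hq
  refine ContinuousLinearMap.ext fun V => ContinuousLinearMap.ext fun W => ?_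
  rw [DerG_gi]
  show DerG_H P χ β q _ = 0
  rw [h1]
  rfl

private theorem DerG_anti (P : PC E F π m) (χ : X → ℝ) (β : Form E X) (V W : F) (q : F × (Fin m → ℂ)) :
    Gi P χ β q V W = - Gi P χ β q W V := by
  have h0 : ∀ u, Gi P χ β q u u = 0 := by
    intro u
    unfold Gi
    by_cases hq : q ∈ P.O
    · rw [Set.indicator_of_mem hq]
      show χ (P.Ψ q) • ev2 (pw (tpb β.val P.Ψ q) (m + 1)) u u = 0
      rw [ev2_alt, smul_zero]
    · rw [Set.indicator_of_notMem hq]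
      rfl
  have h1 := h0 (V + W)
  rw [map_add, map_add, _root_.add_apply, _root_.add_apply, h0 V, h0 W] at h1
  linarith

private theorem DerG_J (P : PC E F π m) (β : Form E X) {χ : X → ℝ} (hχ : SmF E χ)
    (hs : tsupport χ ⊆ P.Ψ '' P.O) (y U V W : F) :
    fderiv ℝ (JK (Gi P χ β)) y U V W =
      ∫ w : Fin m → ℂ, fderiv ℝ (DerG_S P χ β (Fin.cons (V, 0) (Fin.cons (W, 0) fun j => (0, fr m j))))
        (y, w) (U, 0) := by
  have h1 : (fun q' => Gi P χ β q' V W) =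
      DerG_S P χ β (Fin.cons (V, 0) (Fin.cons (W, 0) fun j => (0, fr m j))) := by
    funext q'
    exact DerG_gi P χ β V W q'
  rw [← h1]
  exact DerG_J3 (Gi_smooth P β hχ hs) (DerG_gic P χ β hs) y U V W

theorem JG_alt (P : PC E F π m) (β : Form E X) {χ : X → ℝ} (hχ : SmF E χ)
    (hs : tsupport χ ⊆ P.Ψ '' P.O) (y u : F) : JK (Gi P χ β) y u u = 0 := by
  refine DerG_J4 (Gi_smooth P β hχ hs) (DerG_gic P χ β hs) u u (fun q => ?_) y
  have h := DerG_anti P χ β u u q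
  linarith

/-- the exterior derivative of the cut off form -/
private theorem DerG_point (P : PC E F π m) (β : Form E X) {χ : X → ℝ} (hχ : SmF E χ)
    (hs : tsupport χ ⊆ P.Ψ '' P.O) (q x1 x2 x3 : F × (Fin m → ℂ)) (f : Fin (2 * m) → F × (Fin m → ℂ)) :
    extDeriv (DerG_H P χ β) q (Fin.cons x1 (Fin.cons x2 (Fin.cons x3 f))) =
      P.O.indicator (fun q => dG3 m (fderiv ℝ (χ ∘ P.Ψ) q) (tpb β.val P.Ψ q) x1 x2 x3 f) q := by
  by_cases hq : q ∈ P.O
  · have hn : P.O ∈ nhds q := P.isOpen.mem_nhds hq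
    have h1 : extDeriv (DerG_H P χ β) q =
        extDeriv (fun q' => (χ ∘ P.Ψ) q' • pw (tpb β.val P.Ψ q') (m + 1)) q := by
      refine Filter.EventuallyEq.extDeriv_eq ?_
      filter_upwards [hn] with q' hq'
      exact Set.indicator_of_mem hq' _
    rw [Set.indicator_of_mem hq, dG3_apply, h1]
    have h2 := extDeriv_mul_pw (χ ∘ P.Ψ) (tpb β.val P.Ψ) q
      ((hχ.at (P.hol q hq).sm).differentiableAt (by simp))
      (((DerG_T P β).contDiffAt hn).differentiableAt (by simp))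
      (tpb_closed β P.isOpen (fun q hq => (P.hol q hq).sm) hq) (m + 1)
    exact congrArg (fun η => η (Fin.cons x1 (Fin.cons x2 (Fin.cons x3 f)))) h2
  · rw [Set.indicator_of_notMem hq]
    have h1 : fderiv ℝ (DerG_H P χ β) q = 0 :=
      fderiv_of_notMem_tsupport ℝ fun h => hq (cut_tsupport P hs _ h)
    have h2 : extDeriv (DerG_H P χ β) q = 0 := by
      unfold extDeriv
      rw [h1]
      ext v
      simp [ContinuousAlternatingMap.alternatizeUncurryFin_apply]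
    rw [h2]
    rfl

theorem ext2_JG (hπ : ContMDiff 𝓘(ℂ, E) 𝓘(ℂ, F) ω π) (P : PC E F π m) (β : Form E X) {χ : X → ℝ} (hχ : SmF E χ)
    (hs : tsupport χ ⊆ P.Ψ '' P.O) {b : B} (hb : b ∈ (chartAt F P.c).source)
    {L1 L2 L3 : X → E} {u1 u2 u3 : F} (h1 : ∀ x, π x = b → dmap E F π x (L1 x) = u1)
    (h2 : ∀ x, π x = b → dmap E F π x (L2 x) = u2) (h3 : ∀ x, π x = b → dmap E F π x (L3 x) = u3) :
    ext2 (JK (Gi P χ β)) (chartAt F P.c b) (tc F P.c b u1) (tc F P.c b u2) (tc F P.c b u3) =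
      fi P (fun x => dG3 m (dF E χ x) (β.val x) (L1 x) (L2 x) (L3 x)) b := by
  obtain ⟨y, hy⟩ : ∃ y, y = chartAt F P.c b := ⟨_, rfl⟩
  obtain ⟨U1, hU1⟩ : ∃ U, U = tc F P.c b u1 := ⟨_, rfl⟩
  obtain ⟨U2, hU2⟩ : ∃ U, U = tc F P.c b u2 := ⟨_, rfl⟩
  obtain ⟨U3, hU3⟩ : ∃ U, U = tc F P.c b u3 := ⟨_, rfl⟩
  obtain ⟨f, hf⟩ : ∃ f : Fin (2 * m) → F × (Fin m → ℂ), f = fun j => (0, fr m j) := ⟨_, rfl⟩
  have hI : ∀ (p : Fin (2 * m + 2) → F × (Fin m → ℂ)) (v : F × (Fin m → ℂ)),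
      Integrable (fun w : Fin m → ℂ => fderiv ℝ (DerG_S P χ β p) (y, w) v) := fun p v =>
    J_fderiv_integrable (DerG_S_smooth P β hχ hs p) (DerG_S_compact P β hs p) y v
  have hV : ∀ (p : Fin (2 * m + 2) → F × (Fin m → ℂ)) (v : Fin m → ℂ),
      ∫ w : Fin m → ℂ, fderiv ℝ (DerG_S P χ β p) (y, w) (0, v) = 0 := fun p v =>
    J_vert (DerG_S_smooth P β hχ hs p) (DerG_S_compact P β hs p) y v
  have hR : fi P (fun x => dG3 m (dF E χ x) (β.val x) (L1 x) (L2 x) (L3 x)) b =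
      ∫ w : Fin m → ℂ, P.O.indicator (fun q => dG3 m (fderiv ℝ (χ ∘ P.Ψ) q) (tpb β.val P.Ψ q)
        (U1, 0) (U2, 0) (U3, 0) f) (y, w) := by
    rw [fi, if_pos hb]
    refine integral_congr_ae (Filter.Eventually.of_forall fun w => ?_)
    rw [hy]
    by_cases hq : (chartAt F P.c b, w) ∈ P.O
    · have hb' : π (P.Ψ (chartAt F P.c b, w)) = b := by
        rw [P.proj _ hq]
        exact (chartAt F P.c).left_inv hb
      rw [hU1, hU2, hU3, hf]
      show P.O.indicator _ (chartAt F P.c b, w) = P.O.indicator _ (chartAt F P.c b, w)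
      rw [Set.indicator_of_mem hq, Set.indicator_of_mem hq]
      exact dG3_chart hπ P β hχ hb hq (h1 _ hb') (h2 _ hb') (h3 _ hb')
    · show P.O.indicator _ (chartAt F P.c b, w) = P.O.indicator _ (chartAt F P.c b, w)
      rw [Set.indicator_of_notMem hq, Set.indicator_of_notMem hq]
  have hP : ∀ w : Fin m → ℂ, P.O.indicator (fun q => dG3 m (fderiv ℝ (χ ∘ P.Ψ) q) (tpb β.val P.Ψ q)
        (U1, 0) (U2, 0) (U3, 0) f) (y, w) =
      fderiv ℝ (DerG_S P χ β (Fin.cons (U2, 0) (Fin.cons (U3, 0) f))) (y, w) (U1, 0) -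
      fderiv ℝ (DerG_S P χ β (Fin.cons (U1, 0) (Fin.cons (U3, 0) f))) (y, w) (U2, 0) +
      fderiv ℝ (DerG_S P χ β (Fin.cons (U1, 0) (Fin.cons (U2, 0) f))) (y, w) (U3, 0) +
      ∑ j : Fin (2 * m), (-1 : ℝ) ^ ((j : ℕ) + 3) *
        fderiv ℝ (DerG_S P χ β (Fin.removeNth j.succ.succ.succ
          (Fin.cons (U1, 0) (Fin.cons (U2, 0) (Fin.cons (U3, 0) f)) :
            Fin (2 * m + 3) → F × (Fin m → ℂ)))) (y, w) (0, fr m j) := by
    intro w
    rw [← DerG_point P β hχ hs, DerG_ext _ _ ((DerG_H_smooth P β hχ hs).contDiffAt.differentiableAt (by simp))]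
    subst hf
    rfl
  have hS : ∫ w : Fin m → ℂ, ∑ j : Fin (2 * m), (-1 : ℝ) ^ ((j : ℕ) + 3) *
        fderiv ℝ (DerG_S P χ β (Fin.removeNth j.succ.succ.succ
          (Fin.cons (U1, 0) (Fin.cons (U2, 0) (Fin.cons (U3, 0) f)) :
            Fin (2 * m + 3) → F × (Fin m → ℂ)))) (y, w) (0, fr m j) = 0 := by
    rw [integral_finsetSum]
    · refine Finset.sum_eq_zero fun j _ => ?_
      rw [integral_const_mul, hV, mul_zero]
    · intro j _
      exact (hI _ _).const_mul _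
  have hA : ∫ w : Fin m → ℂ, fderiv ℝ (DerG_S P χ β (Fin.cons (U1, 0) (Fin.cons (U3, 0) f))) (y, w) (U2, 0) =
      - ∫ w : Fin m → ℂ, fderiv ℝ (DerG_S P χ β (Fin.cons (U3, 0) (Fin.cons (U1, 0) f))) (y, w) (U2, 0) := by
    rw [← integral_neg]
    refine integral_congr_ae (Filter.Eventually.of_forall fun w => ?_)
    have h4 : DerG_S P χ β (Fin.cons (U1, 0) (Fin.cons (U3, 0) f)) =
        fun q => - DerG_S P χ β (Fin.cons (U3, 0) (Fin.cons (U1, 0) f)) q := by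
      funext q
      rw [hf, ← DerG_gi, ← DerG_gi]
      exact DerG_anti P χ β U1 U3 q
    show fderiv ℝ (DerG_S P χ β (Fin.cons (U1, 0) (Fin.cons (U3, 0) f))) (y, w) (U2, 0) = _
    rw [h4, fderiv_fun_neg]
    rfl
  have hQ : ∫ w : Fin m → ℂ, P.O.indicator (fun q => dG3 m (fderiv ℝ (χ ∘ P.Ψ) q) (tpb β.val P.Ψ q)
        (U1, 0) (U2, 0) (U3, 0) f) (y, w) =
      (∫ w : Fin m → ℂ, fderiv ℝ (DerG_S P χ β (Fin.cons (U2, 0) (Fin.cons (U3, 0) f))) (y, w) (U1, 0)) -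
      (∫ w : Fin m → ℂ, fderiv ℝ (DerG_S P χ β (Fin.cons (U1, 0) (Fin.cons (U3, 0) f))) (y, w) (U2, 0)) +
      (∫ w : Fin m → ℂ, fderiv ℝ (DerG_S P χ β (Fin.cons (U1, 0) (Fin.cons (U2, 0) f))) (y, w) (U3, 0)) := by
    rw [integral_congr_ae (Filter.Eventually.of_forall hP)]
    have i1 := hI (Fin.cons (U2, 0) (Fin.cons (U3, 0) f)) (U1, 0)
    have i2 := hI (Fin.cons (U1, 0) (Fin.cons (U3, 0) f)) (U2, 0)
    have i3 := hI (Fin.cons (U1, 0) (Fin.cons (U2, 0) f)) (U3, 0)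
    have i4 : Integrable fun w : Fin m → ℂ => ∑ j : Fin (2 * m), (-1 : ℝ) ^ ((j : ℕ) + 3) *
        fderiv ℝ (DerG_S P χ β (Fin.removeNth j.succ.succ.succ
          (Fin.cons (U1, 0) (Fin.cons (U2, 0) (Fin.cons (U3, 0) f)) :
            Fin (2 * m + 3) → F × (Fin m → ℂ)))) (y, w) (0, fr m j) :=
      integrable_finsetSum _ fun j _ => (hI _ _).const_mul _
    have e1 := integral_add ((i1.sub i2).add i3) i4
    have e3 := integral_add (i1.sub i2) i3
    have e4 := integral_sub i1 i2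
    simp only [Pi.sub_apply, Pi.add_apply] at e1 e3
    rw [e1, e3, e4, hS, add_zero]
  rw [← hy, ← hU1, ← hU2, ← hU3, hR, hQ, hA]
  unfold ext2
  rw [DerG_J P β hχ hs, DerG_J P β hχ hs, DerG_J P β hχ hs, ← hf]
  ring

end Pool.Agent.FBN
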