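import Pool.Agent.FBN.Ex1

/-!
# FBN/DetK: top degree forms on `Fin m → ℂ`, replacement of vectors

PROOF PLAN.  `fr m` is a real basis of `Fin m → ℂ` (dimension `2 m`; `fr m (2 i) = e_i`, `fr m (2 i + 1) = i e_i`): `frB`.  `alt_det`: an alternating map of
degree `= dim` on a space with basis `e` satisfies `f (R ∘ e) = det R * f e`: `AlternatingMap.eq_smul_basis_det`, `Module.Basis.det_comp`
/`Module.Basis.det_map`.  `det_cplx`: the real determinant of a complex linear map is the norm of the complex one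
(`LinearMap.det_restrictScalars`-type lemma and `Algebra.norm_complex_apply`; or: both sides are multiplicative in matrices, check
on diagonal and transvection matrices; or via the block structure in the basis `frB`).
`rep1`, `rep3`: an alternating map does not change if a combination of some arguments is added to another one:
`f` is additive in the argument and vanishes if it is in the span of the others (`AlternatingMap.map_linearDependent` or expand
the combination and use `map_eq_zero_of_eq`); do `Submodule.span_induction`.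
-/

set_option autoImplicit false

noncomputable section

open scoped ContDiff

open ContinuousAlternatingMap

namespace Pool.Agent.FBN

open Pool.Agent.FBR

private theorem DetK_fr_even {m : ℕ} (i : Fin m) :
    fr m ⟨2 * i.1, by omega⟩ = Pi.single i 1 := by
  unfold fr dbl
  have h1 : (2 * i.1) % 2 = 0 := by omega
  rw [if_pos h1]
  have h2 : ix (⟨2 * i.1, by omega⟩ : Fin (2 * m)) = i := by
    unfold ix
    apply Fin.ext
    show 2 * i.1 / 2 = i.1
    omega
  rw [h2]

private theorem DetK_fr_odd {m : ℕ} (i : Fin m) :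
    fr m ⟨2 * i.1 + 1, by omega⟩ = Complex.I • (Pi.single i 1 : Fin m → ℂ) := by
  unfold fr dbl
  have h1 : ¬ (2 * i.1 + 1) % 2 = 0 := by omega
  rw [if_neg h1]
  have h2 : ix (⟨2 * i.1 + 1, by omega⟩ : Fin (2 * m)) = i := by
    unfold ix
    apply Fin.ext
    show (2 * i.1 + 1) / 2 = i.1
    omega
  rw [h2]

theorem fr_span (m : ℕ) : Submodule.span ℝ (Set.range (fr m)) = ⊤ := by
  rw [Submodule.eq_top_iff']
  intro z
  have h1 : z = ∑ i : Fin m, ((z i).re • (Pi.single i 1 : Fin m → ℂ) +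
      (z i).im • (Complex.I • (Pi.single i 1 : Fin m → ℂ))) := by
    funext k
    rw [Finset.sum_apply, Finset.sum_eq_single k]
    · simp only [Pi.add_apply, Pi.smul_apply, Pi.single_eq_same, smul_eq_mul, mul_one,
        Complex.real_smul]
      exact (Complex.re_add_im (z k)).symm
    · intro i _ hik
      simp only [Pi.add_apply, Pi.smul_apply, Pi.single_eq_of_ne (Ne.symm hik), smul_zero,
        add_zero]
    · intro h
      exact absurd (Finset.mem_univ k) h
  rw [h1]
  refine Submodule.sum_mem _ fun i _ => Submodule.add_mem _ ?_ ?_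
  · exact Submodule.smul_mem _ _ (Submodule.subset_span ⟨_, DetK_fr_even i⟩)
  · exact Submodule.smul_mem _ _ (Submodule.subset_span ⟨_, DetK_fr_odd i⟩)

theorem fr_indep (m : ℕ) : LinearIndependent ℝ (fr m) := by
  refine linearIndependent_of_top_le_span_of_card_eq_finrank (fr_span m).ge ?_
  rw [Fintype.card_fin, Module.finrank_pi_fintype]
  simp [Complex.finrank_real_complex, mul_comm]

theorem alt_det {m : ℕ} (f : (Fin m → ℂ) [⋀^Fin (2 * m)]→L[ℝ] ℝ) (R : (Fin m → ℂ) →L[ℝ] (Fin m → ℂ)) :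
    f (fun j => R (fr m j)) = R.det * f (fr m) := by
  have hcoe : ⇑(Module.Basis.mk (fr_indep m) (fr_span m).ge) = fr m := Module.Basis.coe_mk _ _
  have h1 := AlternatingMap.eq_smul_basis_det (Module.Basis.mk (fr_indep m) (fr_span m).ge)
    f.toAlternatingMap
  have h2 : f.toAlternatingMap (fun j => R (fr m j)) =
      (f.toAlternatingMap (Module.Basis.mk (fr_indep m) (fr_span m).ge) •
        (Module.Basis.mk (fr_indep m) (fr_span m).ge).det) (fun j => R (fr m j)) := by
    rw [← h1]
  have h3 : (fun j => R (fr m j)) = (R : (Fin m → ℂ) →ₗ[ℝ] (Fin m → ℂ)) ∘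
      (Module.Basis.mk (fr_indep m) (fr_span m).ge) := by
    rw [hcoe]
    rfl
  have h4 : (Module.Basis.mk (fr_indep m) (fr_span m).ge).det (fun j => R (fr m j)) = R.det := by
    rw [h3, Module.Basis.det_comp, Module.Basis.det_self, mul_one]
  rw [AlternatingMap.smul_apply, h4, hcoe] at h2
  exact h2.trans (mul_comm _ _)

private theorem DetK_cplx {m : ℕ} (R : (Fin m → ℂ) →L[ℝ] (Fin m → ℂ))
    (hR : ∀ v, R (Complex.I • v) = Complex.I • R v) :
    ∃ g : (Fin m → ℂ) →ₗ[ℂ] (Fin m → ℂ), ∀ v, g v = R v := by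
  refine ⟨{ toFun := R, map_add' := fun u v => map_add R u v, map_smul' := ?_ }, fun v => rfl⟩
  intro c v
  have h1 : c • v = c.re • v + c.im • (Complex.I • v) := by
    funext k
    simp only [Pi.add_apply, Pi.smul_apply, smul_eq_mul, Complex.real_smul]
    conv_lhs => rw [← Complex.re_add_im c]
    ring
  have h2 : ∀ w : Fin m → ℂ, c • w = c.re • w + c.im • (Complex.I • w) := by
    intro w
    funext k
    simp only [Pi.add_apply, Pi.smul_apply, smul_eq_mul, Complex.real_smul]
    conv_lhs => rw [← Complex.re_add_im c]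
    ring
  rw [h1, map_add, map_smul, map_smul, hR, RingHom.id_apply, h2 (R v)]

private theorem DetK_det {m : ℕ} (R : (Fin m → ℂ) →L[ℝ] (Fin m → ℂ))
    (g : (Fin m → ℂ) →ₗ[ℂ] (Fin m → ℂ)) (hg : ∀ v, g v = R v) :
    R.det = Complex.normSq (LinearMap.det g) := by
  have h1 : (R : (Fin m → ℂ) →ₗ[ℝ] (Fin m → ℂ)) = g.restrictScalars ℝ := by
    exact LinearMap.ext fun v => (hg v).symm
  have h2 : R.det = LinearMap.det (R : (Fin m → ℂ) →ₗ[ℝ] (Fin m → ℂ)) := rfl
  rw [h2, h1, LinearMap.det_restrictScalars, Algebra.norm_complex_apply]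

/-- the real determinant of a complex linear map -/
theorem det_cplx {m : ℕ} (R : (Fin m → ℂ) →L[ℝ] (Fin m → ℂ)) (hR : ∀ v, R (Complex.I • v) = Complex.I • R v) :
    0 ≤ R.det := by
  obtain ⟨g, hg⟩ := DetK_cplx R hR
  rw [DetK_det R g hg]
  exact Complex.normSq_nonneg _

theorem det_pos_cplx {m : ℕ} (R : (Fin m → ℂ) →L[ℝ] (Fin m → ℂ))
    (hR : ∀ v, R (Complex.I • v) = Complex.I • R v) (hi : Function.Injective R) : 0 < R.det := by
  obtain ⟨g, hg⟩ := DetK_cplx R hR
  rw [DetK_det R g hg, Complex.normSq_pos]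
  have hgi : Function.Injective g := by
    intro u v h
    rw [hg, hg] at h
    exact hi h
  have h1 := (LinearEquiv.ofInjectiveEndo g hgi).isUnit_det'
  exact h1.ne_zero

theorem det_smul_I (m : ℕ) : ((Complex.I • ContinuousLinearMap.id ℝ (Fin m → ℂ)) :
    (Fin m → ℂ) →L[ℝ] (Fin m → ℂ)).det = 1 := by
  rw [DetK_det _ (Complex.I • LinearMap.id) fun v => rfl, LinearMap.det_smul, LinearMap.det_id,
    mul_one, map_pow, Complex.normSq_I, one_pow]

section Rep

variable {W : Type*} [NormedAddCommGroup W] [NormedSpace ℝ W] {n : ℕ}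

theorem rep1 (f : W [⋀^Fin (n + 1)]→L[ℝ] ℝ) (ξ : Fin n → W) (x : W) {v : W}
    (hv : v ∈ Submodule.span ℝ (Set.range ξ)) : f (Fin.cons (x + v) ξ) = f (Fin.cons x ξ) := by
  have h0 : f.curryLeft v ξ = 0 := by
    induction hv using Submodule.span_induction with
    | mem w hw =>
      obtain ⟨i, rfl⟩ := hw
      rw [curryLeft_apply_apply]
      exact f.map_eq_zero_of_eq _ (i := 0) (j := i.succ) rfl (Fin.succ_ne_zero i).symm
    | zero =>
      rw [_root_.map_zero]
      rfl
    | add a b _ _ ha hb =>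
      rw [_root_.map_add]
      show f.curryLeft a ξ + f.curryLeft b ξ = 0
      rw [ha, hb, add_zero]
    | smul c a _ ha =>
      rw [_root_.map_smul]
      show c • f.curryLeft a ξ = 0
      rw [ha, smul_zero]
  have h1 : f.curryLeft (x + v) ξ = f.curryLeft x ξ + f.curryLeft v ξ := by
    rw [_root_.map_add]
    rfl
  rw [h0, add_zero] at h1
  exact h1

private theorem DetK_cur (f : W [⋀^Fin (n + 1)]→L[ℝ] ℝ) (ξ : Fin n → W) (x : W) {v : W}
    (hv : v ∈ Submodule.span ℝ (Set.range ξ)) : f.curryLeft (x + v) ξ = f.curryLeft x ξ :=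
  rep1 f ξ x hv

private theorem DetK_mono (ξ : Fin n → W) (x : W) {v : W}
    (hv : v ∈ Submodule.span ℝ (Set.range ξ)) :
    v ∈ Submodule.span ℝ (Set.range (Fin.cons x ξ : Fin (n + 1) → W)) := by
  refine Submodule.span_mono ?_ hv
  rintro w ⟨i, rfl⟩
  exact ⟨i.succ, rfl⟩

theorem rep_dF1 (m : ℕ) (l : W →L[ℝ] ℝ) (a : Bil W) (ξ : Fin (2 * m) → W) (x : W) {v : W}
    (hv : v ∈ Submodule.span ℝ (Set.range ξ)) : dF1 m l a (x + v) ξ = dF1 m l a x ξ :=
  DetK_cur (w1 l (pw a m)) ξ x hv

theorem rep_dG3 (m : ℕ) (l : W →L[ℝ] ℝ) (a : Bil W) (ξ : Fin (2 * m) → W) (x y z : W) {v1 v2 v3 : W}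
    (h1 : v1 ∈ Submodule.span ℝ (Set.range ξ)) (h2 : v2 ∈ Submodule.span ℝ (Set.range ξ))
    (h3 : v3 ∈ Submodule.span ℝ (Set.range ξ)) :
    dG3 m l a (x + v1) (y + v2) (z + v3) ξ = dG3 m l a x y z ξ := by
  have h3' := DetK_cur (n := 2 * m)
    (((w1 (n := 2 * m + 2) l (pw a (m + 1))).curryLeft (x + v1)).curryLeft (y + v2)) ξ z h3
  have h2' := DetK_cur (n := 2 * m + 1) ((w1 (n := 2 * m + 2) l (pw a (m + 1))).curryLeft (x + v1))
    (Fin.cons z ξ) y (DetK_mono ξ z h2)
  have h1' := DetK_cur (n := 2 * m + 2) (w1 (n := 2 * m + 2) l (pw a (m + 1)))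
    (Fin.cons y (Fin.cons z ξ : Fin (2 * m + 1) → W)) x (DetK_mono _ y (DetK_mono ξ z h1))
  exact h3'.trans (h2'.trans h1')

end Rep

end Pool.Agent.FBN
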