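import Pool.Agent.FBN.Defs

/-!
# FBN/Ex1: rules for `w1`, `w2`, `pw`

PROOF PLAN.  `w1_apply`, `w2_apply`: `alternatizeUncurryFin_apply`.  `w1_comp`, `w2_comp`: `ext v`, the `apply` lemmas, and
`L ∘ removeNth i v = removeNth i (L ∘ v)`.  `pw_comp`: induction.  Smoothness: `w1` and `w2` are continuous bilinear in
`(l, η)` resp. `(a, η)`: composition of the continuous linear maps `alternatizeUncurryFinCLM`, `ContinuousLinearMap.smulRightL`, `compL`, `flip`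
(so `ContDiff.clm_comp`, `ContDiff.clm_apply`, `contDiff_const`...); `pw_smooth` by induction.
`ev2_smooth`: `ev2` is a continuous linear map (composition of such; `curryLeft` is `curryLeftLI`), or `ev2 a = ∑ ...` in a basis.
-/

set_option autoImplicit false

noncomputable section

open scoped ContDiff

open ContinuousAlternatingMap

namespace Pool.Agent.FBN

open Pool.Agent.FBR

variable {W : Type*} [NormedAddCommGroup W] [NormedSpace ℝ W] {n : ℕ}
  {W' : Type*} [NormedAddCommGroup W'] [NormedSpace ℝ W']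

theorem w1_apply (l : W →L[ℝ] ℝ) (η : W [⋀^Fin n]→L[ℝ] ℝ) (v : Fin (n + 1) → W) :
    w1 l η v = ∑ i : Fin (n + 1), (-1 : ℝ) ^ (i : ℕ) * (l (v i) * η (i.removeNth v)) := by
  rw [w1, alternatizeUncurryFin_apply]
  refine Finset.sum_congr rfl fun i _ => ?_
  simp

theorem w2_apply (a : Bil W) (η : W [⋀^Fin n]→L[ℝ] ℝ) (v : Fin (n + 2) → W) :
    w2 a η v = ∑ i : Fin (n + 2), ∑ j : Fin (n + 1), (-1 : ℝ) ^ (i : ℕ) * ((-1 : ℝ) ^ (j : ℕ) *
      (a (v i) (i.removeNth v j) * η (j.removeNth (i.removeNth v)))) := by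
  rw [w2, alternatizeUncurryFin_apply]
  refine Finset.sum_congr rfl fun i _ => ?_
  rw [ContinuousLinearMap.comp_apply, alternatizeUncurryFinCLM_apply, alternatizeUncurryFin_apply,
    Finset.smul_sum]
  refine Finset.sum_congr rfl fun j _ => ?_
  simp

theorem w1_comp (l : W →L[ℝ] ℝ) (η : W [⋀^Fin n]→L[ℝ] ℝ) (L : W' →L[ℝ] W) :
    (w1 l η).compContinuousLinearMap L = w1 (l.comp L) (η.compContinuousLinearMap L) := by
  ext v
  rw [compContinuousLinearMap_apply, w1_apply, w1_apply]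
  rfl

theorem w2_comp (a : Bil W) (η : W [⋀^Fin n]→L[ℝ] ℝ) (L : W' →L[ℝ] W) :
    (w2 a η).compContinuousLinearMap L = w2 (a.bilinearComp L L) (η.compContinuousLinearMap L) := by
  ext v
  rw [compContinuousLinearMap_apply, w2_apply, w2_apply]
  rfl

theorem pw_comp (a : Bil W) (k : ℕ) (L : W' →L[ℝ] W) :
    (pw a k).compContinuousLinearMap L = pw (a.bilinearComp L L) k := by
  induction k with
  | zero =>
    ext v
    rfl
  | succ k ih =>
    rw [pw, pw, ← ih]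
    exact w2_comp a (pw a k) L

theorem pw_comp_apply (a : Bil W) (k : ℕ) (L : W' →L[ℝ] W) (v : Fin (2 * k) → W') :
    pw (a.bilinearComp L L) k v = pw a k fun j => L (v j) := by
  rw [← pw_comp]
  rfl

theorem w1_zero (η : W [⋀^Fin n]→L[ℝ] ℝ) : w1 0 η = 0 := by
  ext v
  rw [w1_apply]
  simp

theorem w1_sum {ι : Type*} (S : Finset ι) (l : ι → W →L[ℝ] ℝ) (η : W [⋀^Fin n]→L[ℝ] ℝ) :
    w1 (∑ i ∈ S, l i) η = ∑ i ∈ S, w1 (l i) η := by
  classical
  ext v
  rw [w1_apply, ContinuousAlternatingMap.sum_apply]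
  simp only [w1_apply]
  rw [Finset.sum_comm]
  refine Finset.sum_congr rfl fun i _ => ?_
  rw [_root_.sum_apply, Finset.sum_mul, Finset.mul_sum]

private theorem Ex1_sm1 {H : Type*} [NormedAddCommGroup H] [NormedSpace ℝ H] :
    ContDiff ℝ ∞ fun p : (W →L[ℝ] ℝ) × H => p.1.smulRight p.2 :=
  (ContinuousLinearMap.smulRightL ℝ W H).isBoundedBilinearMap.contDiff

private theorem Ex1_sm2 {H : Type*} [NormedAddCommGroup H] [NormedSpace ℝ H] :
    ContDiff ℝ ∞ fun p : Bil W × H => (ContinuousLinearMap.smulRightL ℝ W H).flip p.2 ∘L p.1 := by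
  have h0 : ContDiff ℝ ∞ (⇑((ContinuousLinearMap.smulRightL ℝ W H).flip)) :=
    ContinuousLinearMap.contDiff _
  exact (h0.comp contDiff_snd).clm_comp contDiff_fst

private theorem Ex1_sm3 {H H' : Type*} [NormedAddCommGroup H] [NormedSpace ℝ H]
    [NormedAddCommGroup H'] [NormedSpace ℝ H'] (A : (W →L[ℝ] H) →L[ℝ] H') :
    ContDiff ℝ ∞ fun p : Bil W × H => A ∘L ((ContinuousLinearMap.smulRightL ℝ W H).flip p.2 ∘L p.1) := by
  exact contDiff_const.clm_comp Ex1_sm2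

private theorem Ex1_fl {E F : Type*} [NormedAddCommGroup E] [NormedSpace ℝ E]
    [NormedAddCommGroup F] [NormedSpace ℝ F] :
    ContDiff ℝ ∞ (fun b : E →L[ℝ] F →L[ℝ] ℝ => b.flip) := by
  have h : ContDiff ℝ ∞ (⇑(ContinuousLinearMap.flipₗᵢ ℝ E F ℝ)) := LinearIsometryEquiv.contDiff _
  exact h

private theorem Ex1_bc {E F : Type*} [NormedAddCommGroup E] [NormedSpace ℝ E]
    [NormedAddCommGroup F] [NormedSpace ℝ F] (L : F →L[ℝ] E) :
    ContDiff ℝ ∞ fun b : E →L[ℝ] E →L[ℝ] ℝ => b.bilinearComp L L := by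
  have h1 : ContDiff ℝ ∞ fun b : E →L[ℝ] E →L[ℝ] ℝ => b ∘L L := contDiff_id.clm_comp contDiff_const
  have h2 : ContDiff ℝ ∞ fun b : E →L[ℝ] E →L[ℝ] ℝ => (b ∘L L).flip := Ex1_fl.comp h1
  have h3 : ContDiff ℝ ∞ fun b : E →L[ℝ] E →L[ℝ] ℝ => (b ∘L L).flip ∘L L := h2.clm_comp contDiff_const
  exact Ex1_fl.comp h3

private theorem Ex1_cc {E F H : Type*} [NormedAddCommGroup E] [NormedSpace ℝ E]
    [NormedAddCommGroup F] [NormedSpace ℝ F] [NormedAddCommGroup H] [NormedSpace ℝ H] (T : H →L[ℝ] E →L[ℝ] ℝ) (L : F →L[ℝ] E) :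
    ContDiff ℝ ∞ fun b : E →L[ℝ] H => (T ∘L b).bilinearComp L L := by
  have h1 : ContDiff ℝ ∞ fun b : E →L[ℝ] H => T ∘L b := contDiff_const.clm_comp contDiff_id
  exact (Ex1_bc L).comp h1

theorem w1_smooth : ContDiff ℝ ∞ fun p : (W →L[ℝ] ℝ) × (W [⋀^Fin n]→L[ℝ] ℝ) => w1 p.1 p.2 := by
  exact (alternatizeUncurryFinCLM (n := n) ℝ W ℝ).contDiff.comp Ex1_sm1

theorem w2_smooth : ContDiff ℝ ∞ fun p : Bil W × (W [⋀^Fin n]→L[ℝ] ℝ) => w2 p.1 p.2 := by
  exact (alternatizeUncurryFinCLM (n := n + 1) ℝ W ℝ).contDiff.comp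
    (Ex1_sm3 (alternatizeUncurryFinCLM (n := n) ℝ W ℝ))

theorem pw_smooth (k : ℕ) : ContDiff ℝ ∞ fun a : Bil W => pw a k := by
  induction k with
  | zero => exact contDiff_const
  | succ k ih =>
    have h : ContDiff ℝ ∞ fun a : Bil W => (a, pw a k) := contDiff_id.prodMk ih
    have h2 : ContDiff ℝ ∞ fun a : Bil W => w2 a (pw a k) := (w2_smooth.comp h :)
    exact h2

theorem dF1_apply (m : ℕ) (l : W →L[ℝ] ℝ) (a : Bil W) (u : W) (v : Fin (2 * m) → W) :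
    dF1 m l a u v = w1 l (pw a m) (Fin.cons u v) := by
  rw [dF1, curryLeft_apply_apply]
  rfl

theorem dG3_apply (m : ℕ) (l : W →L[ℝ] ℝ) (a : Bil W) (x y z : W) (v : Fin (2 * m) → W) :
    dG3 m l a x y z v = w1 (n := 2 * m + 2) l (pw a (m + 1))
      (Fin.cons (n := 2 * m + 2) x (Fin.cons (n := 2 * m + 1) y (Fin.cons (n := 2 * m) z v))) := by
  rw [dG3, ins3, curryLeft_apply_apply, curryLeft_apply_apply, curryLeft_apply_apply]
  rfl

theorem dF1_comp (m : ℕ) (l : W →L[ℝ] ℝ) (a : Bil W) (L : W' →L[ℝ] W) (u : W') (v : Fin (2 * m) → W') :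
    dF1 m (l.comp L) (a.bilinearComp L L) u v = dF1 m l a (L u) fun j => L (v j) := by
  rw [dF1_apply, dF1_apply, ← pw_comp, ← w1_comp, compContinuousLinearMap_apply]
  congr 1
  funext j
  refine Fin.cases ?_ (fun i => ?_) j <;> simp

theorem dG3_comp (m : ℕ) (l : W →L[ℝ] ℝ) (a : Bil W) (L : W' →L[ℝ] W) (x y z : W') (v : Fin (2 * m) → W') :
    dG3 m (l.comp L) (a.bilinearComp L L) x y z v = dG3 m l a (L x) (L y) (L z) fun j => L (v j) := by
  rw [dG3_apply, dG3_apply, ← pw_comp, ← w1_comp, compContinuousLinearMap_apply]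
  congr 1
  funext j
  refine Fin.cases ?_ (fun i => ?_) j
  · simp
  · refine Fin.cases ?_ (fun i => ?_) i
    · simp
    · refine Fin.cases ?_ (fun i => ?_) i <;> rfl

theorem dF1_zero (m : ℕ) (a : Bil W) (u : W) : dF1 m 0 a u = 0 := by
  ext v
  rw [dF1_apply, w1_zero]
  simp

theorem dG3_zero (m : ℕ) (a : Bil W) (x y z : W) : dG3 m 0 a x y z = 0 := by
  ext v
  rw [dG3_apply, w1_zero]
  simp

theorem dF1_sum {ι : Type*} (S : Finset ι) (m : ℕ) (l : ι → W →L[ℝ] ℝ) (a : Bil W) (u : W) :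
    dF1 m (∑ i ∈ S, l i) a u = ∑ i ∈ S, dF1 m (l i) a u := by
  ext v
  rw [dF1_apply, w1_sum, ContinuousAlternatingMap.sum_apply, ContinuousAlternatingMap.sum_apply]
  exact Finset.sum_congr rfl fun i _ => (dF1_apply m (l i) a u v).symm

theorem dG3_sum {ι : Type*} (S : Finset ι) (m : ℕ) (l : ι → W →L[ℝ] ℝ) (a : Bil W) (x y z : W) :
    dG3 m (∑ i ∈ S, l i) a x y z = ∑ i ∈ S, dG3 m (l i) a x y z := by
  ext v
  rw [dG3_apply, w1_sum, ContinuousAlternatingMap.sum_apply, ContinuousAlternatingMap.sum_apply]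
  exact Finset.sum_congr rfl fun i _ => (dG3_apply m (l i) a x y z v).symm

/-- continuity in `l, a` -/
theorem dF1_cont (m : ℕ) (u : W) (v : Fin (2 * m) → W) :
    Continuous fun p : (W →L[ℝ] ℝ) × Bil W => dF1 m p.1 p.2 u v := by
  simp only [dF1_apply]
  have h : ContDiff ℝ ∞ fun p : (W →L[ℝ] ℝ) × Bil W => w1 p.1 (pw p.2 m) :=
    w1_smooth.comp (contDiff_fst.prodMk ((pw_smooth m).comp contDiff_snd))
  exact (ContinuousAlternatingMap.apply ℝ W ℝ _).continuous.comp h.continuous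

theorem dG3_cont (m : ℕ) (x y z : W) (v : Fin (2 * m) → W) :
    Continuous fun p : (W →L[ℝ] ℝ) × Bil W => dG3 m p.1 p.2 x y z v := by
  simp only [dG3_apply]
  have h : ContDiff ℝ ∞ fun p : (W →L[ℝ] ℝ) × Bil W => w1 (n := 2 * m + 2) p.1 (pw p.2 (m + 1)) :=
    w1_smooth.comp (contDiff_fst.prodMk ((pw_smooth (m + 1)).comp contDiff_snd))
  exact (ContinuousAlternatingMap.apply ℝ W ℝ _).continuous.comp h.continuous

section Ev

variable {F : Type*} [NormedAddCommGroup F] [NormedSpace ℂ F] {m : ℕ}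

theorem ev2_apply (a : (F × (Fin m → ℂ)) [⋀^Fin (2 * m + 2)]→L[ℝ] ℝ) (u v : F) :
    ev2 a u v = a (Fin.cons (u, 0) (Fin.cons (v, 0) fun j => (0, fr m j))) := rfl

theorem ev2_smooth : ContDiff ℝ ∞ (ev2 : (F × (Fin m → ℂ)) [⋀^Fin (2 * m + 2)]→L[ℝ] ℝ → Bil F) := by
  have h0 : ContDiff ℝ ∞ (⇑(ContinuousAlternatingMap.curryLeftLI (𝕜 := ℝ) (E := F × (Fin m → ℂ)) (F := ℝ)
      (n := 2 * m + 1))) := LinearIsometry.contDiff _
  exact (Ex1_cc _ (ContinuousLinearMap.inl ℝ F (Fin m → ℂ))).comp h0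

theorem ev2_alt (a : (F × (Fin m → ℂ)) [⋀^Fin (2 * m + 2)]→L[ℝ] ℝ) (u : F) : ev2 a u u = 0 := by
  rw [ev2_apply]
  refine a.map_eq_zero_of_eq _ (i := 0) (j := 1) ?_ (by simp)
  rfl

end Ev

end Pool.Agent.FBN
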