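import Pool.Agent.FBN.Rel
import Pool.Agent.FBN.Push

/-!
# FBN/FExt: extension of a smooth function from a fibre

PROOF PLAN.  Let `x` be over `b`, `x = i y0`, `P` a product chart at `x` (`exists_PC`), `x = P.Ψ (yb, z0)`, `yb = chartAt B.E P.c b`.  The maps
`z ↦ P.Ψ (yb, z)` (near `z0`) and `i` parametrize the same fibre: `i` is injective and continuous on the compact `N`, so a homeomorphism onto
the fibre; the map `s : z ↦ i⁻¹ (P.Ψ (yb, z))` is continuous near `z0`, and smooth: the smooth map `g = (second component of P.Ψ⁻¹) ∘ i`, from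
a neighbourhood of `y0` in `N` to `Fin m → ℂ` (read in the chart of `N` at `y0`; `P.Ψ⁻¹` is smooth by `sm_inv`/`hol_inv` for `P.Ψ`), has injective derivative
at `y0`: if `dg v = 0` then `di v = dΨ (0, 0) = 0` (the first component of `P.Ψ⁻¹ ∘ i` is constant), so bijective (`finrank N.E = m`); the inverse
function theorem shows that its local inverse, which is `s`, is smooth.  So on an open neighbourhood `U x ⊆ P.Ψ '' P.O` of `x` the function
`Φ_x (P.Ψ (y', z)) = φ (s z)` is smooth and `Φ_x (i y) = φ y` for `i y ∈ U x`.  `pou` for the cover `U x` (`x` over `b`), `(π ⁻¹' {b})ᶜ` (for the other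
points): `Φ = ∑ χ k Φ_k` (`Φ_k = 0` for the points off the fibre; `χ k Φ_k` extended by zero is `SmF` because `tsupport (χ k) ⊆ U`).
A general lemma is useful: if `tsupport χ ⊆ U`, `U` open, and `f` is smooth on `U` (read in parametrizations) then `χ f` is `SmF`.
-/

set_option autoImplicit false

noncomputable section

open scoped Manifold ContDiff Classical

namespace Pool.Agent.FBN

open Pool.Agent.FBR

universe u

private theorem FExt_bij {A C : Type*} [NormedAddCommGroup A] [NormedSpace ℂ A] [FiniteDimensional ℂ A]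
    [NormedAddCommGroup C] [NormedSpace ℂ C] [FiniteDimensional ℂ C]
    (hdim : Module.finrank ℂ A = Module.finrank ℂ C) (L : A →L[ℝ] C)
    (hL : ∀ v, L v = 0 → v = 0) : Function.Bijective L := by
  have : FiniteDimensional ℝ A := FiniteDimensional.complexToReal A
  have : FiniteDimensional ℝ C := FiniteDimensional.complexToReal C
  have hinj : Function.Injective (L : A →ₗ[ℝ] C) := by
    rw [injective_iff_map_eq_zero]
    exact hL
  have hd : Module.finrank ℝ A = Module.finrank ℝ C := by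
    rw [finrank_real_of_complex, finrank_real_of_complex, hdim]
  exact ⟨hinj, (LinearMap.injective_iff_surjective_of_finrank_eq_finrank hd).1 hinj⟩

private theorem FExt_local (M B N : CM.{u}) (π : M.X → B.X) (m : ℕ) (hπ : Fibn M.E B.E π m) (b : B.X)
    (i : N.X → M.X) (hi : ContMDiff 𝓘(ℂ, N.E) 𝓘(ℂ, M.E) ω i)
    (hd : ∀ y, Function.Injective (mfderiv 𝓘(ℂ, N.E) 𝓘(ℂ, M.E) i y)) (hinj : Function.Injective i)
    (hr : Set.range i = π ⁻¹' {b}) (hm : Module.finrank ℂ N.E = m) (φ : N.X → ℝ) (hφ : SmF N.E φ)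
    (y0 : N.X) :
    ∃ U : Set M.X, IsOpen U ∧ i y0 ∈ U ∧ ∀ χ : M.X → ℝ, SmF M.E χ → tsupport χ ⊆ U →
      ∃ Φ : M.X → ℝ, SmF M.E Φ ∧ ∀ w, Φ (i w) = χ (i w) * φ w := by
  have hib : ∀ w, π (i w) = b := by
    intro w
    have h1 : i w ∈ π ⁻¹' {b} := by
      rw [← hr]
      exact ⟨w, rfl⟩
    exact h1
  obtain ⟨P, -, q0, hq0, hq0x⟩ := exists_PC (E := M.E) (F := B.E) hπ (i y0)
  obtain ⟨W, k, hW, hmW, -, hk0, hk⟩ := hol_inv P.isOpen P.hol hq0 (P.bij q0 hq0) (p := P.Ψ q0)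
    (mem_chart_source _ _)
  set cM := chartAt M.E (P.Ψ q0) with hcM
  set e := chartAt N.E y0 with he
  set η0 : N.E := e y0 with hη0
  have hη0t : η0 ∈ e.target := mem_chart_target N.E y0
  have hsη0 : e.symm η0 = y0 := e.left_inv (mem_chart_source N.E y0)
  set j : N.E → M.X := i ∘ e.symm with hj
  have hjη0 : j η0 = P.Ψ q0 := by
    show i (e.symm η0) = P.Ψ q0
    rw [hsη0, hq0x]
  have hjh : ∀ η ∈ e.target, Hol M.E j η := fun η hη => holo_comp hi (hol_symm hη)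
  set S : Set M.X := cM.source ∩ cM ⁻¹' W with hS
  have hSo : IsOpen S := cM.isOpen_inter_preimage hW
  set ON : Set N.E := e.target ∩ e.symm ⁻¹' (i ⁻¹' S) with hON
  have hONo : IsOpen ON := e.symm.isOpen_inter_preimage (hSo.preimage hi.continuous)
  have hη0O : η0 ∈ ON := by
    refine ⟨hη0t, ?_⟩
    show j η0 ∈ S
    rw [hjη0]
    exact ⟨mem_chart_source _ _, hmW⟩
  set κ : N.E → B.E × (Fin m → ℂ) := fun η => k (cM (j η)) with hκ
  have hκO : ∀ η ∈ ON, κ η ∈ P.O := fun η hη => (hk _ hη.2.2).1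
  have hκj : ∀ η ∈ ON, P.Ψ (κ η) = j η := by
    intro η hη
    have h1 := (hk _ hη.2.2).2.1
    have h2 : cM.symm (cM (j η)) = j η := cM.left_inv hη.2.1
    exact h1.trans h2
  have hκd : ∀ η ∈ ON, ContDiffAt ℂ ∞ κ η := by
    intro η hη
    have h1 : ContDiffAt ℂ ∞ (cM ∘ j) η := (hol_iff (hjh η hη.1).1 hη.2.1).1 (hjh η hη.1)
    exact ContDiffAt.comp η (hk _ hη.2.2).2.2 h1
  have hκ1 : ∀ η ∈ ON, (κ η).1 = chartAt B.E P.c b := by
    intro η hη
    have h1 := (P.base (hκO η hη)).2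
    rw [hκj η hη] at h1
    have h2 : π (j η) = b := hib _
    rw [h2] at h1
    exact h1.symm
  have hκ0 : κ η0 = q0 := by
    show k (cM (j η0)) = q0
    rw [hjη0]
    exact hk0
  set g : N.E → (Fin m → ℂ) := fun η => (κ η).2 with hg
  have hgd : ∀ η ∈ ON, ContDiffAt ℂ ∞ g η := fun η hη => (hκd η hη).snd
  have hgh : ∀ η ∈ ON, Hol (Fin m → ℂ) g η := fun η hη => ⟨(hgd η hη).continuousAt, hgd η hη⟩
  have hκr : DifferentiableAt ℝ κ η0 := ((hκd η0 hη0O).differentiableAt (by simp)).restrictScalars ℝ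
  have hgb : Function.Bijective (dvec (Fin m → ℂ) g η0) := by
    refine FExt_bij (by rw [hm]; simp) _ fun v hv => ?_
    have h1 : fderiv ℝ g η0 v = 0 := hv
    have h2 : HasFDerivAt κ (fderiv ℝ κ η0) η0 := hκr.hasFDerivAt
    have h3 : (fderiv ℝ κ η0 v).2 = 0 := by
      have h4 := h2.snd.fderiv
      have h5 : fderiv ℝ g η0 = _ := h4
      rw [h5] at h1
      exact h1
    have h4 : (fderiv ℝ κ η0 v).1 = 0 := by
      have h5 := h2.fst.fderiv
      have h6 : (fun η => (κ η).1) =ᶠ[nhds η0] fun _ => chartAt B.E P.c b := by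
        filter_upwards [hONo.mem_nhds hη0O] with η hη
        exact hκ1 η hη
      rw [h6.fderiv_eq, fderiv_fun_const] at h5
      have h7 := DFunLike.congr_fun h5 v
      exact h7.symm
    have h5 : fderiv ℝ κ η0 v = 0 := Prod.ext h4 h3
    have h6 : dvec M.E (P.Ψ ∘ κ) η0 = (dvec M.E P.Ψ (κ η0)).comp (fderiv ℝ κ η0) :=
      dvec_comp (P.hol _ (hκO η0 hη0O)).sm hκr
    have h7 : P.Ψ ∘ κ =ᶠ[nhds η0] j := by
      filter_upwards [hONo.mem_nhds hη0O] with η hη
      exact hκj η hη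
    have h8 : dvec M.E (P.Ψ ∘ κ) η0 = dvec M.E j η0 := by
      unfold dvec
      rw [h7.eq_of_nhds]
      exact (h7.fun_comp _).fderiv_eq
    have h9 : dvec M.E j η0 = (dmap N.E M.E i (e.symm η0)).comp (dvec N.E e.symm η0) :=
      dvec_holo hi (hol_symm hη0t).sm
    rw [hsη0, dvec_symm_self, ContinuousLinearMap.comp_id] at h9
    have h10 : dmap N.E M.E i y0 v = 0 := by
      rw [← h9, ← h8, h6, ContinuousLinearMap.comp_apply, h5, map_zero]
    rw [dmap_eq hi] at h10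
    apply hd y0
    rw [h10]
    exact (map_zero _).symm
  obtain ⟨W', k', hW', hmW', -, hk0', hk'⟩ := hol_inv (E := Fin m → ℂ) (X := Fin m → ℂ) (H := N.E)
    hONo hgh hη0O hgb (p := g η0) (mem_chart_source _ _)
  have hmW'' : q0.2 ∈ W' := by
    have h1 : g η0 ∈ W' := hmW'
    have h2 : g η0 = q0.2 := congrArg Prod.snd hκ0
    rwa [h2] at h1
  set O' : Set (B.E × (Fin m → ℂ)) := P.O ∩ Prod.snd ⁻¹' W' with hO'
  have hO'o : IsOpen O' := P.isOpen.inter (hW'.preimage continuous_snd)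
  refine ⟨P.Ψ '' O', P.isOpen_im hO'o Set.inter_subset_left, ⟨q0, ⟨hq0, hmW''⟩, hq0x⟩, ?_⟩
  intro χ hχ hs
  let P' : PC M.E B.E π m :=
    { c := P.c
      O := O'
      Ψ := P.Ψ
      isOpen := hO'o
      hol := fun q hq => P.hol q hq.1
      bij := fun q hq => P.bij q hq.1
      inj := P.inj.mono Set.inter_subset_left
      mem := fun q hq => P.mem q hq.1
      proj := fun q hq => P.proj q hq.1 }
  let f : B.E × (Fin m → ℂ) → ℝ := fun q => φ (e.symm (k' q.2))
  have hf : ContDiffOn ℝ ∞ f P'.O := by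
    intro q hq
    have h1 : k' q.2 ∈ ON := (hk' q.2 hq.2).1
    have h2 : ContDiffAt ℝ ∞ (fun q : B.E × (Fin m → ℂ) => k' q.2) q :=
      ContDiffAt.comp q ((hk' q.2 hq.2).2.2.restrict_scalars ℝ) contDiffAt_snd
    have h3 : Sm N.E (e.symm ∘ fun q : B.E × (Fin m → ℂ) => k' q.2) q :=
      Sm.comp (hol_symm h1.1).sm h2
    exact (hφ.at h3).contDiffWithinAt
  obtain ⟨Φ, h1, h2, h3⟩ := exists_push hπ P' (cut_smooth P' hχ hs hf) (cut_compact P' hs f)
    (cut_tsupport P' hs f)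
  refine ⟨Φ, h1, fun w => ?_⟩
  by_cases hw : i w ∈ P.Ψ '' O'
  · obtain ⟨q, hq, hqw⟩ := hw
    have h4 := h2 q hq
    have h5 : Φ (i w) = χ (i w) * φ (e.symm (k' q.2)) := by
      rw [← hqw]
      refine h4.trans ?_
      rw [Set.indicator_of_mem hq]
      rfl
    rw [h5]
    congr 2
    apply hinj
    have h6 : k' q.2 ∈ ON := (hk' q.2 hq.2).1
    have h7 : i (e.symm (k' q.2)) = P.Ψ (κ (k' q.2)) := (hκj _ h6).symm
    rw [h7, ← hqw]
    congr 1
    refine Prod.ext ?_ ?_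
    · rw [hκ1 _ h6]
      have h8 := (P.base hq.1).2
      rw [hqw, hib] at h8
      exact h8
    · exact (hk' q.2 hq.2).2.1
  · rw [h3 _ hw, image_eq_zero_of_notMem_tsupport fun h => hw (hs h), zero_mul]

theorem exists_extension (M B N : CM.{u}) (π : M.X → B.X) (m : ℕ) (hπ : Fibn M.E B.E π m) (b : B.X)
    (i : N.X → M.X) (hi : ContMDiff 𝓘(ℂ, N.E) 𝓘(ℂ, M.E) ω i)
    (hd : ∀ y, Function.Injective (mfderiv 𝓘(ℂ, N.E) 𝓘(ℂ, M.E) i y)) (hinj : Function.Injective i)
    (hr : Set.range i = π ⁻¹' {b}) (hm : Module.finrank ℂ N.E = m) (φ : N.X → ℝ) (hφ : SmF N.E φ) :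
    ∃ Φ : M.X → ℝ, SmF M.E Φ ∧ ∀ y, Φ (i y) = φ y := by
  have hcl : IsClosed (Set.range i) := by
    rw [hr]
    exact isClosed_singleton.preimage hπ.hol.continuous
  have hex : ∀ x : M.X, ∃ U : Set M.X, IsOpen U ∧ x ∈ U ∧ ∀ χ : M.X → ℝ, SmF M.E χ →
      tsupport χ ⊆ U → ∃ Φ : M.X → ℝ, SmF M.E Φ ∧ ∀ w, Φ (i w) = χ (i w) * φ w := by
    intro x
    by_cases hx : x ∈ Set.range i
    · obtain ⟨y0, rfl⟩ := hx
      exact FExt_local M B N π m hπ b i hi hd hinj hr hm φ hφ y0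
    · refine ⟨(Set.range i)ᶜ, hcl.isOpen_compl, hx, fun χ _ hs => ⟨fun _ => 0, SmF.const 0, fun w => ?_⟩⟩
      rw [image_eq_zero_of_notMem_tsupport fun h => hs h ⟨w, rfl⟩, zero_mul]
  choose U hU hxU hUχ using hex
  obtain ⟨n, c, χ, h1, -, h3, h4⟩ := pou (E := M.E) U hU hxU
  choose Φ hΦ hΦi using fun k => hUχ (c k) (χ k) (h1 k) (h3 k)
  refine ⟨fun x => ∑ k, Φ k x, SmF.sum _ fun k _ => hΦ k, fun y => ?_⟩
  have h5 : ∑ k, Φ k (i y) = ∑ k, χ k (i y) * φ y := Finset.sum_congr rfl fun k _ => hΦi k y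
  show ∑ k, Φ k (i y) = φ y
  rw [h5, ← Finset.sum_mul, h4, one_mul]

end Pool.Agent.FBN
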