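import Pool.Agent.FBN.Rel
import Pool.Agent.FBN.Asc
import Pool.Agent.FBN.Vol

/-!
# FBN/Hom: fibrewise homogeneous fibrations

PROOF PLAN.  Let `x b` be the point of `fib_point` over `b`.  For `y` over `b` take `f` with `f y = x b`; the form `f^* β` (`exists_comap`) is `≥ 0`
(`dmap_I`) and positive on the vertical vectors at `y` (`df_y` is bijective and maps vertical vectors to vertical vectors since `π ∘ f = π`:
chain rule `mfderiv_comp`, `dmap_eq`), hence on a neighbourhood (`vpos_open`).  Finitely many such neighbourhoods cover `M`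
(`CompactSpace`); the sum of the forms (`exists_sum`) is positive on all vertical vectors (all summands are `≥ 0`, one is `> 0`).
-/

set_option autoImplicit false

noncomputable section

open scoped Manifold ContDiff Classical

namespace Pool.Agent.FBN

open Pool.Agent.FBR

universe u

/-- the pull back of `β` by a suitable map over `B` -/
private theorem Hom_loc (M B : CM.{u}) (π : M.X → B.X) (m : ℕ) (hπ : Fibn M.E B.E π m)
    (hf : FibHom M B π) (β : Form M.E M.X) (hβ : β.Semi) (x0 : M.X) (hx0 : β.PosAt x0) (y : M.X) :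
    ∃ c : Form M.E M.X, c.Semi ∧ VPos B.E π c.val y := by
  obtain ⟨x, hxb, hx⟩ := fib_point hπ β hβ x0 hx0 (π y)
  obtain ⟨f, hfh, hfπ, hfy, hbij⟩ := hf y x hxb.symm
  subst hfy
  obtain ⟨c, hc⟩ := exists_comap β hfh
  have hval : ∀ z ξ, c.val z ξ (Complex.I • ξ) =
      β.val (f z) (dmap M.E M.E f z ξ) (Complex.I • dmap M.E M.E f z ξ) := by
    intro z ξ
    rw [hc z, ← dmap_I hfh z ξ]
    rfl
  refine ⟨c, ?_, ?_⟩
  · intro z ξ
    rw [hval]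
    exact hβ _ _
  · intro ξ hξ hv
    rw [hval]
    apply hx
    · intro h0
      apply hξ
      have h5 : mfderiv 𝓘(ℂ, M.E) 𝓘(ℂ, M.E) f y ξ = 0 := (dmap_eq hfh y ξ).symm.trans h0
      exact hbij.1 (h5.trans (ContinuousLinearMap.map_zero (mfderiv 𝓘(ℂ, M.E) 𝓘(ℂ, M.E) f y)).symm)
    · have hcomp : π ∘ f = π := funext hfπ
      have h1 : MDifferentiableAt 𝓘(ℂ, M.E) 𝓘(ℂ, B.E) π (f y) := (hπ.hol (f y)).mdifferentiableAt (by simp)
      have h2 : MDifferentiableAt 𝓘(ℂ, M.E) 𝓘(ℂ, M.E) f y := (hfh y).mdifferentiableAt (by simp)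
      have h3 := mfderiv_comp y h1 h2
      have h4 : mfderiv 𝓘(ℂ, M.E) 𝓘(ℂ, B.E) (π ∘ f) y ξ =
          mfderiv 𝓘(ℂ, M.E) 𝓘(ℂ, B.E) π (f y) (mfderiv 𝓘(ℂ, M.E) 𝓘(ℂ, M.E) f y ξ) :=
        congrArg (fun L : TangentSpace 𝓘(ℂ, M.E) y →L[ℂ] TangentSpace 𝓘(ℂ, B.E) ((π ∘ f) y) => L ξ) h3
      have hfπ' : ∀ g : M.X → B.X, g = π → ContMDiff 𝓘(ℂ, M.E) 𝓘(ℂ, B.E) ω g →
          dmap M.E B.E g y ξ = 0 := by
        rintro g rfl -
        exact hv
      have hπf : ContMDiff 𝓘(ℂ, M.E) 𝓘(ℂ, B.E) ω (π ∘ f) := by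
        rw [hcomp]
        exact hπ.hol
      have h6 := hfπ' (π ∘ f) hcomp hπf
      have h7 : mfderiv 𝓘(ℂ, M.E) 𝓘(ℂ, B.E) (π ∘ f) y ξ = 0 := (dmap_eq hπf y ξ).symm.trans h6
      have h8 : dmap M.E B.E π (f y) (dmap M.E M.E f y ξ) =
          mfderiv 𝓘(ℂ, M.E) 𝓘(ℂ, B.E) π (f y) (mfderiv 𝓘(ℂ, M.E) 𝓘(ℂ, M.E) f y ξ) :=
        (dmap_eq hπ.hol (f y) _).trans
          (congrArg (fun v => mfderiv 𝓘(ℂ, M.E) 𝓘(ℂ, B.E) π (f y) v) (dmap_eq hfh y ξ))
      exact h8.trans (h4.symm.trans h7)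

theorem hom_vpos (M B : CM.{u}) (π : M.X → B.X) (m : ℕ) (hπ : Fibn M.E B.E π m) (h : SemiPos M)
    (hf : FibHom M B π) : ∃ c : Form M.E M.X, ∀ x, VPos B.E π c.val x := by
  obtain ⟨β, hβ, x0, hx0⟩ := h
  choose c hc1 hc2 using Hom_loc M B π m hπ hf β hβ x0 hx0
  obtain ⟨t, ht⟩ := CompactSpace.elim_nhds_subcover (fun y => {x | VPos B.E π (c y).val x})
    (fun y => (vpos_open hπ (c y)).mem_nhds (hc2 y))
  obtain ⟨d, hd⟩ := exists_sum t c
  refine ⟨d, fun x ξ hξ hv => ?_⟩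
  rw [hd x]
  have e1 : (∑ i ∈ t, (c i).val x) ξ (Complex.I • ξ) = ∑ i ∈ t, (c i).val x ξ (Complex.I • ξ) := by
    simp only [sum_apply]
  rw [e1]
  have hx : x ∈ ⋃ y ∈ t, {x | VPos B.E π (c y).val x} := by
    rw [ht]
    trivial
  simp only [Set.mem_iUnion] at hx
  obtain ⟨y, hyt, hy⟩ := hx
  exact Finset.sum_pos' (fun i _ => hc1 i x ξ) ⟨y, hyt, hy ξ hξ hv⟩

end Pool.Agent.FBN
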