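import Pool.Agent.FBN.FExt
import Pool.Agent.FBN.Asc
import Pool.Agent.FBN.Vol

/-!
# FBN/KStep: fibrations with fibres of class `KProp`

PROOF PLAN.  `di_y : N.E → M.E` is injective with values in `ker dπ` (`π ∘ i` is constant), which has dimension `m = finrank N.E`
(rank-nullity, `hπ.dim`, `hπ.subm`), so it is onto `ker dπ` (`dmap_eq`).
`k_fibre`: `exists_comap β hi` gives `θ` on `N`, `θ.Semi` (`dmap_I`), positive at the point `y` with `i y = x`, `x` the point of `hx` (`di_y w` is vertical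
and nonzero for `w ≠ 0`); `KProp` gives `φ`; `exists_extension` gives `Φ`; for a vertical `v ≠ 0` at `x = i y`: `v = di w`, `w ≠ 0`, and
`(β + ddcF Φ) v (I v) = (θ + ddcF (Φ ∘ i)) w (I w) > 0` (`ddcF_holo`, `Φ ∘ i = φ`).
-/

set_option autoImplicit false

noncomputable section

open scoped Manifold ContDiff Classical

namespace Pool.Agent.FBN

open Pool.Agent.FBR

universe u

private theorem KStep_const {M B N : CM.{u}} {π : M.X → B.X} {i : N.X → M.X} {b : B.X}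
    (hr : Set.range i = π ⁻¹' {b}) (y : N.X) : π (i y) = b := by
  have h : i y ∈ π ⁻¹' {b} := by
    rw [← hr]
    exact ⟨y, rfl⟩
  exact h

private theorem KStep_inj {M N : CM.{u}} {i : N.X → M.X} (hi : ContMDiff 𝓘(ℂ, N.E) 𝓘(ℂ, M.E) ω i)
    {y : N.X} (hd : Function.Injective (mfderiv 𝓘(ℂ, N.E) 𝓘(ℂ, M.E) i y)) :
    Function.Injective (dmap N.E M.E i y) := by
  have h : (dmap N.E M.E i y : N.E → M.E) = (mfderiv 𝓘(ℂ, N.E) 𝓘(ℂ, M.E) i y : N.E → M.E) := by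
    funext v
    exact dmap_eq hi y v
  rw [h]
  exact hd

private theorem KStep_comp {M B N : CM.{u}} {π : M.X → B.X} {m : ℕ} (hπ : Fibn M.E B.E π m) {i : N.X → M.X}
    (hi : ContMDiff 𝓘(ℂ, N.E) 𝓘(ℂ, M.E) ω i) {b : B.X} (hc : ∀ y, π (i y) = b) (y : N.X) :
    (mfderiv 𝓘(ℂ, M.E) 𝓘(ℂ, B.E) π (i y)).comp (mfderiv 𝓘(ℂ, N.E) 𝓘(ℂ, M.E) i y) = 0 := by
  have h1 : MDifferentiableAt 𝓘(ℂ, N.E) 𝓘(ℂ, M.E) i y := (hi y).mdifferentiableAt (by simp)
  have h2 : MDifferentiableAt 𝓘(ℂ, M.E) 𝓘(ℂ, B.E) π (i y) := (hπ.hol (i y)).mdifferentiableAt (by simp)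
  have h3 := mfderiv_comp y h2 h1
  have h4 : π ∘ i = fun _ => b := funext hc
  rw [← h3, h4]
  exact mfderiv_const

private theorem KStep_vert {M B N : CM.{u}} {π : M.X → B.X} {m : ℕ} (hπ : Fibn M.E B.E π m) {i : N.X → M.X}
    (hi : ContMDiff 𝓘(ℂ, N.E) 𝓘(ℂ, M.E) ω i) {b : B.X} (hc : ∀ y, π (i y) = b) (y : N.X) (w : N.E) :
    dmap M.E B.E π (i y) (dmap N.E M.E i y w) = 0 := by
  rw [dmap_eq hπ.hol, dmap_eq hi]
  exact DFunLike.congr_fun (KStep_comp hπ hi hc y) w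

private theorem KStep_onto {M B N : CM.{u}} {π : M.X → B.X} {m : ℕ} (hπ : Fibn M.E B.E π m) {i : N.X → M.X}
    (hi : ContMDiff 𝓘(ℂ, N.E) 𝓘(ℂ, M.E) ω i)
    (hd : ∀ y, Function.Injective (mfderiv 𝓘(ℂ, N.E) 𝓘(ℂ, M.E) i y)) {b : B.X} (hc : ∀ y, π (i y) = b)
    (hm : Module.finrank ℂ N.E = m) (y : N.X) (v : M.E) (hv : dmap M.E B.E π (i y) v = 0) :
    ∃ w, dmap N.E M.E i y w = v := by
  let p : M.E →ₗ[ℂ] B.E := (mfderiv 𝓘(ℂ, M.E) 𝓘(ℂ, B.E) π (i y) : M.E →L[ℂ] B.E).toLinearMap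
  let q : N.E →ₗ[ℂ] M.E := (mfderiv 𝓘(ℂ, N.E) 𝓘(ℂ, M.E) i y : N.E →L[ℂ] M.E).toLinearMap
  have hq : Function.Injective q := hd y
  have hp : Function.Surjective p := hπ.subm (i y)
  have hle : LinearMap.range q ≤ LinearMap.ker p := by
    rintro _ ⟨w, rfl⟩
    exact DFunLike.congr_fun (KStep_comp hπ hi hc y) w
  have h1 : Module.finrank ℂ (LinearMap.range q) = m := by
    rw [LinearMap.finrank_range_of_inj hq, hm]
  have h2 : Module.finrank ℂ (LinearMap.ker p) = m := by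
    have h3 := LinearMap.finrank_range_add_finrank_ker p
    have h4 := hπ.dim
    have h5 : Module.finrank ℂ (LinearMap.range p) = Module.finrank ℂ B.E := by
      rw [LinearMap.range_eq_top.2 hp, finrank_top]
    omega
  have heq : LinearMap.range q = LinearMap.ker p :=
    Submodule.eq_of_le_of_finrank_le hle (by rw [h1, h2])
  have hvk : v ∈ LinearMap.ker p := by
    rw [dmap_eq hπ.hol] at hv
    exact hv
  rw [← heq] at hvk
  obtain ⟨w, hw⟩ := hvk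
  exact ⟨w, by rw [dmap_eq hi]; exact hw⟩

theorem k_fibre (M B : CM.{u}) (π : M.X → B.X) (m : ℕ) (hπ : Fibn M.E B.E π m) (β : Form M.E M.X) (hβ : β.Semi)
    (b : B.X) (hx : ∃ x, π x = b ∧ VPos B.E π β.val x) (hk : KFib M B π m b) :
    ∃ φ : M.X → ℝ, SmF M.E φ ∧ ∀ x, π x = b → VPos B.E π (fun x => β.val x + ddcF M.E φ x) x := by
  obtain ⟨N, i, hi, hd, hinj, hr, hm, hK⟩ := hk
  obtain ⟨x, hxb, hxp⟩ := hx
  have hvert : ∀ y w, dmap M.E B.E π (i y) (dmap N.E M.E i y w) = 0 := fun y w =>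
    KStep_vert hπ hi (KStep_const hr) y w
  have honto : ∀ y v, dmap M.E B.E π (i y) v = 0 → ∃ w, dmap N.E M.E i y w = v := fun y v hv =>
    KStep_onto hπ hi hd (KStep_const hr) hm y v hv
  have hinj' : ∀ y, Function.Injective (dmap N.E M.E i y) := fun y => KStep_inj hi (hd y)
  obtain ⟨θ, hθ⟩ := exists_comap β hi
  have hsemi : θ.Semi := by
    intro y v
    rw [hθ]
    show 0 ≤ β.val (i y) (dmap N.E M.E i y v) (dmap N.E M.E i y (Complex.I • v))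
    rw [dmap_I hi]
    exact hβ _ _
  have hpos : ∃ y, θ.PosAt y := by
    have hmem : x ∈ Set.range i := by
      rw [hr]
      exact hxb
    obtain ⟨y, rfl⟩ := hmem
    refine ⟨y, fun v hv => ?_⟩
    rw [hθ]
    show 0 < β.val (i y) (dmap N.E M.E i y v) (dmap N.E M.E i y (Complex.I • v))
    rw [dmap_I hi]
    refine hxp _ (fun h0 => hv ?_) (hvert y v)
    apply hinj' y
    rw [h0, map_zero]
  obtain ⟨φ, hφ, hφp⟩ := hK θ hsemi hpos
  obtain ⟨Φ, hΦ, hΦi⟩ := exists_extension M B N π m hπ b i hi hd hinj hr hm φ hφ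
  refine ⟨Φ, hΦ, ?_⟩
  intro z hz v hv h0
  have hmem : z ∈ Set.range i := by
    rw [hr]
    exact hz
  obtain ⟨y, rfl⟩ := hmem
  obtain ⟨w, rfl⟩ := honto y v h0
  have hw : w ≠ 0 := by
    rintro rfl
    exact hv (map_zero _)
  have h1 := hφp y w hw
  have h2 : φ = Φ ∘ i := by
    funext y
    exact (hΦi y).symm
  have h3 := ddcF_holo hΦ hi y
  rw [h2, h3, hθ] at h1
  have h4 : (0 : ℝ) < β.val (i y) (dmap N.E M.E i y w) (dmap N.E M.E i y (Complex.I • w)) +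
      ddcF M.E Φ (i y) (dmap N.E M.E i y w) (dmap N.E M.E i y (Complex.I • w)) := h1
  rw [dmap_I hi] at h4
  exact h4

theorem k_vpos (M B : CM.{u}) (π : M.X → B.X) (m : ℕ) (hπ : Fibn M.E B.E π m) (h : SemiPos M)
    (hk : ∀ b, KFib M B π m b) : ∃ c : Form M.E M.X, ∀ x, VPos B.E π c.val x := by
  obtain ⟨β, hβ, x0, hx0⟩ := h
  obtain ⟨φ, hφ, hp⟩ := ascend hπ β fun b =>
    k_fibre M B π m hπ β hβ b (fib_point hπ β hβ x0 hx0 b) (hk b)
  obtain ⟨e, he⟩ := exists_ddcF hφ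
  obtain ⟨c, hc⟩ := exists_comb β e 1 1
  refine ⟨c, fun x v hv h0 => ?_⟩
  have := hp x v hv h0
  rw [hc, he]
  simpa using this

end Pool.Agent.FBN
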