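import Pool.Agent.FBN.Tow
import Pool.Agent.FBN.BStep
import Pool.Agent.FBN.KStep
import Pool.Agent.FBN.Hom
import Pool.Agent.FBR.CStep
import Pool.Agent.FBS.Main

/-!
# FBN/Main: the induction; the steps of the parts T (tori) and P (fibre products) are hypotheses here
-/

set_option autoImplicit false

noncomputable section

open scoped Manifold ContDiff Classical

namespace Pool.Agent.FBN

open Pool.Agent.FBR Pool.Agent.FBS

universe u

theorem fibn_one {M B : CM.{u}} {π : M.X → B.X} (h : Fibn M.E B.E π 1) : CurveFib M.E B.E π :=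
  ⟨h.hol, h.subm, h.dim, h.conn⟩

theorem curve_vpos (M B : CM.{u}) (π : M.X → B.X) (hπ : CurveFib M.E B.E π) (h : SemiPos M) :
    ∃ c : Form M.E M.X, ∀ x, VPos B.E π c.val x := by
  obtain ⟨β, hβ, x0, hx0⟩ := h
  obtain ⟨φ, hφ, hp⟩ := FBR.ascend hπ β (fun b => by
    obtain ⟨x, hx, hxp⟩ := FBR.fib_point hπ β hβ x0 hx0 b
    exact fib_all hπ β b (fun x _ ξ _ => hβ x ξ) x hx hxp)
  obtain ⟨e, he⟩ := exists_ddcF hφ
  obtain ⟨c, hc⟩ := exists_comb β e 1 1
  refine ⟨c, fun x v hv h0 => ?_⟩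
  have := hp x v hv h0
  rw [hc, he]
  simpa using this

/-- a form which is positive on the fibres -/
theorem good_vpos
    (torus_vpos : ∀ (M B : CM.{u}) (π : M.X → B.X) (k : ℕ), TorusFib M.E B.E π k → SemiPos M →
      ∃ c : Form M.E M.X, ∀ x v, v ≠ 0 → dmap M.E B.E π x v = 0 → 0 < c.val x v (Complex.I • v))
    (M B : CM.{u}) (π : M.X → B.X) (m : ℕ) (hπ : Fibn M.E B.E π m) (hg : GoodFib M B π m) (h : SemiPos M) :
    ∃ c : Form M.E M.X, ∀ x v, v ≠ 0 → dmap M.E B.E π x v = 0 → 0 < c.val x v (Complex.I • v) := by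
  rcases hg with h1 | ht | ⟨θ, hθ⟩ | hk | hf
  · subst h1
    exact curve_vpos M B π (fibn_one hπ) h
  · exact torus_vpos M B π m ht h
  · refine ⟨θ, fun x v hv h0 => hθ x v hv ?_⟩
    rw [← dmap_eq hπ.hol]
    exact h0
  · exact k_vpos M B π m hπ h hk
  · exact hom_vpos M B π m hπ h hf

theorem tow_of
    (torus_vpos : ∀ (M B : CM.{u}) (π : M.X → B.X) (k : ℕ), TorusFib M.E B.E π k → SemiPos M →
      ∃ c : Form M.E M.X, ∀ x v, v ≠ 0 → dmap M.E B.E π x v = 0 → 0 < c.val x v (Complex.I • v))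
    (total_fujiki : ∀ (M B : CM.{u}) (π : M.X → B.X) (m : ℕ), Fibn M.E B.E π m → ∀ c : Form M.E M.X,
      (∀ x v, v ≠ 0 → dmap M.E B.E π x v = 0 → 0 < c.val x v (Complex.I • v)) → Fujiki B → Fujiki M)
    (C : CM.{u} → Prop) (hC : C = Fujiki ∨ C = Kaehler) (M : CM.{u}) (hM : Tow C M) (h : SemiPos M) : C M := by
  induction hM with
  | base M hK => exact hK h
  | fib M B π m hπ hg hB ih =>
    obtain ⟨c, hc⟩ := good_vpos torus_vpos M B π m hπ hg h
    have hBC := ih (base_semiPos M B π m hπ h)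
    rcases hC with rfl | rfl
    · exact total_fujiki M B π m hπ c hc hBC
    · exact fib_pos M B π hπ.hol c hc hBC
  | noBase M B π m hπ hB => exact absurd (base_semiPos M B π m hπ h) hB
  | image M' M f hf hs hd hC' hM' ih => exact hC' (ih (dom_up M' M f hf hs hd h))
  | quot M' M p hp hM' ih =>
    have h' := ih (cover_up M' M p hp h)
    rcases hC with rfl | rfl
    · obtain ⟨Z, f, hZ, hf, hs⟩ := h'
      exact ⟨Z, p ∘ f, hZ, hp.hol.comp hf, hp.surj.comp hs⟩
    · exact cover_down M' M p hp h'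
  | cov M hN =>
    exfalso
    obtain ⟨b, hb, x, hx⟩ := h
    obtain ⟨N, i, hi, hn, y, hy, hinj⟩ := hN _ (isOpen_pos M b) ⟨x, hx⟩
    exact hn (semi_up M N i hi b hb y hy (dmap_inj hi hinj))

end Pool.Agent.FBN
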