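import Pool.Agent.FBN.DetK
import Pool.Agent.FBR.Prod

/-!
# FBN/Prod: product charts, fibres of dimension `m`

PROOF PLAN.  The same statements for fibres of dimension one (`ℂ` instead of `Fin m → ℂ`) are proved in `Pool/Agent/FBR/Prod.lean`: adapt
that file (`dvec_tc`, `tc_dvec`, `tc_I` there can be cited).  For `exists_PC`: choose a complex linear `ℓ : E →L[ℂ] (Fin m → ℂ)`
which is an isomorphism on the kernel of `dmap E F π x0` (dimension `m` by rank-nullity and `h.dim`).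
`vert_span`: `fr m` spans `Fin m → ℂ` over `ℝ` (`fr_span`), `P.vf q j = dvec E P.Ψ q (0, fr m j)`.
-/

set_option autoImplicit false

noncomputable section

open scoped Manifold ContDiff Classical

namespace Pool.Agent.FBN

open Pool.Agent.FBR

variable {E X : Type*} [NormedAddCommGroup E] [NormedSpace ℂ E] [FiniteDimensional ℂ E]
  [TopologicalSpace X] [ChartedSpace E X] [IsManifold 𝓘(ℂ, E) ω X]
  {F B : Type*} [NormedAddCommGroup F] [NormedSpace ℂ F] [FiniteDimensional ℂ F] [TopologicalSpace B]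
  [ChartedSpace F B] [IsManifold 𝓘(ℂ, F) ω B] {π : X → B} {m : ℕ}

omit [FiniteDimensional ℂ E] [IsManifold 𝓘(ℂ, E) ω X] in
private theorem Prod_dvec_congr {G : Type*} [NormedAddCommGroup G] [NormedSpace ℝ G] {f f' : G → X} {q : G}
    (h : f =ᶠ[nhds q] f') : dvec E f q = dvec E f' q := by
  have h1 : f q = f' q := h.eq_of_nhds
  unfold dvec
  rw [h1]
  exact Filter.EventuallyEq.fderiv_eq (h.fun_comp (chartAt E (f' q)))

theorem PC.dmap_dvec (hπ : ContMDiff 𝓘(ℂ, E) 𝓘(ℂ, F) ω π) (P : PC E F π m) {q : F × (Fin m → ℂ)}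
    (hq : q ∈ P.O) (v : F × (Fin m → ℂ)) :
    dmap E F π (P.Ψ q) (dvec E P.Ψ q v) = dvec F (chartAt F P.c).symm q.1 v.1 := by
  have h1 := dvec_holo hπ (P.hol q hq).sm
  have h2 : π ∘ P.Ψ =ᶠ[nhds q] (chartAt F P.c).symm ∘ Prod.fst := by
    filter_upwards [P.isOpen.mem_nhds hq] with q' hq'
    exact P.proj q' hq'
  have h3 : dvec F (π ∘ P.Ψ) q = (dvec F (chartAt F P.c).symm q.1).comp (fderiv ℝ Prod.fst q) := by
    rw [Prod_dvec_congr h2]
    exact dvec_comp (k := Prod.fst) (hol_symm (P.mem q hq)).sm differentiableAt_fst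
  have h4 := DFunLike.congr_fun (h1.symm.trans h3) v
  rw [fderiv_fst] at h4
  exact h4

/-- the lift of a tangent vector of the base in a product chart -/
theorem PC.dmap_tc (hπ : ContMDiff 𝓘(ℂ, E) 𝓘(ℂ, F) ω π) (P : PC E F π m) {b : B}
    (hb : b ∈ (chartAt F P.c).source) {z : Fin m → ℂ} (hq : (chartAt F P.c b, z) ∈ P.O) (u : F) :
    dmap E F π (P.Ψ (chartAt F P.c b, z)) (dvec E P.Ψ (chartAt F P.c b, z) (tc F P.c b u, 0)) = u := by
  rw [P.dmap_dvec hπ hq]
  exact dvec_tc hb u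

/-- the vertical tangent vectors -/
theorem PC.vert_iff (hπ : ContMDiff 𝓘(ℂ, E) 𝓘(ℂ, F) ω π) (P : PC E F π m) {q : F × (Fin m → ℂ)}
    (hq : q ∈ P.O) (v : E) :
    dmap E F π (P.Ψ q) v = 0 ↔ ∃ r : Fin m → ℂ, v = dvec E P.Ψ q (0, r) := by
  constructor
  · intro h
    obtain ⟨⟨a, w⟩, rfl⟩ := (P.bij q hq).2 v
    rw [P.dmap_dvec hπ hq] at h
    have h1 := (dvec_symm_bij (E := F) (P.mem q hq)).1
    have h2 : a = 0 := h1 (h.trans (map_zero _).symm)
    subst h2
    exact ⟨w, rfl⟩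
  · rintro ⟨r, rfl⟩
    rw [P.dmap_dvec hπ hq]
    exact map_zero _

omit [FiniteDimensional ℂ E] [IsManifold 𝓘(ℂ, E) ω X] [FiniteDimensional ℂ F]
  [IsManifold 𝓘(ℂ, F) ω B] in
private theorem Prod_mem_span (P : PC E F π m) (q : F × (Fin m → ℂ)) {r : Fin m → ℂ}
    (hr : r ∈ Submodule.span ℝ (Set.range (fr m))) :
    dvec E P.Ψ q (0, r) ∈ Submodule.span ℝ (Set.range (P.vf q)) := by
  induction hr using Submodule.span_induction with
  | mem w hw =>
    obtain ⟨j, rfl⟩ := hw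
    exact Submodule.subset_span ⟨j, rfl⟩
  | zero =>
    have h0 : ((0 : F), (0 : Fin m → ℂ)) = 0 := rfl
    rw [h0, map_zero]
    exact Submodule.zero_mem _
  | add a b _ _ ha hb =>
    have h0 : ((0 : F), a + b) = (0, a) + (0, b) := by simp
    rw [h0, map_add]
    exact Submodule.add_mem _ ha hb
  | smul c a _ ha =>
    have h0 : ((0 : F), c • a) = c • ((0 : F), a) := by simp
    rw [h0, map_smul]
    exact Submodule.smul_mem _ _ ha

theorem PC.vert_span (hπ : ContMDiff 𝓘(ℂ, E) 𝓘(ℂ, F) ω π) (P : PC E F π m) {q : F × (Fin m → ℂ)}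
    (hq : q ∈ P.O) (v : E) :
    dmap E F π (P.Ψ q) v = 0 ↔ v ∈ Submodule.span ℝ (Set.range (P.vf q)) := by
  constructor
  · intro h
    obtain ⟨r, rfl⟩ := (P.vert_iff hπ hq v).1 h
    refine Prod_mem_span P q ?_
    rw [fr_span]
    exact Submodule.mem_top
  · intro h
    induction h using Submodule.span_induction with
    | mem w hw =>
      obtain ⟨j, rfl⟩ := hw
      exact (P.vert_iff hπ hq _).2 ⟨fr m j, rfl⟩
    | zero => exact map_zero _
    | add a b _ _ ha hb => rw [map_add, ha, hb, add_zero]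
    | smul c a _ ha => rw [map_smul, ha, smul_zero]

theorem PC.dvec_ne (P : PC E F π m) {q : F × (Fin m → ℂ)} (hq : q ∈ P.O) {r : Fin m → ℂ} (hr : r ≠ 0) :
    dvec E P.Ψ q (0, r) ≠ 0 := by
  intro h
  have h1 := (P.bij q hq).1 (h.trans (map_zero _).symm)
  exact hr (congrArg Prod.snd h1)

/-- the point of the base -/
theorem PC.base (P : PC E F π m) {q : F × (Fin m → ℂ)} (hq : q ∈ P.O) :
    π (P.Ψ q) ∈ (chartAt F P.c).source ∧ chartAt F P.c (π (P.Ψ q)) = q.1 := by
  rw [P.proj q hq]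
  exact ⟨(chartAt F P.c).map_target (P.mem q hq), (chartAt F P.c).right_inv (P.mem q hq)⟩

theorem PC.isOpen_im (P : PC E F π m) {S : Set (F × (Fin m → ℂ))} (hS : IsOpen S) (hSO : S ⊆ P.O) :
    IsOpen (P.Ψ '' S) := by
  exact isOpen_image hS (fun q hq => (P.hol q (hSO hq)).sm) (fun q hq => P.bij q (hSO hq))

theorem PC.isCompact_preim (P : PC E F π m) {K : Set X} (hK : IsCompact K) (hKO : K ⊆ P.Ψ '' P.O) :
    IsCompact {q | q ∈ P.O ∧ P.Ψ q ∈ K} := by
  have h1 : Continuous (fun q : P.O => P.Ψ q) := by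
    rw [continuous_iff_continuousAt]
    intro q
    exact (P.hol q q.2).1.comp continuousAt_subtype_val
  have h2 : Function.Injective (fun q : P.O => P.Ψ q) := fun q q' h => Subtype.ext (P.inj q.2 q'.2 h)
  have h3 : IsOpenMap (fun q : P.O => P.Ψ q) := by
    intro S hS
    have h4 : (fun q : P.O => P.Ψ q) '' S = P.Ψ '' (Subtype.val '' S) := by
      rw [Set.image_image]
    rw [h4]
    refine P.isOpen_im (P.isOpen.isOpenMap_subtype_val S hS) ?_
    rintro _ ⟨q, -, rfl⟩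
    exact q.2
  have h5 : Topology.IsOpenEmbedding (fun q : P.O => P.Ψ q) :=
    Topology.IsOpenEmbedding.of_continuous_injective_isOpenMap h1 h2 h3
  have h6 : IsCompact ((fun q : P.O => P.Ψ q) ⁻¹' K) := by
    rw [h5.isInducing.isCompact_iff, Set.image_preimage_eq_of_subset]
    · exact hK
    · intro x hx
      obtain ⟨q, hq, rfl⟩ := hKO hx
      exact ⟨⟨q, hq⟩, rfl⟩
  have h7 : {q | q ∈ P.O ∧ P.Ψ q ∈ K} = Subtype.val '' ((fun q : P.O => P.Ψ q) ⁻¹' K) := by
    ext q
    constructor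
    · rintro ⟨hq, hqK⟩
      exact ⟨⟨q, hq⟩, hqK, rfl⟩
    · rintro ⟨q', hq', rfl⟩
      exact ⟨q'.2, hq'⟩
  rw [h7]
  exact h6.image continuous_subtype_val

/-- `m` linear forms on `E` which are an isomorphism on the kernel of a surjection onto a space of dimension
less by `m` -/
private theorem Prod_form {E F : Type*} [NormedAddCommGroup E] [NormedSpace ℂ E] [FiniteDimensional ℂ E]
    [NormedAddCommGroup F] [NormedSpace ℂ F] [FiniteDimensional ℂ F] {m : ℕ} (M : E →L[ℂ] F)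
    (hM : Function.Surjective M) (hd : Module.finrank ℂ E = Module.finrank ℂ F + m) :
    ∃ l : E →L[ℂ] (Fin m → ℂ), ∀ v, M v = 0 → l v = 0 → v = 0 := by
  have h1 := LinearMap.finrank_range_add_finrank_ker (M : E →ₗ[ℂ] F)
  have h2 : LinearMap.range (M : E →ₗ[ℂ] F) = ⊤ := LinearMap.range_eq_top.2 hM
  rw [h2, finrank_top] at h1
  have h3 : Module.finrank ℂ (LinearMap.ker (M : E →ₗ[ℂ] F)) = Module.finrank ℂ (Fin m → ℂ) := by
    rw [Module.finrank_fin_fun]
    omega
  obtain ⟨e⟩ := FiniteDimensional.nonempty_linearEquiv_of_finrank_eq h3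
  obtain ⟨g, hg⟩ := LinearMap.exists_extend (p := LinearMap.ker (M : E →ₗ[ℂ] F))
    (e : LinearMap.ker (M : E →ₗ[ℂ] F) →ₗ[ℂ] (Fin m → ℂ))
  refine ⟨LinearMap.toContinuousLinearMap g, fun v hv hlv => ?_⟩
  have hlv' : g v = 0 := hlv
  have hvk : v ∈ LinearMap.ker (M : E →ₗ[ℂ] F) := hv
  have h4 := DFunLike.congr_fun hg ⟨v, hvk⟩
  have h5 : g v = e ⟨v, hvk⟩ := h4
  rw [hlv'] at h5
  have h6 : (⟨v, hvk⟩ : LinearMap.ker (M : E →ₗ[ℂ] F)) = 0 := by
    rw [← e.map_eq_zero_iff]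
    exact h5.symm
  exact congrArg Subtype.val h6

private theorem Prod_bij {E F : Type*} [NormedAddCommGroup E] [NormedSpace ℂ E] [FiniteDimensional ℂ E]
    [NormedAddCommGroup F] [NormedSpace ℂ F] [FiniteDimensional ℂ F] (L : E →L[ℝ] F)
    (hL : Function.Injective L) (hd : Module.finrank ℂ E = Module.finrank ℂ F) :
    Function.Bijective L := by
  have h1 : Module.finrank ℝ E = Module.finrank ℝ F := by
    rw [finrank_real_of_complex, finrank_real_of_complex, hd]
  exact ⟨hL, (LinearMap.injective_iff_surjective_of_finrank_eq_finrank (f := (L : E →ₗ[ℝ] F)) h1).1 hL⟩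

theorem exists_PC (h : Fibn E F π m) (x0 : X) :
    ∃ P : PC E F π m, P.c = π x0 ∧ x0 ∈ P.Ψ '' P.O := by
  have hπ := h.hol
  set c : B := π x0 with hc
  set e := chartAt E x0 with he
  set y0 : E := e x0 with hy0
  have hy0t : y0 ∈ e.target := mem_chart_target E x0
  have hsy0 : e.symm y0 = x0 := e.left_inv (mem_chart_source E x0)
  -- the derivative at the centre and the linear forms
  obtain ⟨l, hl⟩ := Prod_form (E := E) (F := F) (mfderiv 𝓘(ℂ, E) 𝓘(ℂ, F) π x0) (h.subm x0) h.dim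
  -- the inverse chart
  set θ : E → F × (Fin m → ℂ) := fun y => (chartAt F c (π (e.symm y)), l y) with hθ
  set OE : Set E := e.target ∩ e.symm ⁻¹' (π ⁻¹' (chartAt F c).source) with hOE
  have hOEo : IsOpen OE :=
    e.symm.isOpen_inter_preimage ((chartAt F c).open_source.preimage hπ.continuous)
  have hy0O : y0 ∈ OE := by
    refine ⟨hy0t, ?_⟩
    show π (e.symm y0) ∈ (chartAt F c).source
    rw [hsy0]
    exact mem_chart_source F c
  have hcd : ∀ y ∈ OE, ContDiffAt ℂ ∞ (chartAt F c ∘ (π ∘ e.symm)) y := by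
    intro y hy
    have h1 : Hol F (π ∘ e.symm) y := holo_comp hπ (hol_symm hy.1)
    exact (hol_iff h1.1 hy.2).1 h1
  have hθd : ∀ y ∈ OE, ContDiffAt ℂ ∞ θ y := fun y hy => (hcd y hy).prodMk l.contDiff.contDiffAt
  have hθh : ∀ y ∈ OE, Hol (F × (Fin m → ℂ)) θ y := fun y hy => ⟨(hθd y hy).continuousAt, hθd y hy⟩
  have hdim : Module.finrank ℂ E = Module.finrank ℂ (F × (Fin m → ℂ)) := by
    rw [h.dim, Module.finrank_prod, Module.finrank_fin_fun]
  have hθb : Function.Bijective (dvec (F × (Fin m → ℂ)) θ y0) := by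
    refine Prod_bij _ ?_ hdim
    rw [injective_iff_map_eq_zero]
    intro v hv
    have h1 : dvec (F × (Fin m → ℂ)) θ y0 = fderiv ℝ θ y0 := rfl
    have h2 : fderiv ℝ θ y0 = (fderiv ℝ (chartAt F c ∘ (π ∘ e.symm)) y0).prod (fderiv ℝ l y0) :=
      DifferentiableAt.fderiv_prodMk
        (((hcd y0 hy0O).differentiableAt (by simp)).restrictScalars ℝ)
        (l.differentiableAt.restrictScalars ℝ)
    rw [h1, h2] at hv
    have h3 : fderiv ℝ (chartAt F c ∘ (π ∘ e.symm)) y0 v = 0 := congrArg Prod.fst hv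
    have h4 : fderiv ℝ l y0 v = 0 := congrArg Prod.snd hv
    have h5 : dmap E F π x0 v = 0 := h3
    rw [dmap_eq hπ] at h5
    have h6 : fderiv ℝ (l : E → (Fin m → ℂ)) y0 = (fderiv ℂ l y0).restrictScalars ℝ :=
      l.differentiableAt.fderiv_restrictScalars ℝ
    rw [h6, l.fderiv] at h4
    exact hl v h5 h4
  obtain ⟨W, k, hW, hyW, -, hk0, hk⟩ := hol_inv (E := F × (Fin m → ℂ)) (X := F × (Fin m → ℂ)) (H := E)
    hOEo hθh hy0O hθb (p := θ y0) (mem_chart_source _ _)
  have hyW' : θ y0 ∈ W := hyW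
  have hk0' : k (θ y0) = y0 := hk0
  have hkθ : ∀ q ∈ W, θ (k q) = q := fun q hq => (hk q hq).2.1
  refine ⟨{ c := c, O := W, Ψ := e.symm ∘ k, isOpen := hW
            hol := ?_, bij := ?_, inj := ?_, mem := ?_, proj := ?_ }, rfl, θ y0, hyW', ?_⟩
  · intro q hq
    exact (hol_symm (hk q hq).1.1).comp (hk q hq).2.2
  · intro q hq
    have hkd : DifferentiableAt ℝ k q := ((hk q hq).2.2.differentiableAt (by simp)).restrictScalars ℝ
    have h1 : dvec E (e.symm ∘ k) q = (dvec E e.symm (k q)).comp (fderiv ℝ k q) :=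
      dvec_comp (hol_symm (hk q hq).1.1).sm hkd
    have h2 : Function.Bijective (fderiv ℝ k q) := by
      refine Prod_bij _ ?_ hdim.symm
      rw [injective_iff_map_eq_zero]
      intro v hv
      have hθk : θ ∘ k =ᶠ[nhds q] id := by
        filter_upwards [hW.mem_nhds hq] with q' hq'
        exact hkθ q' hq'
      have h3 : fderiv ℝ (θ ∘ k) q = (fderiv ℝ θ (k q)).comp (fderiv ℝ k q) :=
        fderiv_comp q (((hθd _ (hk q hq).1).differentiableAt (by simp)).restrictScalars ℝ) hkd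
      rw [hθk.fderiv_eq, fderiv_id] at h3
      have h4 := DFunLike.congr_fun h3 v
      rw [ContinuousLinearMap.comp_apply, hv, map_zero] at h4
      exact h4
    rw [h1]
    exact (dvec_symm_bij (hk q hq).1.1).comp h2
  · intro q hq q' hq' hqq
    have h1 : k q = k q' := e.symm.injOn (hk q hq).1.1 (hk q' hq').1.1 hqq
    rw [← hkθ q hq, ← hkθ q' hq', h1]
  · intro q hq
    have h1 := (chartAt F c).map_source (hk q hq).1.2
    have h2 : chartAt F c (π (e.symm (k q))) = q.1 := congrArg Prod.fst (hkθ q hq)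
    rw [h2] at h1
    exact h1
  · intro q hq
    have h2 : chartAt F c (π (e.symm (k q))) = q.1 := congrArg Prod.fst (hkθ q hq)
    rw [← h2]
    exact ((chartAt F c).left_inv (hk q hq).1.2).symm
  · show e.symm (k (θ y0)) = x0
    rw [hk0', hsy0]

end Pool.Agent.FBN
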