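import Pool.Agent.FBN.Defs
import Pool.Agent.FBR.VP
import Pool.Agent.FBR.Ops

/-!
# FBN/Rel: relative conditions on a fibration (definitions)
-/

set_option autoImplicit false

noncomputable section

open scoped Manifold ContDiff

namespace Pool.Agent.FBN

open Pool.Agent.FBR

universe u

/-- Every closed form `θ ≥ 0` on `N` which is positive definite at some point becomes positive definite everywhere
after adding `dd^c φ` for a suitable smooth function `φ`. -/
def KProp (N : CM.{u}) : Prop :=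
  ∀ θ : Form N.E N.X, θ.Semi → (∃ y, θ.PosAt y) →
    ∃ φ : N.X → ℝ, SmF N.E φ ∧
      ∀ (y : N.X) (v : N.E), v ≠ 0 → 0 < (θ.val y + ddcF N.E φ y) v (Complex.I • v)

/-- The fibre of `π` over `b` is (the image of) a compact complex manifold `N` with the property `KProp`. -/
def KFib (M B : CM.{u}) (π : M.X → B.X) (m : ℕ) (b : B.X) : Prop :=
  ∃ (N : CM.{u}) (i : N.X → M.X), ContMDiff 𝓘(ℂ, N.E) 𝓘(ℂ, M.E) ω i ∧
    (∀ y, Function.Injective (mfderiv 𝓘(ℂ, N.E) 𝓘(ℂ, M.E) i y)) ∧ Function.Injective i ∧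
    Set.range i = π ⁻¹' {b} ∧ Module.finrank ℂ N.E = m ∧ KProp N

/-- The holomorphic maps of `M` over `B` act transitively on the fibres: for `x, y` in the same fibre there is a
holomorphic `f : M → M` with `π ∘ f = π` and `f x = y` which is a local biholomorphism at `x`. -/
def FibHom (M B : CM.{u}) (π : M.X → B.X) : Prop :=
  ∀ x y : M.X, π x = π y → ∃ f : M.X → M.X, ContMDiff 𝓘(ℂ, M.E) 𝓘(ℂ, M.E) ω f ∧ (∀ z, π (f z) = π z) ∧
    f x = y ∧ Function.Bijective (mfderiv 𝓘(ℂ, M.E) 𝓘(ℂ, M.E) f x)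

end Pool.Agent.FBN
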