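import Pool.Agent.FBT.Fin

/-!
# FBN/TorV: fibrations by complex tori: a form which is positive on the fibres
-/

set_option autoImplicit false

noncomputable section

open scoped Manifold ContDiff Topology

namespace Pool.Agent.FBN

open Pool.Agent.FBR Pool.Agent.FBT

universe u

/-- the average of a semi-positive form over the flat translations is positive on the fibres -/
theorem torus_vpos (M B : CM.{u}) (π : M.X → B.X) (k : ℕ) (hπ : TorusFib M.E B.E π k)
    (h : SemiPos M) :
    ∃ c : Form M.E M.X, ∀ x v, v ≠ 0 → dmap M.E B.E π x v = 0 → 0 < c.val x v (Complex.I • v) := by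
  obtain ⟨b, hb, x0, h0⟩ := h
  obtain ⟨c, hc, he⟩ := exists_bav hπ b hb
  refine ⟨c, ?_⟩
  intro x v hv hd
  set C := Pool.Agent.FBT.tc hπ (π x) with hC
  obtain ⟨q, hq, hqx⟩ := exists_pt hπ x
  rw [← hC] at hq hqx
  have hHol : Hol M.E C.Φ q := tc_hol C hq
  have hbij := tc_bij C hq
  obtain ⟨w, hw⟩ := hbij.2
    (show M.E from v)
  have hw0 : w ≠ 0 := by
    rintro rfl
    rw [map_zero] at hw
    exact hv hw.symm
  have hcomp : (π ∘ C.Φ) =ᶠ[𝓝 q] ((chartAt B.E (π x)).symm ∘ Prod.fst) := by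
    have ho : IsOpen (C.V ×ˢ (Set.univ : Set (Fin k → ℂ))) := C.isOpen.prod isOpen_univ
    filter_upwards [ho.mem_nhds (Set.mk_mem_prod hq (Set.mem_univ q.2))] with r hr
    exact C.proj r.1 hr.1 r.2
  have hy : q.1 ∈ (chartAt B.E (π x)).target := C.sub hq
  have h1 : dvec B.E (π ∘ C.Φ) q w = 0 := by
    rw [dvec_holo hπ.hol hHol.sm, ContinuousLinearMap.comp_apply, hw, hqx]
    exact hd
  have h2 : dvec B.E (π ∘ C.Φ) q w = dvec B.E (chartAt B.E (π x)).symm q.1 w.1 := by
    rw [dvec_congr' hcomp, dvec_comp (f := (chartAt B.E (π x)).symm) (k := Prod.fst) (hol_symm hy).sm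
      differentiableAt_fst, ContinuousLinearMap.comp_apply]
    congr 1
    rw [fderiv_fst]
    rfl
  have h3 : w.1 = 0 := by
    rw [h1] at h2
    exact (dvec_symm_bij hy).1 (by rw [← h2, map_zero])
  have hw2 : w = (0, w.2) := Prod.ext h3 rfl
  have hξ : w.2 ≠ 0 := by
    intro h4
    exact hw0 (Prod.ext h3 h4)
  have hL := tc_lat C
  have hF := avg_form hL (tc_form C b)
  have h5 := Pool.Agent.FBT.fib_pos (c := avg C.lam (tpb b.val C.Φ) q) (hF.alt q hq) (hF.j q hq)
    (avg_semi hL (tc_form C b) (fun r hr => tc_semi C hb r hr) q hq)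
    (nonDeg_all hπ hb h0 C hq) hξ
  rw [← he (π x) C q hq, tpb_apply] at h5
  have h6 : ((0 : B.E), Complex.I • w.2) = Complex.I • w := by
    rw [hw2]
    simp
  rw [← hw2, h6, hHol.smul_I, hw, hqx] at h5
  exact h5

end Pool.Agent.FBN
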