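import Pool.Agent.FBN.Rel

/-!
# FBN/Tow: the closure rules (definitions)
-/

set_option autoImplicit false

noncomputable section

open scoped Manifold ContDiff

namespace Pool.Agent.FBN

open Pool.Agent.FBR

universe u

/-- The condition on a holomorphic submersion `π : M → B` with connected fibres of dimension `m`:
the fibres are curves; or the fibres are complex tori; or there is a closed real `(1,1)`-form on `M` which is
positive on the fibres (Kaehler fibration); or all fibres have the property `KProp`; or the holomorphic maps of `M`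
over `B` act transitively on the fibres. -/
def GoodFib (M B : CM.{u}) (π : M.X → B.X) (m : ℕ) : Prop :=
  m = 1 ∨ TorusFib M.E B.E π m ∨
    (∃ θ : Form M.E M.X, ∀ (x : M.X) (v : M.E), v ≠ 0 → mfderiv 𝓘(ℂ, M.E) 𝓘(ℂ, B.E) π x v = 0 →
      0 < θ.val x v (Complex.I • v)) ∨
    (∀ b, KFib M B π m b) ∨ FibHom M B π

/-- The smallest class of compact connected complex manifolds which contains the manifolds `M` for which
`SemiPos M → C M` is true and is closed under the rules given by the other constructors. -/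
inductive Tow (C : CM.{u} → Prop) : CM.{u} → Prop
  | base (M : CM.{u}) : (SemiPos M → C M) → Tow C M
  | fib (M B : CM.{u}) (π : M.X → B.X) (m : ℕ) : Fibn M.E B.E π m → GoodFib M B π m → Tow C B → Tow C M
  | noBase (M B : CM.{u}) (π : M.X → B.X) (m : ℕ) : Fibn M.E B.E π m → ¬ SemiPos B → Tow C M
  | image (M' M : CM.{u}) (f : M'.X → M.X) : ContMDiff 𝓘(ℂ, M'.E) 𝓘(ℂ, M.E) ω f → Function.Surjective f →
      Module.finrank ℂ M'.E = Module.finrank ℂ M.E → (C M' → C M) → Tow C M' → Tow C M
  | quot (M' M : CM.{u}) (p : M'.X → M.X) : Cover M'.E M.E p → Tow C M' → Tow C M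
  | cov (M : CM.{u}) : (∀ U : Set M.X, IsOpen U → U.Nonempty → ∃ (N : CM.{u}) (i : N.X → M.X),
      ContMDiff 𝓘(ℂ, N.E) 𝓘(ℂ, M.E) ω i ∧ ¬ SemiPos N ∧
        ∃ y, i y ∈ U ∧ Function.Injective (mfderiv 𝓘(ℂ, N.E) 𝓘(ℂ, M.E) i y)) → Tow C M

end Pool.Agent.FBN
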