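import Pool.Agent.FBN.Prod

/-!
# FBN/Trans: the integral of a vertical density does not depend on the product chart

PROOF PLAN.  The same statements for fibres of dimension one are proved in `Pool/Agent/FBR/Trans.lean`: adapt that file.  The
transition map `ρ : S → Fin m → ℂ`, `P'.Ψ (y', ρ z) = P.Ψ (y, z)`, is holomorphic and injective on the open `S`; its derivative `R` (complex
linear, injective) satisfies `dvec E P.Ψ (y, z) (0, v) = dvec E P'.Ψ (y', ρ z) (0, R v)`; so for a `2m`-form `η` on `E`: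
`η (P.vf (y, z)) = η (fun j => dvec E P'.Ψ .. (0, R (fr m j))) = R.det * η (P'.vf (y', ρ z))` (`alt_det` for
`η.compContinuousLinearMap (dvec E P'.Ψ .. ∘ inr)`), and `R.det > 0` (`det_pos_cplx`), so `|R.det| = R.det` in the change of variables
(`MeasureTheory.integral_image_eq_integral_abs_det_fderiv_smul`, `integrableOn_image_iff_integrableOn_abs_det_fderiv_smul`).
-/

set_option autoImplicit false

noncomputable section

open scoped Manifold ContDiff Classical

open MeasureTheory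

namespace Pool.Agent.FBN

open Pool.Agent.FBR

variable {E X : Type*} [NormedAddCommGroup E] [NormedSpace ℂ E] [FiniteDimensional ℂ E]
  [TopologicalSpace X] [ChartedSpace E X] [IsManifold 𝓘(ℂ, E) ω X]
  {F B : Type*} [NormedAddCommGroup F] [NormedSpace ℂ F] [FiniteDimensional ℂ F] [TopologicalSpace B]
  [ChartedSpace F B] [IsManifold 𝓘(ℂ, F) ω B] {π : X → B} {m : ℕ}

omit [FiniteDimensional ℂ E] [IsManifold 𝓘(ℂ, E) ω X] [FiniteDimensional ℂ F] [IsManifold 𝓘(ℂ, F) ω B] in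
private theorem Trans_base (P : PC E F π m) {b : B} (hb : b ∈ (chartAt F P.c).source) {w : Fin m → ℂ}
    (hw : (chartAt F P.c b, w) ∈ P.O) : π (P.Ψ (chartAt F P.c b, w)) = b := by
  rw [P.proj _ hw, (chartAt F P.c).left_inv hb]

/-- the part of the fibre over `b` in both product charts, in the coordinate of `P` -/
private def Trans_S (P P' : PC E F π m) (b : B) : Set (Fin m → ℂ) :=
  {w | (chartAt F P.c b, w) ∈ P.O ∧ P.Ψ (chartAt F P.c b, w) ∈ P'.Ψ '' P'.O}

private theorem Trans_ex (P P' : PC E F π m) {b : B} (hb : b ∈ (chartAt F P.c).source) {w : Fin m → ℂ}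
    (hw : w ∈ Trans_S P P' b) :
    ∃ w' : Fin m → ℂ, (chartAt F P'.c b, w') ∈ P'.O ∧
      P'.Ψ (chartAt F P'.c b, w') = P.Ψ (chartAt F P.c b, w) := by
  obtain ⟨hw1, q, hq, hqe⟩ := hw
  have h1 := (P'.base hq).2
  rw [hqe, Trans_base P hb hw1] at h1
  refine ⟨q.2, ?_, ?_⟩
  · rw [h1]
    exact hq
  · rw [h1]
    exact hqe

/-- local holomorphic transition map -/
private theorem Trans_loc (P P' : PC E F π m) {b : B} (hb : b ∈ (chartAt F P.c).source) {w : Fin m → ℂ}
    (hw : w ∈ Trans_S P P' b) :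
    ∃ κ : (Fin m → ℂ) → F × (Fin m → ℂ), ContDiffAt ℂ ∞ κ w ∧ ∀ᶠ w1 in nhds w, (chartAt F P.c b, w1) ∈ P.O ∧
      κ w1 ∈ P'.O ∧ P'.Ψ (κ w1) = P.Ψ (chartAt F P.c b, w1) := by
  obtain ⟨w', hO', he⟩ := Trans_ex P P' hb hw
  obtain ⟨W, k, hW, hmW, hWt, -, hk⟩ := hol_inv P'.isOpen P'.hol hO' (P'.bij _ hO')
    (p := P'.Ψ (chartAt F P'.c b, w')) (mem_chart_source E _)
  rw [he] at hmW hWt hk
  have hc : Continuous fun w1 : Fin m → ℂ => (chartAt F P.c b, w1) := by fun_prop
  have hΨ := P.hol _ hw.1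
  have hγ : ContinuousAt (fun w1 : Fin m → ℂ => P.Ψ (chartAt F P.c b, w1)) w :=
    ContinuousAt.comp (f := fun w1 : Fin m → ℂ => (chartAt F P.c b, w1)) (g := P.Ψ) hΨ.1 hc.continuousAt
  refine ⟨fun w1 => k (chartAt E (P.Ψ (chartAt F P.c b, w)) (P.Ψ (chartAt F P.c b, w1))), ?_, ?_⟩
  · have h1 : ContDiffAt ℂ ∞ (fun w1 : Fin m → ℂ => chartAt E (P.Ψ (chartAt F P.c b, w))
        (P.Ψ (chartAt F P.c b, w1))) w :=
      ContDiffAt.comp (g := chartAt E (P.Ψ (chartAt F P.c b, w)) ∘ P.Ψ)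
        (f := fun w1 : Fin m → ℂ => (chartAt F P.c b, w1)) w hΨ.2 (by fun_prop)
    exact ContDiffAt.comp (g := k) w (hk _ hmW).2.2 h1
  · have e1 : ∀ᶠ w1 in nhds w, (chartAt F P.c b, w1) ∈ P.O :=
      hc.continuousAt.eventually (P.isOpen.mem_nhds hw.1)
    have e2 : ∀ᶠ w1 in nhds w, P.Ψ (chartAt F P.c b, w1) ∈
        (chartAt E (P.Ψ (chartAt F P.c b, w))).source :=
      hγ.eventually ((chartAt E _).open_source.mem_nhds (mem_chart_source E _))
    have e3 : ∀ᶠ w1 in nhds w, chartAt E (P.Ψ (chartAt F P.c b, w))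
        (P.Ψ (chartAt F P.c b, w1)) ∈ W := by
      have h1 : ContinuousAt (fun w1 : Fin m → ℂ => chartAt E (P.Ψ (chartAt F P.c b, w))
          (P.Ψ (chartAt F P.c b, w1))) w :=
        ContinuousAt.comp (g := chartAt E (P.Ψ (chartAt F P.c b, w)))
          ((chartAt E _).continuousAt (mem_chart_source E _)) hγ
      exact h1.eventually (hW.mem_nhds hmW)
    filter_upwards [e1, e2, e3] with w1 h1 h2 h3
    obtain ⟨h4, h5, -⟩ := hk _ h3
    exact ⟨h1, h4, by rw [h5, (chartAt E _).left_inv h2]⟩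

private theorem Trans_open (P P' : PC E F π m) {b : B} (hb : b ∈ (chartAt F P.c).source) :
    IsOpen (Trans_S P P' b) := by
  rw [isOpen_iff_mem_nhds]
  intro w hw
  obtain ⟨κ, -, h⟩ := Trans_loc P P' hb hw
  filter_upwards [h] with w1 h1
  exact ⟨h1.1, _, h1.2.1, h1.2.2⟩

/-- the transition map -/
private def Trans_rho (P P' : PC E F π m) (b : B) (w : Fin m → ℂ) : Fin m → ℂ :=
  if h : ∃ w' : Fin m → ℂ, (chartAt F P'.c b, w') ∈ P'.O ∧
      P'.Ψ (chartAt F P'.c b, w') = P.Ψ (chartAt F P.c b, w) then h.choose else 0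

private theorem Trans_spec (P P' : PC E F π m) {b : B} (hb : b ∈ (chartAt F P.c).source) {w : Fin m → ℂ}
    (hw : w ∈ Trans_S P P' b) : (chartAt F P'.c b, Trans_rho P P' b w) ∈ P'.O ∧
      P'.Ψ (chartAt F P'.c b, Trans_rho P P' b w) = P.Ψ (chartAt F P.c b, w) := by
  have h := Trans_ex P P' hb hw
  unfold Trans_rho
  rw [dif_pos h]
  exact h.choose_spec

private theorem Trans_uniq (P P' : PC E F π m) {b : B} (hb : b ∈ (chartAt F P.c).source) {w : Fin m → ℂ}
    (hw : w ∈ Trans_S P P' b) {q : F × (Fin m → ℂ)} (hq : q ∈ P'.O) (he : P'.Ψ q = P.Ψ (chartAt F P.c b, w)) :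
    q = (chartAt F P'.c b, Trans_rho P P' b w) := by
  obtain ⟨h1, h2⟩ := Trans_spec P P' hb hw
  exact P'.inj hq h1 (he.trans h2.symm)

private theorem Trans_diff (P P' : PC E F π m) {b : B} (hb : b ∈ (chartAt F P.c).source) {w : Fin m → ℂ}
    (hw : w ∈ Trans_S P P' b) : DifferentiableAt ℂ (Trans_rho P P' b) w := by
  obtain ⟨κ, hκ, h⟩ := Trans_loc P P' hb hw
  have h1 : Trans_rho P P' b =ᶠ[nhds w] fun w1 => (κ w1).2 := by
    filter_upwards [h] with w1 h2
    have h3 := Trans_uniq P P' hb (w := w1) ⟨h2.1, _, h2.2.1, h2.2.2⟩ h2.2.1 h2.2.2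
    rw [h3]
  have h2 : DifferentiableAt ℂ (fun w1 => (κ w1).2) w :=
    (hκ.differentiableAt (by simp)).snd
  exact h2.congr_of_eventuallyEq h1

/-- the derivative of the transition map -/
private def Trans_R (P P' : PC E F π m) (b : B) (w : Fin m → ℂ) : (Fin m → ℂ) →L[ℝ] (Fin m → ℂ) :=
  (fderiv ℂ (Trans_rho P P' b) w).restrictScalars ℝ

private theorem Trans_fderiv (P P' : PC E F π m) {b : B} (hb : b ∈ (chartAt F P.c).source) {w : Fin m → ℂ}
    (hw : w ∈ Trans_S P P' b) :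
    HasFDerivAt (Trans_rho P P' b) (Trans_R P P' b w) w :=
  ((Trans_diff P P' hb hw).hasFDerivAt).restrictScalars ℝ

private theorem Trans_vec (P P' : PC E F π m) {b : B} (hb : b ∈ (chartAt F P.c).source) {w : Fin m → ℂ}
    (hw : w ∈ Trans_S P P' b) (v : Fin m → ℂ) :
    dvec E P.Ψ (chartAt F P.c b, w) (0, v) =
      dvec E P'.Ψ (chartAt F P'.c b, Trans_rho P P' b w) (0, Trans_R P P' b w v) := by
  obtain ⟨hO, he⟩ := Trans_spec P P' hb hw
  have hd1 : HasFDerivAt (fun w1 : Fin m → ℂ => (chartAt F P.c b, w1))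
      ((0 : (Fin m → ℂ) →L[ℝ] F).prod (ContinuousLinearMap.id ℝ (Fin m → ℂ))) w :=
    (hasFDerivAt_const _ _).prodMk (hasFDerivAt_id _)
  have hd2 : HasFDerivAt (fun w1 : Fin m → ℂ => (chartAt F P'.c b, Trans_rho P P' b w1))
      ((0 : (Fin m → ℂ) →L[ℝ] F).prod (Trans_R P P' b w)) w :=
    (hasFDerivAt_const _ _).prodMk (Trans_fderiv P P' hb hw)
  have h1 : dvec E (P.Ψ ∘ fun w1 : Fin m → ℂ => (chartAt F P.c b, w1)) w =
      dvec E (P'.Ψ ∘ fun w1 : Fin m → ℂ => (chartAt F P'.c b, Trans_rho P P' b w1)) w := by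
    have hev : (P'.Ψ ∘ fun w1 : Fin m → ℂ => (chartAt F P'.c b, Trans_rho P P' b w1)) =ᶠ[nhds w]
        (P.Ψ ∘ fun w1 : Fin m → ℂ => (chartAt F P.c b, w1)) := by
      filter_upwards [(Trans_open P P' hb).mem_nhds hw] with w1 hw1
      exact (Trans_spec P P' hb hw1).2
    unfold dvec
    have h0 : (P'.Ψ ∘ fun w1 : Fin m → ℂ => (chartAt F P'.c b, Trans_rho P P' b w1)) w =
        (P.Ψ ∘ fun w1 : Fin m → ℂ => (chartAt F P.c b, w1)) w := he
    rw [h0]
    exact (hev.fun_comp _).fderiv_eq.symm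
  rw [dvec_comp (k := fun w1 : Fin m → ℂ => (chartAt F P.c b, w1)) (P.hol _ hw.1).sm hd1.differentiableAt,
    dvec_comp (k := fun w1 : Fin m → ℂ => (chartAt F P'.c b, Trans_rho P P' b w1)) (P'.hol _ hO).sm
      hd2.differentiableAt, hd1.fderiv, hd2.fderiv] at h1
  exact congrArg (fun L : (Fin m → ℂ) →L[ℝ] E => L v) h1

private theorem Trans_pos (P P' : PC E F π m) {b : B} (hb : b ∈ (chartAt F P.c).source) {w : Fin m → ℂ}
    (hw : w ∈ Trans_S P P' b) : 0 < (Trans_R P P' b w).det := by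
  refine det_pos_cplx _ (fun v => map_smul (fderiv ℂ (Trans_rho P P' b) w) Complex.I v) ?_
  rw [injective_iff_map_eq_zero]
  intro v hv
  have h1 := Trans_vec P P' hb hw v
  rw [hv] at h1
  have h2 : dvec E P.Ψ (chartAt F P.c b, w) (0, v) = dvec E P.Ψ (chartAt F P.c b, w) 0 := by
    rw [h1]
    exact (map_zero _).trans (map_zero _).symm
  exact congrArg Prod.snd ((P.bij _ hw.1).1 h2)

private theorem Trans_inj (P P' : PC E F π m) {b : B} (hb : b ∈ (chartAt F P.c).source) :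
    Set.InjOn (Trans_rho P P' b) (Trans_S P P' b) := by
  intro w hw w' hw' h
  have h1 := (Trans_spec P P' hb hw).2
  rw [h, (Trans_spec P P' hb hw').2] at h1
  have h2 := P.inj hw'.1 hw.1 h1
  exact (congrArg Prod.snd h2).symm

private theorem Trans_image (P P' : PC E F π m) {b : B} (hb : b ∈ (chartAt F P.c).source)
    (hb' : b ∈ (chartAt F P'.c).source) : Trans_rho P P' b '' Trans_S P P' b = Trans_S P' P b := by
  ext w'
  constructor
  · rintro ⟨w, hw, rfl⟩
    obtain ⟨h1, h2⟩ := Trans_spec P P' hb hw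
    exact ⟨h1, _, hw.1, h2.symm⟩
  · intro hw'
    obtain ⟨w, hw, he⟩ := Trans_ex P' P hb' hw'
    have hwS : w ∈ Trans_S P P' b := ⟨hw, _, hw'.1, he.symm⟩
    refine ⟨w, hwS, ?_⟩
    have h1 := Trans_uniq P P' hb hwS hw'.1 he.symm
    exact (congrArg Prod.snd h1).symm

/-- the integrand -/
private def Trans_g (P : PC E F π m) (D : X → E [⋀^Fin (2 * m)]→L[ℝ] ℝ) (b : B) (w : Fin m → ℂ) : ℝ :=
  D (P.Ψ (chartAt F P.c b, w)) (P.vf (chartAt F P.c b, w))

private theorem Trans_gg (P P' : PC E F π m) (D : X → E [⋀^Fin (2 * m)]→L[ℝ] ℝ) {b : B}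
    (hb : b ∈ (chartAt F P.c).source) {w : Fin m → ℂ} (hw : w ∈ Trans_S P P' b) :
    Trans_g P D b w = |(Trans_R P P' b w).det| • Trans_g P' D b (Trans_rho P P' b w) := by
  unfold Trans_g
  rw [(Trans_spec P P' hb hw).2, abs_of_pos (Trans_pos P P' hb hw), smul_eq_mul]
  have h1 : P.vf (chartAt F P.c b, w) = fun j =>
      dvec E P'.Ψ (chartAt F P'.c b, Trans_rho P P' b w) (0, Trans_R P P' b w (fr m j)) := by
    funext j
    exact Trans_vec P P' hb hw (fr m j)
  rw [h1]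
  exact alt_det ((D (P.Ψ (chartAt F P.c b, w))).compContinuousLinearMap
    ((dvec E P'.Ψ (chartAt F P'.c b, Trans_rho P P' b w)).comp
      (ContinuousLinearMap.inr ℝ F (Fin m → ℂ)))) (Trans_R P P' b w)

private theorem Trans_ind (P P' : PC E F π m) (D : X → E [⋀^Fin (2 * m)]→L[ℝ] ℝ) {b : B}
    (hb : b ∈ (chartAt F P.c).source)
    (h0 : ∀ x, π x = b → (x ∉ P.Ψ '' P.O ∨ x ∉ P'.Ψ '' P'.O) → D x = 0) :
    (fun w : Fin m → ℂ => P.O.indicator (fun q => D (P.Ψ q) (P.vf q)) (chartAt F P.c b, w)) =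
      (Trans_S P P' b).indicator (Trans_g P D b) := by
  funext w
  by_cases hw : w ∈ Trans_S P P' b
  · rw [Set.indicator_of_mem hw, Set.indicator_of_mem hw.1]
    rfl
  · rw [Set.indicator_of_notMem hw]
    by_cases hO : (chartAt F P.c b, w) ∈ P.O
    · rw [Set.indicator_of_mem hO, h0 _ (Trans_base P hb hO) (Or.inr fun h => hw ⟨hO, h⟩)]
      rfl
    · rw [Set.indicator_of_notMem hO]

private theorem Trans_zero (P P' : PC E F π m) (D : X → E [⋀^Fin (2 * m)]→L[ℝ] ℝ) {b : B}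
    (hb' : b ∉ (chartAt F P'.c).source)
    (h0 : ∀ x, π x = b → (x ∉ P.Ψ '' P.O ∨ x ∉ P'.Ψ '' P'.O) → D x = 0) :
    fi P D b = 0 := by
  unfold fi
  split_ifs with hb
  · rw [Trans_ind P P' D hb h0]
    have h1 : Trans_S P P' b = ∅ := by
      rw [Set.eq_empty_iff_forall_notMem]
      rintro w ⟨hw, q, hq, he⟩
      have h2 := (P'.base hq).1
      rw [he, Trans_base P hb hw] at h2
      exact hb' h2
    rw [h1, Set.indicator_empty]
    simp
  · rfl

theorem transfer (P P' : PC E F π m) (D : X → E [⋀^Fin (2 * m)]→L[ℝ] ℝ) (b : B)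
    (h0 : ∀ x, π x = b → (x ∉ P.Ψ '' P.O ∨ x ∉ P'.Ψ '' P'.O) → D x = 0) :
    fi P D b = fi P' D b := by
  by_cases hb : b ∈ (chartAt F P.c).source
  · by_cases hb' : b ∈ (chartAt F P'.c).source
    · have h0' : ∀ x, π x = b → (x ∉ P'.Ψ '' P'.O ∨ x ∉ P.Ψ '' P.O) → D x = 0 :=
        fun x hx h => h0 x hx h.symm
      unfold fi
      rw [if_pos hb, if_pos hb', Trans_ind P P' D hb h0, Trans_ind P' P D hb' h0',
        integral_indicator (Trans_open P P' hb).measurableSet,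
        integral_indicator (Trans_open P' P hb').measurableSet, ← Trans_image P P' hb hb',
        integral_image_eq_integral_abs_det_fderiv_smul volume (Trans_open P P' hb).measurableSet
          (fun w hw => (Trans_fderiv P P' hb hw).hasFDerivWithinAt) (Trans_inj P P' hb)]
      exact setIntegral_congr_fun (Trans_open P P' hb).measurableSet
        fun w hw => Trans_gg P P' D hb hw
    · rw [Trans_zero P P' D hb' h0]
      unfold fi
      rw [if_neg hb']
  · rw [Trans_zero P' P D hb fun x hx h => h0 x hx h.symm]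
    unfold fi
    rw [if_neg hb]

theorem trans_integrable (P P' : PC E F π m) (D : X → E [⋀^Fin (2 * m)]→L[ℝ] ℝ) (b : B)
    (hb : b ∈ (chartAt F P.c).source) (hb' : b ∈ (chartAt F P'.c).source)
    (h0 : ∀ x, π x = b → (x ∉ P.Ψ '' P.O ∨ x ∉ P'.Ψ '' P'.O) → D x = 0)
    (hi : Integrable fun z : Fin m → ℂ => P.O.indicator (fun q => D (P.Ψ q) (P.vf q)) (chartAt F P.c b, z)) :
    Integrable fun z : Fin m → ℂ => P'.O.indicator (fun q => D (P'.Ψ q) (P'.vf q)) (chartAt F P'.c b, z) := by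
  rw [Trans_ind P P' D hb h0, integrable_indicator_iff (Trans_open P P' hb).measurableSet] at hi
  rw [Trans_ind P' P D hb' fun x hx h => h0 x hx h.symm,
    integrable_indicator_iff (Trans_open P' P hb').measurableSet, ← Trans_image P P' hb hb',
    integrableOn_image_iff_integrableOn_abs_det_fderiv_smul volume (Trans_open P P' hb).measurableSet
      (fun w hw => (Trans_fderiv P P' hb hw).hasFDerivWithinAt) (Trans_inj P P' hb)]
  exact hi.congr_fun (fun w hw => Trans_gg P P' D hb hw) (Trans_open P P' hb).measurableSet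

end Pool.Agent.FBN
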